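import Pool.Agent.Helper71.VIS.Trv
import Pool.Agent.Helper29.MX.Bas

/-! VOLUMES OF TRUNCATIONS, part 3: exact kernels, optimal volumes, systems: `e (M - vol (trn e) c) ≤ M - vol (e c)` for the
K-volumes of all resolutions and all prefixes. -/

set_option autoImplicit false

namespace Pool.Agent.Helper71.VIS

open Finset Filter Topology Matrix MvPolynomial Pool.Agent.Helper69.RK Pool.Agent.Helper31.EC
open Pool.Agent.Helper31.EC.Sp
open Pool.Agent.Helper40.EL Pool.Agent.Helper89.LX Pool.Agent.Helper3.LF Pool.Agent.Helper84.MT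
open Pool.Agent.Helper95.LF
open Pool.Agent.Helper52.SL (untF tnF untL tnL nul_trn cellv_chg untF_leak tnF_leak)
open Pool.Agent.Helper7.RD (volC volCO volC_eq volC_le_of volCO_le)
open Pool.Agent.Helper87.NSL (cndR KnS)
open Pool.Agent.Helper29.MX

noncomputable section

variable {S : Sp} {M D : ℕ} {κ ι : Type} {E : ℕ → ℕ}

/-- exact kernels of the truncated space -/
theorem untL_kz {r : ℝ} {h0 : 0 < r} {l : Lab (S.chg S.tr r h0)} {C : ∀ k, Setoid (S.F k).Ω} :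
    (LC.kz fun k => fc (C k)).ev (untL l) ↔
      (LC.kz (S := S.chg S.tr r h0) fun k => fc (F := (S.chg S.tr r h0).F k) (C k)).ev l := Iff.rfl

theorem tnL_kz {r : ℝ} {h0 : 0 < r} {l : Lab S} {C : ∀ k, Setoid (S.F k).Ω} :
    (LC.kz (S := S.chg S.tr r h0) fun k => fc (F := (S.chg S.tr r h0).F k) (C k)).ev (tnL r h0 l) ↔
      (LC.kz fun k => fc (C k)).ev l := Iff.rfl

/-- THE FORM OF THE POINT, exact kernels -/
theorem untFD_adK [Finite κ] {Q : S.VV M} {r : ℝ} {h0 : 0 < r} {y : ∀ k, FD ((S.chg S.tr r h0).F k) (Mon M D)}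
    (h1 : r ≤ 1) {B : κ → ∀ k, Setoid (S.F k).Ω} {C : ∀ k, Setoid (S.F k).Ω}
    (hy : (gaq (Q.chg S.tr r h0) D).AdfK (LC.kz fun k => fc (F := (S.chg S.tr r h0).F k) (C k))
      (fcs (S.chg S.tr r h0) B) y) :
    (gaq Q D).AdfK (LC.kz fun k => fc (C k)) (fcs S B) (untFD Q r h0 y) :=
  ⟨untFD_adf h1 hy.1, untL_kz.2 hy.2⟩

/-- OPTIMAL VOLUMES of the truncated point -/
theorem volC_trn [Finite κ] (Q : S.VV M) {r : ℝ} (h0 : 0 < r) (h1 : r ≤ 1) (B : κ → ∀ k, Setoid (S.F k).Ω)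
    (C : ∀ k, Setoid (S.F k).Ω) (D : ℕ) :
    r * (M - volC (LC.kz (S := S.chg S.tr r h0) fun k => fc (F := (S.chg S.tr r h0).F k) (C k))
      (fcs (S.chg S.tr r h0) B) (Q.chg S.tr r h0) D) ≤ M - volC (LC.kz fun k => fc (C k)) (fcs S B) Q D := by
  obtain ⟨y, hy⟩ := (gaq (Q.chg S.tr r h0) D).exists_optfK
    (LC.kz (S := S.chg S.tr r h0) fun k => fc (F := (S.chg S.tr r h0).F k) (C k)) (fcs (S.chg S.tr r h0) B)
  have h2 := vol_untFD h1 hy.1.1
  have h3 := volC_le_of (untFD_adK h1 hy.1)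
  have h4 := volC_eq hy
  rw [h4]
  exact h2.trans (sub_le_sub_left h3 _)

theorem volCO_trn [Finite κ] (Q : S.VV M) {r : ℝ} (h0 : 0 < r) (h1 : r ≤ 1) (B : κ → ∀ k, Setoid (S.F k).Ω)
    (C : ∀ k, Setoid (S.F k).Ω) :
    r * (M - volCO (LC.kz (S := S.chg S.tr r h0) fun k => fc (F := (S.chg S.tr r h0).F k) (C k))
      (fcs (S.chg S.tr r h0) B) (Q.chg S.tr r h0)) ≤ M - volCO (LC.kz fun k => fc (C k)) (fcs S B) Q := by
  set a := volCO (LC.kz (S := S.chg S.tr r h0) fun k => fc (F := (S.chg S.tr r h0).F k) (C k))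
    (fcs (S.chg S.tr r h0) B) (Q.chg S.tr r h0) with ha
  set b := volCO (LC.kz fun k => fc (C k)) (fcs S B) Q with hb
  have h2 : M - (M - b) / r ≤ a := by
    rw [ha]
    refine le_ciInf fun D => ?_
    have h3 := volC_trn Q h0 h1 B C D
    have h4 : b ≤ volC (LC.kz fun k => fc (C k)) (fcs S B) Q D := volCO_le D
    rw [sub_le_comm, le_div_iff₀ h0]
    linarith
  rw [sub_le_comm, le_div_iff₀ h0] at h2
  linarith

/-! ### systems -/

/-- the partitions of the conditions of the window `c` -/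
def cnw (s : MSys S M E ι) (R : Rsl S) (c : ℝ) : Option ι → ∀ k, Setoid (S.F k).Ω
  | none => R
  | some i => fun k => (s.lf i).La k ⊓ Setoid.ker ((s.lf i).Y.cellv c k)

theorem cndR_fcs (s : MSys S M E ι) (R : Rsl S) (c : ℝ) : cndR s R c = fcs S (cnw s R c) :=
  funext fun i => by cases i <;> rfl

theorem cndR_trn (s : MSys S M E ι) {e : ℝ} (he : 0 < e) (h1 : e ≤ 1) (R : Rsl S) (c : ℝ) :
    cndR (s.trn e he h1) R c = fcs (S.chg S.tr e he) (cnw (S := S) s R (e * c)) := by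
  funext i
  rcases i with _ | i
  · rfl
  · funext k
    have e1 : ((s.lf i).Y.chg S.tr e he).cellv c k = (s.lf i).Y.cellv (e * c) k := cellv_chg (s.lf i).Y e he c k
    exact congrArg (fun f => fc (F := (S.chg S.tr e he).F k) ((s.lf i).La k ⊓ Setoid.ker f)) e1

variable [Finite ι]

/-- K-VOLUMES OF TRUNCATIONS -/
theorem volK_trn (s : MSys S M E ι) {e : ℝ} (he : 0 < e) (h1 : e ≤ 1) (R : Rsl S) (D : ℕ) (c : ℝ) :
    e * (M - volK (s.trn e he h1) R D c) ≤ M - volK s R D (e * c) := by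
  rw [volK_eq, volK_eq, cndR_trn, cndR_fcs s]
  exact volC_trn s.Q he h1 _ R D

theorem volKO_trn (s : MSys S M E ι) {e : ℝ} (he : 0 < e) (h1 : e ≤ 1) (R : Rsl S) (c : ℝ) :
    e * (M - volKO (s.trn e he h1) R c) ≤ M - volKO s R (e * c) := by
  rw [volKO_eq, volKO_eq, cndR_trn, cndR_fcs s]
  exact volCO_trn s.Q he h1 _ R

theorem volP_trn (s : MSys S M E ι) {e : ℝ} (he : 0 < e) (h1 : e ≤ 1) (R : Rsl S) (c : ℝ) {j : ℕ} (hj : j ≤ M) :
    e * (j - volP (s.trn e he h1) R c hj) ≤ j - volP s R (e * c) hj := by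
  unfold volP
  rw [cndR_trn, cndR_fcs s]
  exact volCO_trn (pfx s.Q hj) he h1 _ R

/-- stability of truncations, one system -/
theorem volKO_trn_zero (s : MSys S M E ι) {e : ℝ} (he : 0 < e) (h1 : e ≤ 1) (R : Rsl S) {ε : ℝ}
    (h : (M : ℝ) - ε ≤ volKO s R 0) : (M : ℝ) - ε / e ≤ volKO (s.trn e he h1) R 0 := by
  have h2 := volKO_trn s he h1 R 0
  rw [mul_zero] at h2
  rw [sub_le_comm, le_div_iff₀ he]
  linarith

/-! ### events of extensions of truncations -/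

omit [Finite ι] in
/-- events of extensions of the truncated space are truncations of events of extensions -/
theorem trn_im' (s : MSys S M E ι) {e : ℝ} (he : 0 < e) (h1 : e ≤ 1) {T : Sp} (p : Pj T (S.chg S.tr e he))
    (A : ∀ k, (T.F k).Ω → Prop) (hA : 0 < ul (T.pr A)) :
    (⟨_, (s.im (Pool.Agent.Helper42.NS.ptu p) A hA).trn e he h1⟩ : Σ S : Sp, MSys S M E ι) =
      ⟨_, (s.trn e he h1).im p A hA⟩ := rfl

omit [Finite ι] in
/-- robust properties of truncations -/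
theorem AllE_trn {P P' : ∀ S : Sp, MSys S M E ι → Rsl S → Prop} {e : ℝ} (he : 0 < e) (h1 : e ≤ 1)
    (h : ∀ (S : Sp) (s : MSys S M E ι) (R : Rsl S), P S s R → P' (S.chg S.tr e he) (s.trn e he h1) R)
    {s : MSys S M E ι} {R : Rsl S} (hs : AllE P S s R) : AllE P' (S.chg S.tr e he) (s.trn e he h1) R := by
  intro T p A hA
  have h2 := h _ _ _ (hs (Pool.Agent.Helper42.NS.unt p) (Pool.Agent.Helper42.NS.ptu p) A hA)
  exact h2

/-- STABILITY OF TRUNCATIONS -/
theorem Stb_trn {ε e : ℝ} (he : 0 < e) (h1 : e ≤ 1) {s : MSys S M E ι} {R : Rsl S} (hs : Stb ε s R) :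
    Stb (ε / e) (s.trn e he h1) R :=
  AllE_trn he h1 (fun _ s R h => volKO_trn_zero s he h1 R h) hs

theorem Stb_trn_zero {e : ℝ} (he : 0 < e) (h1 : e ≤ 1) {s : MSys S M E ι} {R : Rsl S} (hs : Stb 0 s R) :
    Stb 0 (s.trn e he h1) R := by
  have := Stb_trn he h1 hs
  rwa [zero_div] at this

end

end Pool.Agent.Helper71.VIS
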