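import Mathlib

/-! Monotone functions with large derivatives. -/

set_option autoImplicit false

namespace Pool.Agent.Helper71.VIS

open Set Filter Topology MeasureTheory

/-- a monotone function the derivatives of which are at least `W` grows at least like `W` -/
theorem mono_ge {u : ℝ → ℝ} {a b W : ℝ} (hab : a ≤ b) (hm : MonotoneOn u (Icc a b))
    (hd : ∀ᵐ c : ℝ, c ∈ Ioo a b → ∀ w, HasDerivAt u w c → W ≤ w) : W * (b - a) ≤ u b - u a := by
  have hu : uIcc a b = Icc a b := uIcc_of_le hab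
  have h1 := (hu.symm ▸ hm : MonotoneOn u (uIcc a b)).intervalIntegral_deriv_mem_uIcc
  have hle : u a ≤ u b := hm (left_mem_Icc.2 hab) (right_mem_Icc.2 hab) hab
  rw [uIcc_of_le (by linarith : (0 : ℝ) ≤ u b - u a)] at h1
  have hi : IntervalIntegrable (deriv u) volume a b :=
    (hu.symm ▸ hm : MonotoneOn u (uIcc a b)).intervalIntegrable_deriv
  have hdiff : ∀ᵐ c : ℝ, c ∈ Ioo a b → W ≤ deriv u c := by
    have h2 := hm.ae_differentiableWithinAt_of_mem
    filter_upwards [h2, hd] with c hc1 hc2 hc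
    have h3 : DifferentiableAt ℝ u c :=
      (hc1 (Ioo_subset_Icc_self hc)).differentiableAt (Icc_mem_nhds hc.1 hc.2)
    exact hc2 hc _ h3.hasDerivAt
  have h4 : (∫ _ in a..b, W) ≤ ∫ x in a..b, deriv u x := by
    refine intervalIntegral.integral_mono_ae_restrict hab intervalIntegrable_const hi ?_
    rw [Filter.EventuallyLE, ← restrict_Ioo_eq_restrict_Icc, ae_restrict_iff' measurableSet_Ioo]
    exact hdiff
  rw [intervalIntegral.integral_const, smul_eq_mul] at h4
  nlinarith [h1.2]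

/-- the extremal speed is attained everywhere -/
theorem mono_eq {u : ℝ → ℝ} {L W : ℝ} (hm : ∀ a b, 0 ≤ a → a ≤ b → b < L → u a ≤ u b) (h0 : u 0 = 0)
    (hle : ∀ c, 0 ≤ c → c < L → u c ≤ W * c)
    (hd : ∀ᵐ c : ℝ, 0 < c → c < L → ∀ w, HasDerivAt u w c → W ≤ w) (c : ℝ) (hc : 0 ≤ c) (hL : c < L) :
    u c = W * c := by
  refine le_antisymm (hle c hc hL) ?_
  have h1 := mono_ge (u := u) (a := 0) (b := c) (W := W) hc
    (fun x hx y hy hxy => hm x y hx.1 hxy (lt_of_le_of_lt hy.2 hL)) (by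
      filter_upwards [hd] with x hx hx' w hw
      exact hx hx'.1 (lt_trans hx'.2 hL) w hw)
  rw [h0] at h1
  linarith

end Pool.Agent.Helper71.VIS
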