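import Pool.Agent.Helper71.VIS.Trk
import Pool.Agent.Helper71.VIS.Mon

/-! COARSER RESOLUTIONS have fewer exact labels: K-labels, volumes, stability; the numbers of a coarser resolution are the
numbers of the resolution, if these have the least speed. -/

set_option autoImplicit false

namespace Pool.Agent.Helper71.VIS

open Finset Filter Topology Matrix Pool.Agent.Helper69.RK Pool.Agent.Helper31.EC
open Pool.Agent.Helper31.EC.Sp
open Pool.Agent.Helper40.EL Pool.Agent.Helper89.LX Pool.Agent.Helper3.LF Pool.Agent.Helper84.MT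
open Pool.Agent.Helper7.RD (volC volCO volC_eq volC_le_of volCO_le volC_mono volCO_mono)
open Pool.Agent.Helper87.NSL (cndR KnS)
open Pool.Agent.Helper29.MX

noncomputable section

variable {S T : Sp} {M D : ℕ} {ι : Type} {E : ℕ → ℕ}

/-- `R'` is coarser than `R` (given the base, on the support) -/
def Cso (S : Sp) (R R' : Rsl S) : Prop :=
  ∀ᶠ k in UF, ∀ ω ω', (S.F k).μ ω ≠ 0 → (S.F k).μ ω' ≠ 0 → (S.F k).Z ω ω' → R k ω ω' → R' k ω ω'

theorem Cso.rfl' (R : Rsl S) : Cso S R R := Eventually.of_forall fun _ _ _ _ _ _ h => h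

theorem Cso.trans {R R' R'' : Rsl S} (h : Cso S R R') (h' : Cso S R' R'') : Cso S R R'' := by
  filter_upwards [h, h'] with k a b ω ω' h1 h2 h3 h4
  exact b ω ω' h1 h2 h3 (a ω ω' h1 h2 h3 h4)

theorem cso_of_le {R R' : Rsl S} (h : ∀ k, R k ≤ R' k) : Cso S R R' :=
  Eventually.of_forall fun k _ _ _ _ _ h4 => h k h4

theorem cso_bot (R : Rsl S) : Cso S (rbot S) R := cso_of_le fun _ => bot_le

/-- cells of the point are coarser than every resolution which resolves the point -/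
theorem cso_cell {s : MSys S M E ι} {R : Rsl S} (h : Pt s R) (e : ℝ) :
    Cso S R (fun k => Setoid.ker (s.Q.cellv e k)) := by
  filter_upwards [h] with k a ω ω' h1 h2 h3 h4
  have h5 : s.Q.v k ω = s.Q.v k ω' := a ω ω' h1 h2 h3 h4
  show s.Q.cellv e k ω = s.Q.cellv e k ω'
  unfold VV.cellv
  rw [h5]

theorem cso_vis {s : MSys S M E ι} {R : Rsl S} (h : Pt s R) : Cso S R (vis s.Q) := cso_cell h 1

theorem Cso.fc_le {R R' : Rsl S} (h : Cso S R R') :
    ∀ᶠ k in UF, (fc (R' k) : FL (S.F k)) ≤ fc (R k) := by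
  filter_upwards [h] with k hk
  exact Pool.Agent.Helper40.EL.fc_le hk

theorem Cso.nul {R R' : Rsl S} (h : Cso S R R') : PLe (fun k => (fc (R' k) : FL (S.F k))) (fun k => fc (R k)) := by
  refine (Nul_zero S).of_le (Eventually.of_forall fun k => h_nonneg _ _) ?_
  filter_upwards [h.fc_le] with k hk
  exact (h_zero hk).le

/-- events of extensions -/
theorem Cso.im {R R' : Rsl S} (h : Cso S R R') (p : Pj T S) (A : ∀ k, (T.F k).Ω → Prop) :
    Cso (Sp.im p A) R R' := by
  filter_upwards [h] with k hk ω ω' h1 h2 h3 h4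
  have hs : ∀ ω, ((Sp.im p A).F k).μ ω ≠ 0 → (S.F k).μ ω ≠ 0 := by
    intro ω hω
    exact FSp.im_supp (p.fp k) (A k) ω hω
  exact hk ω ω' (hs ω h1) (hs ω' h2) h3 h4

theorem Cso.chg {R R' : Rsl S} (h : Cso S R R') {e : ℝ} (he : 0 < e) : Cso (S.chg S.tr e he) R R' := by
  filter_upwards [h] with k hk ω ω' h1 h2 h3 h4
  exact hk ω ω' h1 h2 h3.2 h4

theorem Cso.pull {R R' : Rsl S} (h : Cso S R R') (p : Pj T S) : Cso T (rpull p R) (rpull p R') := by
  filter_upwards [h] with k hk ω ω' h1 h2 h3 h4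
  exact hk _ _ (p.supp k ω h1) (p.supp k ω' h2) ((p.hZ k ω ω' h1 h2).1 h3) h4

/-! ### labels and volumes -/

theorem Cso.kz {R R' : Rsl S} (h : Cso S R R') {l : Lab S} (hl : (KZ R').ev l) : (KZ R).ev l :=
  LC.kz_mono h.fc_le hl

theorem Cso.cnd {s : MSys S M E ι} {R R' : Rsl S} (h : Cso S R R') (c : ℝ) (i : Option ι) :
    PLe (cndR s R' c i) (cndR s R c i) := by
  rcases i with _ | i
  · exact h.nul
  · exact PLe.refl _

theorem Cso.klb {s : MSys S M E ι} {R R' : Rsl S} (h : Cso S R R') {c : ℝ} {l : Lab S} (hl : KLb s R' c l) :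
    KLb s R c l := ⟨hl.1.mono fun i => ⟨i, h.cnd c i⟩, h.kz hl.2⟩

theorem Cso.kad [Finite ι] {s : MSys S M E ι} {R R' : Rsl S} (h : Cso S R R') {c : ℝ}
    {x : ∀ k, FD (S.F k) (Mon M D)} (hx : KAd s R' D c x) : KAd s R D c x :=
  Pool.Agent.Helper7.RD.adfK_mono hx (fun i => ⟨i, h.cnd c i⟩) fun _ hl => h.kz hl

theorem Cso.volC [Finite ι] {s : MSys S M E ι} {R R' : Rsl S} (h : Cso S R R') (c : ℝ) {m : ℕ} (Q : S.VV m) (D : ℕ) :
    volC (KZ R) (cndR s R c) Q D ≤ volC (KZ R') (cndR s R' c) Q D :=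
  volC_mono (fun i => ⟨i, h.cnd c i⟩) fun _ hl => h.kz hl

theorem Cso.volK [Finite ι] {s : MSys S M E ι} {R R' : Rsl S} (h : Cso S R R') (D : ℕ) (c : ℝ) :
    volK s R D c ≤ volK s R' D c := by
  rw [volK_eq, volK_eq]
  exact h.volC c s.Q D

theorem Cso.volKO [Finite ι] {s : MSys S M E ι} {R R' : Rsl S} (h : Cso S R R') (c : ℝ) :
    volKO s R c ≤ volKO s R' c := by
  rw [volKO_eq, volKO_eq]
  exact volCO_mono (fun i => ⟨i, h.cnd c i⟩) fun _ hl => h.kz hl

theorem Cso.volP [Finite ι] {s : MSys S M E ι} {R R' : Rsl S} (h : Cso S R R') (c : ℝ) {j : ℕ} (hj : j ≤ M) :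
    volP s R c hj ≤ volP s R' c hj :=
  volCO_mono (fun i => ⟨i, h.cnd c i⟩) fun _ hl => h.kz hl

/-- STABILITY passes to coarser resolutions -/
theorem Cso.stb [Finite ι] {s : MSys S M E ι} {R R' : Rsl S} (h : Cso S R R') {ε : ℝ} (hs : Stb ε s R) :
    Stb ε s R' := by
  intro T p A hA
  have h1 := hs T p A hA
  exact h1.trans ((h.im p A).volKO 0)

/-! ### windows -/

theorem cndR_mono {s : MSys S M E ι} {R : Rsl S} {c c' : ℝ} (hc : c ≤ c') (i : Option ι) :
    PLe (cndR s R c i) (cndR s R c' i) := by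
  rcases i with _ | i
  · exact PLe.refl _
  · exact (s.lf i).win_mono hc

theorem volKO_mono [Finite ι] (s : MSys S M E ι) (R : Rsl S) {c c' : ℝ} (hc : c ≤ c') :
    volKO s R c' ≤ volKO s R c := by
  rw [volKO_eq, volKO_eq]
  exact volCO_mono (fun i => ⟨i, cndR_mono hc i⟩) fun _ hl => hl

theorem volP_mono [Finite ι] (s : MSys S M E ι) (R : Rsl S) {c c' : ℝ} (hc : c ≤ c') {j : ℕ} (hj : j ≤ M) :
    volP s R c' hj ≤ volP s R c hj :=
  volCO_mono (fun i => ⟨i, cndR_mono hc i⟩) fun _ hl => hl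

/-! ### the numbers of a coarser resolution -/

/-- (V1): a coarser resolution has the same total exponents, if no derivative of its total exponent is less than the
speed `W` of the resolution -/
theorem vis_numbers [Finite ι] {s : MSys S M E ι} {R R' : Rsl S} {L W : ℝ} (hL : 0 < L) (h : Cso S R R')
    (hu : ∀ c, 0 ≤ c → c < L → volKO s R c = M - W * c)
    (hd : ∀ᵐ c : ℝ, 0 < c → c < L → ∀ w, HasDerivAt (fun c => (M : ℝ) - volKO s R' c) w c → W ≤ w) (c : ℝ) (hc : 0 ≤ c)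
    (hcL : c < L) : volKO s R' c = M - W * c := by
  have h0 : (M : ℝ) - volKO s R' 0 = 0 := by
    have h1 := h.volKO (s := s) 0
    have h2 := volKO_le_M s R' 0
    have h3 := hu 0 le_rfl hL
    rw [mul_zero, sub_zero] at h3
    linarith
  have h1 := mono_eq (u := fun c => (M : ℝ) - volKO s R' c) (L := L) (W := W)
    (fun a b _ hab _ => sub_le_sub_left (volKO_mono s R' hab) _) h0
    (fun c hc hcL => by
      have h1 := h.volKO (s := s) c
      have h3 := hu c hc hcL
      show (M : ℝ) - volKO s R' c ≤ W * c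
      linarith) hd c hc hcL
  have h2 : (M : ℝ) - volKO s R' c = W * c := h1
  linarith

end

end Pool.Agent.Helper71.VIS
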