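import Pool.Agent.Helper71.VIS.Ind
import Pool.Agent.Helper71.VIS.Cso
import Pool.Agent.Helper99.MX.Swp
import Pool.Agent.Helper48.ROK.Mx

/-! (V1) IN THE VOCABULARY OF MX: the numbers of a coarser resolution. `R'` coarser than `R`, both resolve the point, the
numbers of `R` are `w_j c`; if at almost every window at which the successive exponents of `R'` are less than one the speed
of the total exponent of `R'` is at least the sum of the weights, then the numbers of `R'` are `w_j c`. -/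

set_option autoImplicit false

namespace Pool.Agent.Helper71.VIS

open Finset Filter Topology Matrix Pool.Agent.Helper69.RK Pool.Agent.Helper31.EC
open Pool.Agent.Helper31.EC.Sp
open Pool.Agent.Helper40.EL Pool.Agent.Helper89.LX Pool.Agent.Helper3.LF Pool.Agent.Helper84.MT
open Pool.Agent.Helper36.AM (Frm STu)
open Pool.Agent.Helper7.RD (volC volCO volC_eq volC_le_of volCO_le volC_mono volCO_mono)
open Pool.Agent.Helper87.NSL (cndR KnS)
open Pool.Agent.Helper89.RAD (cnA dp)
open Pool.Agent.Helper48.ROK (NumS num_lowP exists_stm)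
open Pool.Agent.Helper99.MX (swp)
open Pool.Agent.Helper29.MX

noncomputable section

variable {S : Sp} {M : ℕ} {ι : Type}

/-- THE PREFIXES ARE FULL over all K-labels of the windows below one -/
theorem pre_full [Finite ι] {g : ℕ} {s : MSys S M (lin g) ι} {R : Rsl S} (hst : ∀ m, m < M → STu m) (hP : Pt s R)
    {c : ℝ} (h0 : 0 ≤ c) (h1 : c < 1) {l : Lab S} (hl : KLb s R c l) {j : ℕ} (hj : j < M) :
    volP s R c hj.le ≤ H (up1 l ((pfx s.Q hj.le).dg 1)) := by
  obtain ⟨D, hD, hST⟩ := exists_stm hst g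
  have e1 : cnA s (dp R) c = cndR s R c := (cndR_eq s R c).symm
  have h2 : Pool.Agent.Helper89.RAD.DMD s (dp R) R c l := by
    refine ⟨?_, hl.2⟩
    show l.DMf (cnA s (dp R) c)
    rw [e1]
    exact hl.1
  have h3 := num_lowP (D := D) hj.le (fun r => hST D le_rfl j hj r) hP hD h0 h1 h2
  rw [e1] at h3
  exact (volCO_le D).trans h3

/-- SWAP OF PREFIXES for a coarser resolution -/
theorem swp_cso [Finite ι] {g : ℕ} {s : MSys S M (lin g) ι} {R R' : Rsl S} (hst : ∀ m, m < M → STu m)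
    (h : Cso S R R') (hP : Pt s R') {c : ℝ} (h0 : 0 ≤ c) (h1 : c < 1) (htot : volKO s R' c ≤ volKO s R c) {j : ℕ}
    (hj : j ≤ M) : volP s R' c hj = volP s R c hj := by
  rw [volKO_eq, volKO_eq] at htot
  exact swp (σ := id) Function.injective_id hP (fun l hl => h.kz hl) (fun i => ⟨i, h.cnd c i⟩)
    (fun j hj l a b => pre_full hst hP h0 h1 ⟨a, b⟩ hj) htot hj

/-- the exponent of the prefix of length `j` -/
def Ap {E : ℕ → ℕ} (s : MSys S M E ι) (R : Rsl S) (j : ℕ) (c : ℝ) : ℝ := if h : j ≤ M then j - volP s R c h else 0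

theorem Ap_of {E : ℕ → ℕ} (s : MSys S M E ι) (R : Rsl S) {j : ℕ} (h : j ≤ M) (c : ℝ) :
    Ap s R j c = j - volP s R c h := dif_pos h

theorem volP_top {E : ℕ → ℕ} [Finite ι] (s : MSys S M E ι) (R : Rsl S) (c : ℝ) :
    volP s R c le_rfl = volKO s R c := by
  rw [volKO_eq]
  rfl

theorem Ap_top {E : ℕ → ℕ} [Finite ι] (s : MSys S M E ι) (R : Rsl S) (c : ℝ) : Ap s R M c = M - volKO s R c := by
  rw [Ap_of s R le_rfl, volP_top]

/-- partial sums of the weights -/
def aS (w : Fin M → ℝ) (j : ℕ) : ℝ := ∑ i : Fin M, if i.val < j then w i else 0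

theorem aS_top (w : Fin M → ℝ) : aS w M = ∑ i, w i :=
  Finset.sum_congr rfl fun i _ => if_pos i.isLt

theorem aS_succ (w : Fin M → ℝ) (j : Fin M) : aS w (j.val + 1) - aS w j.val = w j := by
  unfold aS
  rw [← Finset.sum_sub_distrib, Finset.sum_eq_single j]
  · rw [if_pos (Nat.lt_succ_self _), if_neg (lt_irrefl _), sub_zero]
  · intro b _ hb
    have hb' : b.val ≠ j.val := fun h => hb (Fin.ext h)
    by_cases h : b.val < j.val
    · rw [if_pos h, if_pos (by omega), sub_self]
    · rw [if_neg h, if_neg (by omega), sub_self]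
  · intro h
    exact absurd (Finset.mem_univ j) h

theorem numS_iff {E : ℕ → ℕ} {s : MSys S M E ι} {R : Rsl S} {c : ℝ} {w : Fin M → ℝ} :
    NumS c w s R ↔ ∀ j, j ≤ M → Ap s R j c = aS w j * c := by
  constructor
  · intro h j hj
    rw [Ap_of s R hj, h j hj]
    unfold aS
    ring
  · intro h j hj
    have h1 := h j hj
    rw [Ap_of s R hj] at h1
    unfold aS at h1
    linarith

/-- **(V1)**: THE NUMBERS OF A COARSER RESOLUTION -/
theorem v1 [Finite ι] {g : ℕ} {s : MSys S M (lin g) ι} {R R' : Rsl S} (hst : ∀ m, m < M → STu m)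
    (h : Cso S R R') (hP : Pt s R') {w : Fin M → ℝ} {L : ℝ} (hL0 : 0 < L) (hL1 : L ≤ 1) (hw : ∀ i, w i * L ≤ 1)
    (hN : ∀ c, 0 ≤ c → c < L → NumS c w s R)
    (hd : ∀ᵐ c : ℝ, 0 < c → c < L → (∀ j, j < M → Ap s R' (j + 1) c - Ap s R' j c < 1) →
      ∀ d, HasDerivAt (fun c => (M : ℝ) - volKO s R' c) d c → ∑ i, w i ≤ d)
    (c : ℝ) (hc : 0 ≤ c) (hcL : c < L) : NumS c w s R' := by
  have e0 : Ap s R' M = fun c => (M : ℝ) - volKO s R' c := funext fun c => Ap_top s R' c
  have hle : ∀ j, j ≤ M → ∀ c, 0 ≤ c → c < L → Ap s R' j c ≤ aS w j * c := by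
    intro j hj c hc hcL
    rw [← numS_iff.1 (hN c hc hcL) j hj, Ap_of s R' hj, Ap_of s R hj]
    exact sub_le_sub_left (h.volP c hj) _
  have hsw : ∀ c, 0 ≤ c → c < L → Ap s R' M c = aS w M * c → ∀ j, j ≤ M → Ap s R' j c = aS w j * c := by
    intro c hc hcL h1 j hj
    have h2 := numS_iff.1 (hN c hc hcL) M le_rfl
    rw [Ap_top] at h1 h2
    have h3 : volKO s R' c ≤ volKO s R c := by linarith
    have h4 := swp_cso hst h hP hc (hcL.trans_le hL1) h3 hj
    rw [← numS_iff.1 (hN c hc hcL) j hj, Ap_of s R' hj, Ap_of s R hj, h4]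
  have h1 := ind_eq (N := M) (A := fun j => Ap s R' j) (a := aS w) (L := L)
    (fun j hj b c hb hbc _ => by
      show Ap s R' j b ≤ Ap s R' j c
      rw [Ap_of s R' hj, Ap_of s R' hj]
      exact sub_le_sub_left (volP_mono s R' hbc hj) _)
    (by
      have h2 := hle M le_rfl 0 le_rfl hL0
      rw [mul_zero] at h2
      have h3 := volKO_le_M s R' 0
      show Ap s R' M 0 = 0
      rw [Ap_top] at h2 ⊢
      linarith) hle
    (fun j hj => by
      have := hw ⟨j, hj⟩
      rw [← aS_succ w ⟨j, hj⟩] at this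
      exact this) hsw
    (by
      filter_upwards [hd] with x hx h2 h3 h4 d hd'
      rw [aS_top]
      refine hx h2 h3 h4 d ?_
      rw [← e0]
      exact hd') c hc hcL
  exact numS_iff.2 (hsw c hc hcL h1)

end

end Pool.Agent.Helper71.VIS
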