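import Pool.Agent.Helper71.VIS.Trx
import Pool.Agent.Helper71.VIS.Num
import Pool.Agent.Helper77.TPX.Stp
import Pool.Agent.Helper14.MC.Cnt
import Pool.Agent.Helper84.KR.Ajo

/-! ROW `TRNX`, part 2: TOP is inherited by truncations (with an error). -/

set_option autoImplicit false

namespace Pool.Agent.Helper71.VIS

open Finset Filter Topology Matrix MvPolynomial Pool.Agent.Helper69.RK Pool.Agent.Helper31.EC
open Pool.Agent.Helper31.EC.Sp
open Pool.Agent.Helper40.EL Pool.Agent.Helper89.LX Pool.Agent.Helper3.LF Pool.Agent.Helper84.MT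
open Pool.Agent.Helper49.MD Pool.Agent.Helper36.AM
open Pool.Agent.Helper87.NSL (cndR KnS)
open Pool.Agent.Helper52.SL (untF tnF untL tnL nul_trn cellv_chg untF_leak tnF_leak)
open Pool.Agent.Helper7.RD (volC volCO volC_eq volC_le_of volCO_le)
open Pool.Agent.Helper77.TPX (oth topx_slk)
open Pool.Agent.Helper29.MX
open Pool.Agent.Helper94.SEL

noncomputable section

variable {S T : Sp} {M N D : ℕ} {E : ℕ → ℕ} {κ ι : Type}

/-! ### entropies over labels -/

/-- entropies over labels of the truncated space -/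
theorem H_untL {e : ℝ} {he : 0 < e} (y : Lab (S.chg S.tr e he)) (X : S.L) :
    H (up1 y (chgL S.tr e he X)) = H (up1 (untL y) X) / e := by
  induction X using cl_ind with | _ A
  have e1 : up1 y (chgL S.tr e he (cl A)) = cl (y.upI 1 one_pos (chgI S.tr e he A)) := rfl
  have e2 : up1 (untL y) (cl A) = cl ((untL y).upI 1 one_pos A) := rfl
  rw [e1, e2, H_cl, H_cl]
  have key : (y.ovr 1 one_pos).rt (y.upI 1 one_pos (chgI S.tr e he A)).1 (y.ovr 1 one_pos).tr =
      fun k => e⁻¹ * ((untL y).ovr 1 one_pos).rt ((untL y).upI 1 one_pos A).1 ((untL y).ovr 1 one_pos).tr k := by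
    funext k
    obtain ⟨a, ha⟩ : ∃ a, a = ((y.ovr 1 one_pos).F k).e ((y.upI 1 one_pos (chgI S.tr e he A)).1 k)
      ((y.ovr 1 one_pos).tr k ⊓ ((y.ovr 1 one_pos).F k).Z) := ⟨_, rfl⟩
    have h1 : (y.ovr 1 one_pos).rt (y.upI 1 one_pos (chgI S.tr e he A)).1 (y.ovr 1 one_pos).tr k =
        a / ((y.ovr 1 one_pos).F k).n := by
      rw [ha]
      rfl
    have h2 : ((untL y).ovr 1 one_pos).rt ((untL y).upI 1 one_pos A).1 ((untL y).ovr 1 one_pos).tr k =
        a / (((untL y).ovr 1 one_pos).F k).n := by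
      rw [ha]
      rfl
    rw [h1, h2, Lab.n_over, Lab.n_over]
    have h3 : ((S.chg S.tr e he).F k).n = e * (S.F k).n := rfl
    rw [h3]
    have := (S.F k).pos.ne'
    field_simp
  rw [key, ul_const_mul]
  · ring
  · exact UB_rt _ _

/-- rates in the truncated space -/
theorem h_chg_tr {e : ℝ} {he : 0 < e} (x y : S.L) : h (chgL S.tr e he x) (chgL S.tr e he y) = h x y / e := by
  have h1 := h_chgL_inf e he (Inf.bot : S.Inf) x y
  rw [cl_bot, sup_bot_eq] at h1
  exact h1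

/-- the partition of a label with a finer partition knows the coarser information -/
theorem H_addW_zero (l : Lab S) (W : ∀ k, Setoid (l k).T.Ω) (A : S.Inf)
    (hW : ∀ k, W k ≤ Setoid.comap (l k).p.π (A.1 k)) : H (up1 (l.addW W) (cl A)) = 0 := by
  rw [Pool.Agent.Helper89.RAD.H_lab]
  have h1 : ∀ k, h (((l.addW W) k).p.map (rpI A k)) ((l.addW W) k).v = 0 := by
    intro k
    apply h_zero
    have e1 : ((l.addW W) k).p.map (rpI A k) = fc (F := (l k).T) (Setoid.comap (l k).p.π (A.1 k)) := rfl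
    have e2 : ((l.addW W) k).v = fc (F := (l k).T) ((l k).V ⊓ W k) := rfl
    rw [e1, e2]
    exact fc_mono (inf_le_right.trans (hW k))
  have h2 : Nul S fun k => h (((l.addW W) k).p.map (rp (cl A) k)) ((l.addW W) k).v := by
    have h3 : PLe (rp (cl A)) (rpI A) := (rp_rpI A).1
    refine Nul.of_le (S := S) h3 (Eventually.of_forall fun k => h_nonneg _ _) (Eventually.of_forall fun k => ?_)
    have h4 := h_triangle (((l.addW W) k).p.map (rp (cl A) k)) (((l.addW W) k).p.map (rpI A k)) ((l.addW W) k).v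
    rw [h1 k, add_zero] at h4
    refine h4.trans ?_
    refine (h_anti le_sup_left).trans ?_
    rw [((l.addW W) k).p.h_map]
  exact ul_eq h2

/-! ### K-labels with the cells of the point -/

/-- a K-label of the window `c` with the cells of level `c` of the point -/
theorem klb_cell [Finite ι] {s : MSys S M E ι} {R : Rsl S} (hP : Pt s R) {c : ℝ} (h0 : 0 ≤ c) (h1 : c ≤ 1)
    {l : Lab S} (hl : KLb s R c l) : KLb s R c (l.addW (cW s c l)) := by
  constructor
  · refine Lab.DMf.addW hl.1 _ fun i => ?_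
    have h2 : PLe (fun k => fc (Setoid.ker (s.Q.cellv c k))) (cndR s R c i) := by
      rcases i with _ | i
      · have h3 := cso_cell hP c
        exact h3.nul
      · exact s.dg_cnd h0 h1 (some i)
    refine Nul.of_le (S := S) h2 (Eventually.of_forall fun k => h_nonneg _ _) (Eventually.of_forall fun k => ?_)
    refine (h_anti (le_sup_right : (l k).p.map (cndR s R c i k) ≤ _)).trans ?_
    exact ((l k).p.h_map (fc (Setoid.ker (s.Q.cellv c k))) (cndR s R c i k)).le
  · filter_upwards [hl.2, cso_cell hP c] with k h2 h3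
    refine Pool.Agent.Helper89.RAK.addW_kz (l k) _ (R k) h2 fun ω ω' a b _ z r => ?_
    exact h3 _ _ ((l k).p.supp ω a) ((l k).p.supp ω' b) (((l k).p.hZ ω ω' a b).mp z) r

/-- the digits of the prefix and of the point without the last coordinate -/
theorem oth_pfx (Q : S.VV (M + 1)) (r : ℝ) :
    (oth Q (Fin.last M)).dg r = (pfx Q (Nat.le_succ M)).dg r := by
  apply le_antisymm
  · apply VV.dg_le_dg _ _ _ _ (fun _ _ => True) Typ_true (fun _ => 1) (S.Sub_const zero_le_one)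
    refine Eventually.of_forall fun k ω ω' _ _ _ _ _ g i => ?_
    rw [one_mul]
    show |(if i = Fin.last M then 0 else Q.v k ω i) - (if i = Fin.last M then 0 else Q.v k ω' i)| ≤ S.dl r k
    by_cases h3 : i = Fin.last M
    · rw [if_pos h3, if_pos h3, sub_zero, abs_zero]
      exact (S.dl_pos r k).le
    · rw [if_neg h3, if_neg h3]
      have h4 : i.val < M := lt_of_le_of_ne (Nat.lt_succ_iff.mp i.2) fun h => h3 (Fin.ext h)
      exact g ⟨i.val, h4⟩
  · apply VV.dg_le_dg _ _ _ _ (fun _ _ => True) Typ_true (fun _ => 1) (S.Sub_const zero_le_one)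
    refine Eventually.of_forall fun k ω ω' _ _ _ _ _ g i => ?_
    rw [one_mul]
    have h3 := g (Fin.castLE (Nat.le_succ M) i)
    have h4 : Fin.castLE (Nat.le_succ M) i ≠ Fin.last M := by
      intro h
      have := congrArg Fin.val h
      have h5 : i.val = M := this
      have := i.2
      omega
    have h5 : |(if Fin.castLE (Nat.le_succ M) i = Fin.last M then 0 else Q.v k ω (Fin.castLE (Nat.le_succ M) i)) -
      (if Fin.castLE (Nat.le_succ M) i = Fin.last M then 0 else Q.v k ω' (Fin.castLE (Nat.le_succ M) i))| ≤ S.dl r k := h3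
    rw [if_neg h4, if_neg h4] at h5
    exact h5

/-! ### the step -/

/-- THE LABELS of the truncated space -/
theorem exists_lab [Finite ι] {g : ℕ} {s : MSys S (M + 1) (lin g) ι} {R : Rsl S} (hst : ∀ m, m < M + 1 → STu m)
    (hP : Pt s R) {e : ℝ} (he : 0 < e) (h1 : e ≤ 1) {b : ℝ} (h0 : 0 ≤ b) (hb : b ≤ 1) (hc : e * b < 1)
    (hn : num (S := S.chg S.tr e he) (s.trn e he h1) R (Nat.le_succ M) b = num s R (Nat.le_succ M) (e * b) / e)
    {ε : ℝ} (hε : 0 < ε) : ∃ (y : Lab (S.chg S.tr e he)) (α β : ℝ),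
      H (up1 y (chgL S.tr e he ((s.Q.co (Fin.last M)).dg (e * b)))) = 0 ∧
      α ≤ H (up1 y (chgL S.tr e he ((oth s.Q (Fin.last M)).dg 1))) ∧
      H (up1 y (chgL S.tr e he ((oth s.Q (Fin.last M)).dg e))) ≤ β ∧ M * (1 - e) / e ≤ α - β + ε := by
  have hc0 : 0 ≤ e * b := mul_nonneg he.le h0
  -- a form with nearly optimal volume
  set v := volP (S := S.chg S.tr e he) (s.trn e he h1) R b (Nat.le_succ M) with hv
  obtain ⟨D0, hD0⟩ : ∃ D, volC (KZ (S := S.chg S.tr e he) R) (cndR (S := S.chg S.tr e he) (s.trn e he h1) R b)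
      (pfx (S := S.chg S.tr e he) (s.trn e he h1).Q (Nat.le_succ M)) D < v + ε :=
    exists_lt_of_ciInf_lt (lt_add_of_pos_right _ hε)
  obtain ⟨D, hD1, hD⟩ : ∃ D, 1 ≤ D ∧ volC (KZ (S := S.chg S.tr e he) R)
      (cndR (S := S.chg S.tr e he) (s.trn e he h1) R b)
      (pfx (S := S.chg S.tr e he) (s.trn e he h1).Q (Nat.le_succ M)) D < v + ε :=
    ⟨max D0 1, le_max_right _ _, (Pool.Agent.Helper84.KR.volC_deg (le_max_left _ _)).trans_lt hD0⟩
  obtain ⟨x, hx⟩ := (gaq (pfx (S := S.chg S.tr e he) (s.trn e he h1).Q (Nat.le_succ M)) D).exists_optfK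
    (KZ (S := S.chg S.tr e he) R) (cndR (S := S.chg S.tr e he) (s.trn e he h1) R b)
  rw [volC_eq hx] at hD
  have hk : KLb (S := S.chg S.tr e he) (s.trn e he h1) R b (lb x) := ⟨Gau.Adf.dm _ hx.1.1, hx.1.2⟩
  have hk2 := klb_cell (S := S.chg S.tr e he) (pt_trn hP he h1) h0 hb hk
  set y := (lb x).addW (cW (S := S.chg S.tr e he) (s.trn e he h1) b (lb x)) with hy
  have hk3 : KLb s R (e * b) (untL y) := by
    refine ⟨?_, untL_kz.2 hk2.2⟩
    rw [cndR_fcs]
    have h4 := hk2.1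
    rw [cndR_trn] at h4
    exact Pool.Agent.Helper25.DX.dm_untL h4
  refine ⟨y, volP s R (e * b) (Nat.le_succ M) / e, v + ε, ?_, ?_, ?_, ?_⟩
  · have e1 : (s.Q.co (Fin.last M)).dg (e * b) = cl ((s.Q.co (Fin.last M)).bdd (e * b)).toInf := io_eq _
    rw [e1, chgL_cl]
    refine H_addW_zero (S := S.chg S.tr e he) (lb x) _ _ fun k ω ω' r => ?_
    have r1 : (s.trn e he h1).Q.cellv b k ((lb x k).p.π ω) = (s.trn e he h1).Q.cellv b k ((lb x k).p.π ω') := r
    have e2 : (s.trn e he h1).Q.cellv b k = s.Q.cellv (e * b) k := cellv_chg s.Q e he b k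
    rw [e2] at r1
    show (s.Q.co (Fin.last M)).cellv (e * b) k ((lb x k).p.π ω) = (s.Q.co (Fin.last M)).cellv (e * b) k ((lb x k).p.π ω')
    funext i
    exact congrFun r1 (Fin.last M)
  · rw [H_untL, oth_pfx]
    apply div_le_div_of_nonneg_right _ he.le
    exact pre_full hst hP hc0 hc hk3 (Nat.lt_succ_self M)
  · have e1 : chgL S.tr e he ((oth s.Q (Fin.last M)).dg e) =
        (pfx (S := S.chg S.tr e he) (s.trn e he h1).Q (Nat.le_succ M)).dg 1 := by
      rw [oth_pfx]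
      have h4 := VV.chg_dg S.tr e he (pfx s.Q (Nat.le_succ M)) 1
      rw [mul_one] at h4
      exact h4.symm
    rw [e1]
    refine (Pool.Agent.Helper89.RAD.H_addW_le _ _ _).trans ?_
    exact (Pool.Agent.Helper14.MC.cnt_vol _ hD1 x hx.1.1).trans hD.le
  · unfold num at hn
    have h5 : v = M - (M - volP s R (e * b) (Nat.le_succ M)) / e := by
      rw [← hn]
      ring
    rw [h5]
    apply le_of_eq
    field_simp
    ring

/-- TOP OF THE TRUNCATION, one law -/
theorem top_law [Finite ι] {g : ℕ} {s : MSys S (M + 1) (lin g) ι} {R : Rsl S} (hst : ∀ m, m < M + 1 → STu m)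
    (hP : Pt s R) {e : ℝ} (he : 0 < e) (h1 : e ≤ 1) {b1 : ℝ} (hb1 : b1 ≤ 1) {ρ ε : ℝ}
    (hn : ∀ b : ℝ, 0 ≤ b → b < b1 →
      num (S := S.chg S.tr e he) (s.trn e he h1) R (Nat.le_succ M) b = num s R (Nat.le_succ M) (e * b) / e)
    (hT : ∀ a b : ℝ, 0 ≤ a → a ≤ b → b ≤ e * b1 → h ((s.Q.co (Fin.last M)).dg b)
      ((s.Q.co (Fin.last M)).dg a ⊔ (oth s.Q (Fin.last M)).dg 1) ≤ (1 - ρ) * (b - a) + ε) (a b : ℝ) (ha : 0 ≤ a)
    (hab : a ≤ b) (hb : b ≤ b1) : h ((((s.Q.chg S.tr e he)).co (Fin.last M)).dg b)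
      (((s.Q.chg S.tr e he).co (Fin.last M)).dg a ⊔ (oth (s.Q.chg S.tr e he) (Fin.last M)).dg 1) ≤
        (1 - ρ) * (b - a) + ε / e := by
  have hco : (s.Q.chg S.tr e he).co (Fin.last M) = (s.Q.co (Fin.last M)).chg S.tr e he :=
    Pool.Agent.Helper77.TPX.VV_ext rfl
  have hoth : oth (s.Q.chg S.tr e he) (Fin.last M) = (oth s.Q (Fin.last M)).chg S.tr e he :=
    Pool.Agent.Helper77.TPX.VV_ext rfl
  rw [hco, hoth, VV.chg_dg, VV.chg_dg, VV.chg_dg, mul_one]
  set z := s.Q.co (Fin.last M) with hz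
  set O := oth s.Q (Fin.last M) with hO
  apply le_of_forall_pos_le_add
  intro δ hδ
  rcases hab.eq_or_lt with hab' | hab'
  · rw [← hab']
    have h2 : h (chgL S.tr e he (z.dg (e * a))) (chgL S.tr e he (z.dg (e * a)) ⊔ chgL S.tr e he (O.dg e)) = 0 :=
      h_zero le_sup_left
    have h3 := hT (e * a) (e * a) (mul_nonneg he.le ha) le_rfl (mul_le_mul_of_nonneg_left (hab'.le.trans hb) he.le)
    have h4 := h_nonneg (z.dg (e * a)) (z.dg (e * a) ⊔ O.dg 1)
    rw [sub_self, mul_zero, zero_add] at h3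
    have h5 : 0 ≤ ε / e := div_nonneg (h4.trans h3) he.le
    rw [h2]
    linarith
  have hρ : 0 < 1 + |ρ| := by positivity
  obtain ⟨b', hb'⟩ : ∃ b', b' = max a (b - δ / (2 * (1 + |ρ|))) := ⟨_, rfl⟩
  have hd : 0 < δ / (2 * (1 + |ρ|)) := by positivity
  have k1 : a ≤ b' := by
    rw [hb']
    exact le_max_left _ _
  have k2 : b' < b := by
    rw [hb']
    exact max_lt hab' (by linarith)
  have k3 : (1 + |ρ|) * (b - b') ≤ δ / 2 := by
    have h3 : b - δ / (2 * (1 + |ρ|)) ≤ b' := by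
      rw [hb']
      exact le_max_right _ _
    have h4 : b - b' ≤ δ / (2 * (1 + |ρ|)) := by linarith
    have h5 := mul_le_mul_of_nonneg_left h4 hρ.le
    refine h5.trans (le_of_eq ?_)
    field_simp
  have k4 : e * b' < 1 := by nlinarith
  obtain ⟨y, α, β, y1, y2, y3, y4⟩ := exists_lab hst hP he h1 (ha.trans k1) (by linarith) k4
    (hn b' (ha.trans k1) (k2.trans_le hb)) (half_pos hδ)
  have c1 : h (chgL S.tr e he (O.dg 1)) (chgL S.tr e he (O.dg e)) ≤ M * (1 - e) / e := by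
    rw [h_chg_tr]
    apply div_le_div_of_nonneg_right _ he.le
    rw [hO, oth_pfx, oth_pfx]
    exact VV.h_dg_dg _ h1
  have c2 : h (chgL S.tr e he (z.dg (e * b'))) (chgL S.tr e he (z.dg (e * a)) ⊔ chgL S.tr e he (O.dg 1)) ≤
      (1 - ρ) * (b' - a) + ε / e := by
    rw [← chgL_sup, h_chg_tr]
    have h3 := hT (e * a) (e * b') (mul_nonneg he.le ha) (mul_le_mul_of_nonneg_left k1 he.le)
      (mul_le_mul_of_nonneg_left (k2.le.trans hb) he.le)
    rw [div_le_iff₀ he]
    refine h3.trans (le_of_eq ?_)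
    field_simp
  have c3 := topx_slk (chgL S.tr e he (z.dg (e * b'))) (chgL S.tr e he (z.dg (e * a))) (chgL S.tr e he (O.dg e))
    (chgL S.tr e he (O.dg 1)) (chgL S.tr e he (z.dg (e * b'))) (chgL S.tr e he (z.dg (e * a))) y y1
    (chgL_mono _ _ _ (z.dg_mono (mul_le_mul_of_nonneg_left k1 he.le))) (chgL_mono _ _ _ (O.dg_mono h1)) c1 y2 y3
    (le_sup_left.trans le_sup_left) le_sup_left c2
  have c4 := h_triangle (chgL S.tr e he (z.dg (e * b))) (chgL S.tr e he (z.dg (e * b')))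
    (chgL S.tr e he (z.dg (e * a)) ⊔ chgL S.tr e he (O.dg e))
  have c5 : h (chgL S.tr e he (z.dg (e * b))) (chgL S.tr e he (z.dg (e * b')) ⊔
      (chgL S.tr e he (z.dg (e * a)) ⊔ chgL S.tr e he (O.dg e))) ≤ b - b' := by
    refine (h_anti le_sup_left).trans ?_
    rw [h_chg_tr, div_le_iff₀ he]
    have h3 := z.h_dg_dg (mul_le_mul_of_nonneg_left k2.le he.le)
    rw [Nat.cast_one, one_mul] at h3
    refine h3.trans (le_of_eq ?_)
    ring
  have k5 : (1 - ρ) * (b' - a) + (b - b') ≤ (1 - ρ) * (b - a) + δ / 2 := by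
    have h3 : ρ * (b - b') ≤ |ρ| * (b - b') := mul_le_mul_of_nonneg_right (le_abs_self ρ) (by linarith)
    nlinarith
  linarith

/-- **ROW `TRNX`** -/
theorem trnx (hN : NUMX M) : TRNX M := by
  intro A C v hc m g r e0 b0 S s R hBK e he h1 b1 hb0 hb1 hw
  obtain ⟨k1, k2⟩ := bk_trn hN hc.ok hBK he h1 hb1 hw
  refine ⟨k1, k2, fun ρ ε _ hT T q B hB a b ha hab hb => ?_⟩
  have h2 := bk_im hc.ok hBK (Pool.Agent.Helper42.NS.ptu q) B hB
  have k4 : ∀ b : ℝ, 0 ≤ b → b < b1 → tot (S := Sp.im (Pool.Agent.Helper42.NS.ptu q) B)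
      (s.im (Pool.Agent.Helper42.NS.ptu q) B hB) R (e * b) = tot s R (e * b) := by
    intro b h0 hb
    rw [← hN.last, ← hN.last]
    exact hBK.rig _ (Pool.Agent.Helper42.NS.ptu q) B hB (e * b) (mul_nonneg he.le h0) (hw b h0 hb).1 _ le_rfl
  obtain ⟨-, k5⟩ := bk_trn hN hc.ok h2 he h1 hb1 fun b h0 hb => ⟨(hw b h0 hb).1, by
    rw [k4 b h0 hb]
    exact (hw b h0 hb).2⟩
  exact top_law (s := s.im (Pool.Agent.Helper42.NS.ptu q) B hB) hc.st h2.cl.2.1 he h1 hb1
    (fun b h0 hb => k5 b h0 hb _ _) (hT _ (Pool.Agent.Helper42.NS.ptu q) B hB) a b ha hab hb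

end

end Pool.Agent.Helper71.VIS
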