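import Pool.Agent.Helper71.VIS.Tnm
import Pool.Agent.Helper94.SEL.St
import Pool.Agent.Helper52.MW.Ime
import Pool.Agent.Helper8.CPY.AllE
import Pool.Agent.Helper26.OUT.Wl

/-! ROW `TRNX`, part 1: truncations of rigid stable pairs are rigid and stable, their numbers. -/

set_option autoImplicit false

namespace Pool.Agent.Helper71.VIS

open Finset Filter Topology Matrix MvPolynomial Pool.Agent.Helper69.RK Pool.Agent.Helper31.EC
open Pool.Agent.Helper31.EC.Sp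
open Pool.Agent.Helper40.EL Pool.Agent.Helper89.LX Pool.Agent.Helper3.LF Pool.Agent.Helper84.MT
open Pool.Agent.Helper49.MD Pool.Agent.Helper36.AM
open Pool.Agent.Helper87.NSL (cndR KnS)
open Pool.Agent.Helper48.ROK (kns_im)
open Pool.Agent.Helper52.MW (AllE_im AllE_self)
open Pool.Agent.Helper29.MX
open Pool.Agent.Helper94.SEL

noncomputable section

variable {S T : Sp} {M N D : ℕ} {E : ℕ → ℕ} {κ ι : Type}

theorem pt_im {s : MSys S M E ι} {R : Rsl S} (h : Pt s R) (p : Pj T S) (A : ∀ k, (T.F k).Ω → Prop)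
    (hA : 0 < ul (T.pr A)) : Pt (s.im p A hA) (R : Rsl (Sp.im p A)) := kns_im h p A

theorem pt_trn {s : MSys S M E ι} {R : Rsl S} (h : Pt s R) {e : ℝ} (he : 0 < e) (h1 : e ≤ 1) :
    Pt (S := S.chg S.tr e he) (s.trn e he h1) R := by
  filter_upwards [h] with k hk ω ω' a b z r
  exact hk ω ω' a b z.2 r

/-- prefixes have smaller exponents -/
theorem num_le_tot' (hN : NUMX M) {r : ℕ} {s : MSys S (M + 1) E (Fin r)} {R : Rsl S} (hP : Pt s R) {c : ℝ}
    (h0 : 0 ≤ c) (h1 : c ≤ 1) {j : ℕ} (hj : j ≤ M + 1) : num s R hj c ≤ tot s R c := by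
  rw [← hN.last]
  have key : ∀ (i : ℕ) (hi : i ≤ M + 1), j ≤ i → num s R hj c ≤ num s R hi c := by
    intro i hi hij
    induction i, hij using Nat.le_induction with
    | base => exact le_rfl
    | succ i hij ih =>
      have h2 := hN.step S E r s R c hP h0 h1 i hi
      have h3 := ih (Nat.le_of_succ_le hi)
      linarith
  exact key _ le_rfl hj

/-- THE NUMBERS OF TRUNCATIONS of rigid systems -/
theorem num_trn (hN : NUMX M) {r : ℕ} (s : MSys S (M + 1) E (Fin r)) (R : Rsl S) (hP : Pt s R) {e : ℝ} (he : 0 < e)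
    (h1 : e ≤ 1) {b : ℝ} (h0 : 0 ≤ b) (hb : b ≤ 1) (ht : tot s R (e * b) < e)
    (hrig : AllE (fun _ t R' => ∀ (j : ℕ) (hj : j ≤ M + 1), num t R' hj (e * b) = num s R hj (e * b)) S s R) (j : ℕ)
    (hj : j ≤ M + 1) : num (S := S.chg S.tr e he) (s.trn e he h1) R hj b = num s R hj (e * b) / e := by
  have hc0 : 0 ≤ e * b := mul_nonneg he.le h0
  have hc1 : e * b ≤ 1 := by nlinarith
  have h2 : num s R hj (e * b) < e := (num_le_tot' hN hP hc0 hc1 hj).trans_lt ht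
  refine volP_trn_eq s R hP he h1 b hj h2 fun T p A hA => ?_
  have h3 : num (S := Sp.im p A) (s.im p A hA) R hj (e * b) = num s R hj (e * b) := hrig T p A hA j hj
  unfold num at h3
  linarith

/-- the numbers on events of extensions: rigidity -/
theorem rig_all {C : MCl (M + 1)} {v g r e0 : ℕ} {b0 : ℝ} {s : MSys S (M + 1) (lin g) (Fin r)} {R : Rsl S}
    (h : BK C v g r e0 b0 S s R) {c : ℝ} (h0 : 0 ≤ c) (hc : c < b0) :
    AllE (fun _ t R' => ∀ (j : ℕ) (hj : j ≤ M + 1), num t R' hj c = num s R hj c) S s R :=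
  fun T q A hA j hj => h.rig T q A hA c h0 hc j hj

/-- BK on events of extensions -/
theorem bk_im {A : MCl (M + 1)} {C : ℕ → MCl (M + 1)} (hok : Okc (M + 1) A C) {m v g r e0 : ℕ} {b0 : ℝ}
    {s : MSys S (M + 1) (lin g) (Fin r)} {R : Rsl S} (h : BK (C m) v g r e0 b0 S s R) (p : Pj T S)
    (B : ∀ k, (T.F k).Ω → Prop) (hB : 0 < ul (T.pr B)) : BK (C m) v g r e0 b0 (Sp.im p B) (s.im p B hB) R where
  cl := ⟨hok.im m _ _ _ _ h.cl.1 T p B hB, pt_im h.cl.2.1 p B hB, h.cl.2.2.1, fun i => by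
    exact Pool.Agent.Helper8.CPY.AlE.im (P := fun S s => Pool.Agent.Helper8.CPY.UdP v i S s) (h.cl.2.2.2 i) p B hB⟩
  dim := h.dim
  pol := Pool.Agent.Helper26.OUT.WDs.im (fun _ => Nat.cast_nonneg g) h.pol p B hB
  stb := AllE_im h.stb p B hB
  rig := by
    intro T' p' A' hA' c h0 hc j hj
    have h2 := AllE_im (rig_all h h0 hc) p B hB T' p' A' hA' j hj
    have h3 : num (S := Sp.im p B) (s.im p B hB) R hj c = num s R hj c := h.rig T p B hB c h0 hc j hj
    rw [h3]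
    exact h2

/-- **TRUNCATIONS OF RIGID STABLE PAIRS** -/
theorem bk_trn (hN : NUMX M) {A : MCl (M + 1)} {C : ℕ → MCl (M + 1)} (hok : Okc (M + 1) A C) {m v g r e0 : ℕ}
    {b0 : ℝ} {s : MSys S (M + 1) (lin g) (Fin r)} {R : Rsl S} (h : BK (C m) v g r e0 b0 S s R) {e : ℝ} (he : 0 < e)
    (h1 : e ≤ 1) {b1 : ℝ} (hb1 : b1 ≤ 1)
    (hw : ∀ b : ℝ, 0 ≤ b → b < b1 → e * b < b0 ∧ tot s R (e * b) < e) :
    BK (C m) v g r e0 b1 (S.chg S.tr e he) (s.trn e he h1) R ∧
      ∀ b : ℝ, 0 ≤ b → b < b1 → ∀ (j : ℕ) (hj : j ≤ M + 1),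
        num (S := S.chg S.tr e he) (s.trn e he h1) R hj b = num s R hj (e * b) / e := by
  have key : ∀ b : ℝ, 0 ≤ b → b < b1 → ∀ (j : ℕ) (hj : j ≤ M + 1),
      num (S := S.chg S.tr e he) (s.trn e he h1) R hj b = num s R hj (e * b) / e := by
    intro b h0 hb j hj
    obtain ⟨k1, k2⟩ := hw b h0 hb
    exact num_trn hN s R h.cl.2.1 he h1 h0 (hb.le.trans hb1) k2 (rig_all h (mul_nonneg he.le h0) k1) j hj
  refine ⟨⟨⟨hok.trn m _ _ _ _ h.cl.1 e he h1, pt_trn h.cl.2.1 he h1, h.cl.2.2.1, fun i =>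
    Pool.Agent.Helper8.CPY.ud_trn (h.cl.2.2.2 i) he h1⟩, h.dim, Pool.Agent.Helper26.OUT.WDs.trn (fun _ => Nat.cast_nonneg g) h.pol e he h1,
    Stb_trn_zero he h1 h.stb, ?_⟩, key⟩
  intro T q B hB c h0 hc j hj
  obtain ⟨k1, k2⟩ := hw c h0 hc
  rw [key c h0 hc j hj]
  -- the event of the truncation is the truncation of an event
  have h2 := bk_im hok h (Pool.Agent.Helper42.NS.ptu q) B hB
  have k3 : ∀ (j : ℕ) (hj : j ≤ M + 1), num (S := Sp.im (Pool.Agent.Helper42.NS.ptu q) B)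
      (s.im (Pool.Agent.Helper42.NS.ptu q) B hB) R hj (e * c) = num s R hj (e * c) := fun j hj =>
    h.rig _ (Pool.Agent.Helper42.NS.ptu q) B hB (e * c) (mul_nonneg he.le h0) k1 j hj
  have k4 : tot (S := Sp.im (Pool.Agent.Helper42.NS.ptu q) B) (s.im (Pool.Agent.Helper42.NS.ptu q) B hB) R (e * c) =
      tot s R (e * c) := by
    rw [← hN.last, ← hN.last]
    exact k3 _ le_rfl
  have h3 := num_trn hN (s.im (Pool.Agent.Helper42.NS.ptu q) B hB) R h2.cl.2.1 he h1 h0 (hc.le.trans hb1)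
    (by rw [k4]; exact k2) (rig_all h2 (mul_nonneg he.le h0) k1) j hj
  rw [k3] at h3
  exact h3

end

end Pool.Agent.Helper71.VIS
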