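import Pool.Agent.Helper71.VIS.Rdn
import Pool.Agent.Helper5.TRY.Dv

/-! TRUNCATION AND ROUNDING of exact lower numbers and of framed literal labels (for HERX). -/

set_option autoImplicit false

namespace Pool.Agent.Helper71.VIS

open Finset Filter Topology Matrix MvPolynomial Pool.Agent.Helper69.RK Pool.Agent.Helper31.EC
open Pool.Agent.Helper31.EC.Sp
open Pool.Agent.Helper40.EL Pool.Agent.Helper89.LX Pool.Agent.Helper3.LF Pool.Agent.Helper84.MT
open Pool.Agent.Helper36.AM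
open Pool.Agent.Helper89.RND (klb_rd cls_rnd)
open Pool.Agent.Helper5.TRY (frm_iff_z klb_trn_z)
open Pool.Agent.Helper29.MX

noncomputable section

variable {S : Sp} {M : ℕ} {E : ℕ → ℕ} {ι : Type}

/-- LOWER NUMBERS of the rounded truncation for a coarser resolution -/
theorem low_rdtrn [Finite ι] {s : MSys S M E ι} {R R2 : Rsl S} {w : Fin M → ℝ} {b e : ℝ} (he : 0 < e) (h1 : e ≤ 1)
    (hR : Cso S R R2) (hlow : ∀ q : ℝ, 0 ≤ q → q ≤ b →
      AllE (fun _ t R' => ∀ (j : ℕ) (hj : j ≤ M), (j : ℝ) - wsm w j * q ≤ volP t R' q hj) S s R) (c' : ℝ)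
    (h0 : 0 ≤ c') (hc : e * c' ≤ b) :
    AllE (fun _ t R' => ∀ (j : ℕ) (hj : j ≤ M), (j : ℝ) - wsm w j * c' ≤ volP t R' c' hj) (S.chg S.tr e he)
      (rd (s.trn e he h1)) R2 := by
  have h2 : AllE (fun _ t R' => ∀ (j : ℕ) (hj : j ≤ M), (j : ℝ) - wsm w j * (e * c') ≤ volP t R' (e * c') hj) S s
      R2 := by
    intro T p A hA j hj
    exact (hlow (e * c') (mul_nonneg he.le h0) hc T p A hA j hj).trans ((hR.im p A).volP (e * c') hj)
  have h3 := AllE_trn (P' := fun _ t R' => ∀ (j : ℕ) (hj : j ≤ M), (j : ℝ) - wsm w j * c' ≤ volP t R' c' hj) he h1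
    (fun S s R h => by
      intro j hj
      have h4 := volP_trn s he h1 R c' hj
      have h5 := h j hj
      have h6 : e * (j - volP (s.trn e he h1) R c' hj) ≤ e * (wsm w j * c') := by
        have e1 : e * (wsm w j * c') = wsm w j * (e * c') := by ring
        rw [e1]
        linarith
      have h7 := le_of_mul_le_mul_left h6 he
      show (j : ℝ) - wsm w j * c' ≤ volP (s.trn e he h1) R c' hj
      linarith) h2
  intro T p A hA j hj
  have h4 := h3 T p A hA j hj
  rw [rd_im, volP_rd]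
  exact h4

/-- framed literal labels of the rounded truncation -/
theorem untrn {s : MSys S M E ι} {R2 : Rsl S} {w : Fin M → ℝ} {b e : ℝ} (he : 0 < e) (h1 : e ≤ 1)
    (hw : ∀ j, 1 ≤ w j) (hb : 0 ≤ b) (hwb : ∀ j, w j * b ≤ e) {Z : Rsl S}
    (f : Frm (rd (s.trn e he h1)).Q (Lab.ofZ (S := S.chg S.tr e he) Z) fun j => w j * (b / e))
    (hK : KLb (S := S.chg S.tr e he) (rd (s.trn e he h1)) R2 (b / e) (Lab.ofZ (S := S.chg S.tr e he) Z)) :
    Nonempty (Frm s.Q (Lab.ofZ Z) fun j => w j * b) ∧ KLb s R2 b (Lab.ofZ Z) := by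
  have e1 : e * (b / e) = b := mul_div_cancel₀ _ he.ne'
  constructor
  · have h2 := (frm_iff_z (Q := s.Q) (X := Z) (h0 := he) h1 hw (div_nonneg hb he.le) (fun j => by
      rw [← mul_div_assoc, div_le_one he]
      exact hwb j)).mp ⟨frm_near (cls_rnd _).symm f⟩
    rw [e1] at h2
    exact h2
  · have h2 := (klb_trn_z (s := s) (h0 := he) (h1 := h1)).mp (klb_rd.mp hK)
    rw [e1] at h2
    exact h2

/-- literal labels of the rounded truncation, the converse -/
theorem trn_klb {s : MSys S M E ι} {R2 : Rsl S} {b e : ℝ} (he : 0 < e) (h1 : e ≤ 1) {Z : Rsl S}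
    (hK : KLb s R2 b (Lab.ofZ Z)) :
    KLb (S := S.chg S.tr e he) (rd (s.trn e he h1)) R2 (b / e) (Lab.ofZ (S := S.chg S.tr e he) Z) := by
  have e1 : e * (b / e) = b := mul_div_cancel₀ _ he.ne'
  refine klb_rd.mpr ((klb_trn_z (s := s) (h0 := he) (h1 := h1)).mpr ?_)
  rw [e1]
  exact hK

end

end Pool.Agent.Helper71.VIS
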