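import Pool.Agent.Helper71.VIS.Num

/-! (V1) with thresholds: the speed of the total exponent of the coarser resolution is needed only at the windows at which
the successive exponents are less than the weights times `L`. -/

set_option autoImplicit false

namespace Pool.Agent.Helper71.VIS

open Set Filter Topology MeasureTheory

/-- a uniform step -/
theorem exists_step2 {N : ℕ} {a t : ℕ → ℝ} {c0 : ℝ} (ht : ∀ j, j < N → 0 < t j)
    (h : ∀ j, j < N → (a (j + 1) - a j) * c0 < t j) :
    ∃ δ : ℝ, 0 < δ ∧ ∀ j, j < N → max 0 ((a (j + 1) - a j) * c0) + |a (j + 1)| * δ < t j := by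
  have h1 : ∀ n, n ≤ N → ∃ δ : ℝ, 0 < δ ∧ ∀ j, j < n → max 0 ((a (j + 1) - a j) * c0) + |a (j + 1)| * δ < t j := by
    intro n
    induction n with
    | zero => exact fun _ => ⟨1, one_pos, fun j hj => absurd hj (Nat.not_lt_zero j)⟩
    | succ n ih =>
      intro hn
      obtain ⟨δ, hδ, h2⟩ := ih (by omega)
      set x := t n - max 0 ((a (n + 1) - a n) * c0) with hx
      have hx0 : 0 < x := by
        have := h n (by omega)
        have h3 : max 0 ((a (n + 1) - a n) * c0) < t n := max_lt (ht n (by omega)) this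
        linarith
      set y := |a (n + 1)| + 1 with hy
      have hy0 : 0 < y := by positivity
      refine ⟨min δ (x / (2 * y)), lt_min hδ (by positivity), fun j hj => ?_⟩
      rcases Nat.lt_succ_iff_lt_or_eq.mp hj with hj | rfl
      · have h3 := h2 j hj
        have h4 : |a (j + 1)| * min δ (x / (2 * y)) ≤ |a (j + 1)| * δ :=
          mul_le_mul_of_nonneg_left (min_le_left _ _) (abs_nonneg _)
        linarith
      · have h4 : |a (j + 1)| * min δ (x / (2 * y)) ≤ y * (x / (2 * y)) := by
          apply mul_le_mul (by rw [hy]; linarith) (min_le_right _ _) (lt_min hδ (by positivity)).le hy0.le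
        have h5 : y * (x / (2 * y)) = x / 2 := by field_simp
        rw [h5] at h4
        have h6 : x / 2 < x := by linarith
        have h7 : max 0 ((a (j + 1) - a j) * c0) = t j - x := by rw [hx]; ring
        rw [h7]
        linarith
  exact h1 N le_rfl

/-- **(V1)** with thresholds -/
theorem ind_eq2 {N : ℕ} {A : ℕ → ℝ → ℝ} {a t : ℕ → ℝ} {L : ℝ}
    (hm : ∀ j, j ≤ N → ∀ b c, 0 ≤ b → b ≤ c → c < L → A j b ≤ A j c) (h0 : A N 0 = 0)
    (hle : ∀ j, j ≤ N → ∀ c, 0 ≤ c → c < L → A j c ≤ a j * c) (ht : ∀ j, j < N → 0 < t j)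
    (hL : ∀ j, j < N → (a (j + 1) - a j) * L ≤ t j)
    (hsw : ∀ c, 0 ≤ c → c < L → A N c = a N * c → ∀ j, j ≤ N → A j c = a j * c)
    (hd : ∀ᵐ c : ℝ, 0 < c → c < L → (∀ j, j < N → A (j + 1) c - A j c < t j) → ∀ w, HasDerivAt (A N) w c → a N ≤ w)
    (c : ℝ) (hc : 0 ≤ c) (hcL : c < L) : A N c = a N * c := by
  rcases hc.eq_or_lt with rfl | hc0
  · rw [h0, mul_zero]
  have hlt : ∀ x, 0 ≤ x → x ≤ c → ∀ j, j < N → (a (j + 1) - a j) * x ≤ max 0 ((a (j + 1) - a j) * c) := by
    intro x hx hxc j _
    rcases le_total 0 (a (j + 1) - a j) with h | h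
    · exact (mul_le_mul_of_nonneg_left hxc h).trans (le_max_right _ _)
    · exact (mul_nonpos_of_nonpos_of_nonneg h hx).trans (le_max_left _ _)
  have h1 : ∀ j, j < N → (a (j + 1) - a j) * c < t j := by
    intro j hj
    rcases le_or_gt (a (j + 1) - a j) 0 with h | h
    · have := mul_nonpos_of_nonpos_of_nonneg h hc
      have := ht j hj
      linarith
    · exact (mul_lt_mul_of_pos_left hcL h).trans_le (hL j hj)
  obtain ⟨δ, hδ, h2⟩ := exists_step2 ht h1
  have key : ∀ n : ℕ, ∀ x, 0 ≤ x → x ≤ c → x ≤ n * δ → A N x = a N * x := by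
    intro n
    induction n with
    | zero =>
      intro x hx _ hx2
      rw [Nat.cast_zero, zero_mul] at hx2
      have : x = 0 := le_antisymm hx2 hx
      rw [this, h0, mul_zero]
    | succ n ih =>
      intro x hx hxc hx2
      refine le_antisymm (hle N le_rfl x hx (hxc.trans_lt hcL)) ?_
      set c1 := min (n * δ) c with hc1
      have hc1n : 0 ≤ c1 := le_min (by positivity) hc
      have hc1c : c1 ≤ c := min_le_right _ _
      have h3 : A N c1 = a N * c1 := ih c1 hc1n hc1c (min_le_left _ _)
      have h4 := hsw c1 hc1n (hc1c.trans_lt hcL) h3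
      have h5 : ∀ y, 0 < y → y < x → ∀ j, j < N → A (j + 1) y - A j y < t j := by
        intro y hy hyx j hj
        have hyc : y ≤ c := hyx.le.trans hxc
        rcases le_total y c1 with h | h
        · have h6 : A N y = a N * y := ih y hy.le hyc (h.trans (min_le_left _ _))
          have h7 := hsw y hy.le (hyc.trans_lt hcL) h6
          rw [h7 j hj.le, h7 (j + 1) hj]
          have h8 := hlt y hy.le hyc j hj
          have h9 := h2 j hj
          have h10 : 0 ≤ |a (j + 1)| * δ := by positivity
          nlinarith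
        · have h6 : A (j + 1) y ≤ a (j + 1) * y := hle (j + 1) hj y hy.le (hyc.trans_lt hcL)
          have h7 : a j * c1 ≤ A j y := by
            rw [← h4 j hj.le]
            exact hm j hj.le c1 y hc1n h (hyc.trans_lt hcL)
          have h8 := hlt c1 hc1n hc1c j hj
          have h9 := h2 j hj
          have h10 : y - c1 ≤ δ := by
            rcases le_total (n * δ) c with h' | h'
            · have e1 : c1 = n * δ := min_eq_left h'
              rw [e1]
              push_cast at hx2
              linarith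
            · have e1 : c1 = c := min_eq_right h'
              rw [e1]
              linarith
          have h11 : a (j + 1) * (y - c1) ≤ |a (j + 1)| * δ := by
            calc a (j + 1) * (y - c1) ≤ |a (j + 1)| * (y - c1) :=
                  mul_le_mul_of_nonneg_right (le_abs_self _) (by linarith)
              _ ≤ |a (j + 1)| * δ := mul_le_mul_of_nonneg_left h10 (abs_nonneg _)
          have h12 : a (j + 1) * y = a (j + 1) * c1 + a (j + 1) * (y - c1) := by ring
          have h13 : (a (j + 1) - a j) * c1 = a (j + 1) * c1 - a j * c1 := by ring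
          linarith
      have h6 := mono_ge (u := A N) (a := 0) (b := x) (W := a N) hx
        (fun y hy z hz hyz => hm N le_rfl y z hy.1 hyz ((hz.2.trans hxc).trans_lt hcL)) (by
          filter_upwards [hd] with y hy hy' w hw
          exact hy hy'.1 ((hy'.2.le.trans hxc).trans_lt hcL) (h5 y hy'.1 hy'.2) w hw)
      rw [h0] at h6
      linarith
  obtain ⟨n, hn⟩ := exists_nat_gt (c / δ)
  rw [div_lt_iff₀ hδ] at hn
  exact key n c hc le_rfl hn.le

open Finset Matrix Pool.Agent.Helper69.RK Pool.Agent.Helper31.EC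
open Pool.Agent.Helper31.EC.Sp
open Pool.Agent.Helper40.EL Pool.Agent.Helper89.LX Pool.Agent.Helper3.LF Pool.Agent.Helper84.MT
open Pool.Agent.Helper36.AM (Frm STu)
open Pool.Agent.Helper48.ROK (NumS)
open Pool.Agent.Helper29.MX

noncomputable section

variable {S : Sp} {M : ℕ} {ι : Type}

/-- **(V1)** for a coarser resolution, with thresholds -/
theorem v1t [Finite ι] {g : ℕ} {s : MSys S M (lin g) ι} {R R' : Rsl S} (hst : ∀ m, m < M → STu m)
    (h : Cso S R R') (hP : Pt s R') {w : Fin M → ℝ} (hw0 : ∀ i, 0 < w i) {L : ℝ} (hL0 : 0 < L) (hL1 : L ≤ 1)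
    (hN : ∀ c, 0 ≤ c → c < L → NumS c w s R)
    (hd : ∀ᵐ c : ℝ, 0 < c → c < L → (∀ (j : ℕ) (hj : j < M), Ap s R' (j + 1) c - Ap s R' j c < w ⟨j, hj⟩ * L) →
      ∀ d, HasDerivAt (fun c => (M : ℝ) - volKO s R' c) d c → ∑ i, w i ≤ d)
    (c : ℝ) (hc : 0 ≤ c) (hcL : c < L) : NumS c w s R' := by
  have e0 : Ap s R' M = fun c => (M : ℝ) - volKO s R' c := funext fun c => Ap_top s R' c
  have hle : ∀ j, j ≤ M → ∀ c, 0 ≤ c → c < L → Ap s R' j c ≤ aS w j * c := by
    intro j hj c hc hcL
    rw [← numS_iff.1 (hN c hc hcL) j hj, Ap_of s R' hj, Ap_of s R hj]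
    exact sub_le_sub_left (h.volP c hj) _
  have hsw : ∀ c, 0 ≤ c → c < L → Ap s R' M c = aS w M * c → ∀ j, j ≤ M → Ap s R' j c = aS w j * c := by
    intro c hc hcL h1 j hj
    have h2 := numS_iff.1 (hN c hc hcL) M le_rfl
    rw [Ap_top] at h1 h2
    have h3 : volKO s R' c ≤ volKO s R c := by linarith
    have h4 := swp_cso hst h hP hc (hcL.trans_le hL1) h3 hj
    rw [← numS_iff.1 (hN c hc hcL) j hj, Ap_of s R' hj, Ap_of s R hj, h4]
  have h1 := ind_eq2 (N := M) (A := fun j => Ap s R' j) (a := aS w) (t := fun j => (aS w (j + 1) - aS w j) * L)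
    (L := L)
    (fun j hj b c hb hbc _ => by
      show Ap s R' j b ≤ Ap s R' j c
      rw [Ap_of s R' hj, Ap_of s R' hj]
      exact sub_le_sub_left (volP_mono s R' hbc hj) _)
    (by
      have h2 := hle M le_rfl 0 le_rfl hL0
      rw [mul_zero] at h2
      have h3 := volKO_le_M s R' 0
      show Ap s R' M 0 = 0
      rw [Ap_top] at h2 ⊢
      linarith) hle
    (fun j hj => by
      have h2 := hw0 ⟨j, hj⟩
      rw [← aS_succ w ⟨j, hj⟩] at h2
      exact mul_pos h2 hL0) (fun j _ => le_rfl) hsw
    (by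
      filter_upwards [hd] with x hx h2 h3 h4 d hd'
      rw [aS_top]
      refine hx h2 h3 (fun j hj => ?_) d ?_
      · have h5 := h4 j hj
        rw [← aS_succ w ⟨j, hj⟩]
        exact h5
      · rw [← e0]
        exact hd') c hc hcL
  exact numS_iff.2 (hsw c hc hcL h1)

end

end Pool.Agent.Helper71.VIS
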