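import Pool.Agent.Helper71.VIS.Kfr
import Pool.Agent.Helper71.VIS.Ttn

/-! TOP OF TRUNCATIONS UP TO THE DEPTH OF A FRAME: over a framed K-label of the window `e * c` the digits of the last
coordinate up to the exponent of the frame are known to the digits of the other coordinates, and the other coordinates are
full; so TOP of the system gives TOP of the truncation up to the depth `w_last * c`, with its own digits of the other
coordinates. -/

set_option autoImplicit false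

namespace Pool.Agent.Helper71.VIS

open Finset Filter Topology Matrix MvPolynomial Pool.Agent.Helper69.RK Pool.Agent.Helper31.EC
open Pool.Agent.Helper31.EC.Sp
open Pool.Agent.Helper40.EL Pool.Agent.Helper89.LX Pool.Agent.Helper3.LF Pool.Agent.Helper84.MT
open Pool.Agent.Helper49.MD Pool.Agent.Helper36.AM
open Pool.Agent.Helper52.SL (tnF tnL)
open Pool.Agent.Helper77.TPX (oth topx_slk)
open Pool.Agent.Helper48.ROK (NumS frt frames_num sum_pre)
open Pool.Agent.Helper29.MX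
open Pool.Agent.Helper94.SEL

noncomputable section

variable {S T : Sp} {M N D : ℕ} {E : ℕ → ℕ} {κ ι : Type}

/-- entropies over truncated labels -/
theorem H_tnL {e : ℝ} {he : 0 < e} (l : Lab S) (X : S.L) :
    H (up1 (tnL e he l) (chgL S.tr e he X)) = H (up1 l X) / e := by
  induction X using cl_ind with | _ A
  have e1 : up1 (tnL e he l) (chgL S.tr e he (cl A)) = cl ((tnL e he l).upI 1 one_pos (chgI S.tr e he A)) := rfl
  have e2 : up1 l (cl A) = cl (l.upI 1 one_pos A) := rfl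
  rw [e1, e2, H_cl, H_cl]
  have key : ((tnL e he l).ovr 1 one_pos).rt ((tnL e he l).upI 1 one_pos (chgI S.tr e he A)).1
      ((tnL e he l).ovr 1 one_pos).tr = fun k => e⁻¹ * (l.ovr 1 one_pos).rt (l.upI 1 one_pos A).1
        (l.ovr 1 one_pos).tr k := by
    funext k
    obtain ⟨a, ha⟩ : ∃ a, a = ((l.ovr 1 one_pos).F k).e ((l.upI 1 one_pos A).1 k)
      ((l.ovr 1 one_pos).tr k ⊓ ((l.ovr 1 one_pos).F k).Z) := ⟨_, rfl⟩
    have h1 : ((tnL e he l).ovr 1 one_pos).rt ((tnL e he l).upI 1 one_pos (chgI S.tr e he A)).1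
        ((tnL e he l).ovr 1 one_pos).tr k = a / (((tnL e he l).ovr 1 one_pos).F k).n := by
      rw [ha]
      rfl
    have h2 : (l.ovr 1 one_pos).rt (l.upI 1 one_pos A).1 (l.ovr 1 one_pos).tr k =
        a / ((l.ovr 1 one_pos).F k).n := by
      rw [ha]
      rfl
    rw [h1, h2, Lab.n_over, Lab.n_over]
    have h3 : ((S.chg S.tr e he).F k).n = e * (S.F k).n := rfl
    rw [h3]
    have := (S.F k).pos.ne'
    field_simp
  rw [key, ul_const_mul]
  · ring
  · exact UB_rt _ _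

/-- THE ABSTRACT STEP: the digits `zb` are known to the label and to `Pt` -/
theorem topx_slk2 (zb za Pt P1 ζb ζa : S.L) (y : Lab S) {α β γ τ : ℝ} (hz : up1 y zb ≤ up1 y Pt) (ha : za ≤ zb)
    (h8 : Pt ≤ P1) (hn : h P1 Pt ≤ γ) (h2 : α ≤ H (up1 y P1)) (h3 : H (up1 y Pt) ≤ β)
    (h5 : zb ≤ ζb ⊔ za ⊔ P1) (h6 : ζa ≤ za ⊔ P1) (h7 : h ζb (ζa ⊔ P1) ≤ τ) :
    h zb (za ⊔ Pt) ≤ τ + (γ - (α - β)) := by
  have k1 : α - β ≤ h P1 (zb ⊔ Pt) := by
    refine le_trans ?_ (h_up1_le y P1 (zb ⊔ Pt))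
    rw [up1_sup, sup_eq_right.mpr hz]
    unfold h
    rw [sup_eq_left.mpr (up1_mono y h8)]
    linarith
  have e1 : P1 ⊔ (za ⊔ Pt) = za ⊔ P1 := by
    rw [sup_left_comm, sup_eq_left.mpr h8]
  have e2 : zb ⊔ (za ⊔ Pt) = zb ⊔ Pt := by
    rw [← sup_assoc, sup_eq_left.mpr ha]
  have k2 : h zb (za ⊔ Pt) ≤ h zb (za ⊔ P1) + (γ - (α - β)) := by
    have i1 := I_eq zb P1 (za ⊔ Pt)
    have i2 := I_eq' zb P1 (za ⊔ Pt)
    rw [e1] at i1
    rw [e2] at i2
    have i3 := h_anti (A := P1) (le_sup_right : Pt ≤ za ⊔ Pt)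
    linarith
  have k3 : h zb (za ⊔ P1) ≤ h ζb (za ⊔ P1) := by
    have i1 := h_triangle zb ζb (za ⊔ P1)
    have i2 : h zb (ζb ⊔ (za ⊔ P1)) = 0 := by
      apply h_zero
      rw [← sup_assoc]
      exact h5
    linarith
  have k4 : h ζb (za ⊔ P1) ≤ h ζb (ζa ⊔ P1) := h_anti (sup_le h6 le_sup_right)
  linarith

/-- **TOP OF THE TRUNCATION up to the depth of a frame**, one law -/
theorem top_law2 [Finite ι] {g : ℕ} {s : MSys S (M + 1) (lin g) ι} {R : Rsl S} (hst : ∀ m, m < M + 1 → STu m)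
    (hP : Pt s R) {e : ℝ} (he : 0 < e) (h1 : e ≤ 1) {w : Fin (M + 1) → ℝ} (hw : ∀ i, 1 ≤ w i) {c : ℝ} (hc : 0 < c)
    (hwc : ∀ i, w i * c < 1) {l : Lab S} (hl : KLb s R (e * c) l) (f : Frm s.Q l (fun j => w j * (e * c)))
    (hv : (M : ℝ) - wsm w M * (e * c) ≤ volP s R (e * c) (Nat.le_succ M)) {ρ ε : ℝ}
    (hT : ∀ a b : ℝ, 0 ≤ a → a ≤ b → b ≤ e * (w (Fin.last M) * c) → h ((s.Q.co (Fin.last M)).dg b)
      ((s.Q.co (Fin.last M)).dg a ⊔ (oth s.Q (Fin.last M)).dg 1) ≤ (1 - ρ) * (b - a) + ε) (a b : ℝ) (ha : 0 ≤ a)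
    (hab : a ≤ b) (hb : b ≤ w (Fin.last M) * c) : h ((((s.Q.chg S.tr e he)).co (Fin.last M)).dg b)
      (((s.Q.chg S.tr e he).co (Fin.last M)).dg a ⊔ (oth (s.Q.chg S.tr e he) (Fin.last M)).dg 1) ≤
        (1 - ρ) * (b - a) + ε / e := by
  have hco : (s.Q.chg S.tr e he).co (Fin.last M) = (s.Q.co (Fin.last M)).chg S.tr e he :=
    Pool.Agent.Helper77.TPX.VV_ext rfl
  have hoth : oth (s.Q.chg S.tr e he) (Fin.last M) = (oth s.Q (Fin.last M)).chg S.tr e he :=
    Pool.Agent.Helper77.TPX.VV_ext rfl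
  have hw0 : ∀ i, 0 ≤ w i := fun i => zero_le_one.trans (hw i)
  have hb1 : b ≤ 1 := hb.trans (hwc _).le
  -- the frame of the truncated point
  obtain ⟨d, hd⟩ : ∃ d : ℕ, d = ⌈∑ i, w i⌉₊ := ⟨_, rfl⟩
  have hdg : ∀ k ω j, (f.P k ω j).totalDegree ≤ d := by
    intro k ω j
    rw [hd]
    exact f.deg (mul_pos he hc) hw (fun i => Finset.single_le_sum (f := w) (fun i _ => hw0 i)
      (Finset.mem_univ i)) k ω j
  have hf0 : ∀ i, 0 ≤ w i * c := fun i => mul_nonneg (hw0 i) hc.le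
  have y1 := frm_co (S := S.chg S.tr e he) (frt (La := fun j => w j * c) he h1 (fun j => by ring) f) hf0 hdg
    (Nat.lt_succ_self M) hb hb1
  have y3 := frm_H (S := S.chg S.tr e he) (frt (La := fun j => w j * c) he h1 (fun j => by ring) f) hf0
    (fun i => (hwc i).le) hdg M (Nat.le_succ M)
  rw [sum_pre w c (Nat.le_succ M)] at y3
  have y2 : volP s R (e * c) (Nat.le_succ M) / e ≤
      H (up1 (tnL e he l) (chgL S.tr e he ((oth s.Q (Fin.last M)).dg 1))) := by
    rw [H_tnL, oth_pfx]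
    apply div_le_div_of_nonneg_right _ he.le
    exact pre_full hst hP (mul_nonneg he.le hc.le) (by
      have := hwc 0
      have := hw 0
      nlinarith) hl (Nat.lt_succ_self M)
  rw [hco, hoth, VV.chg_dg, VV.chg_dg, VV.chg_dg, mul_one]
  have ez : ((s.Q.chg S.tr e he).co ⟨M, Nat.lt_succ_self M⟩).dg b = chgL S.tr e he ((s.Q.co (Fin.last M)).dg (e * b)) := by
    rw [← VV.chg_dg, ← hco]
    rfl
  have eP : ∀ r, (pfx (s.Q.chg S.tr e he) (Nat.le_succ M)).dg r =
      chgL S.tr e he ((oth s.Q (Fin.last M)).dg (e * r)) := by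
    intro r
    rw [oth_pfx]
    exact VV.chg_dg S.tr e he (pfx s.Q (Nat.le_succ M)) r
  have y1' : up1 (tnL e he l) (chgL S.tr e he ((s.Q.co (Fin.last M)).dg (e * b))) ≤
      up1 (tnL e he l) (chgL S.tr e he ((oth s.Q (Fin.last M)).dg e)) := by
    rw [← ez]
    refine y1.trans ?_
    have h3 := eP b
    rw [h3]
    exact up1_mono _ (chgL_mono _ _ _ ((oth s.Q (Fin.last M)).dg_mono (by nlinarith)))
  have y3' : H (up1 (tnL e he l) (chgL S.tr e he ((oth s.Q (Fin.last M)).dg e))) ≤ M - wsm w M * c := by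
    have h3 := eP 1
    rw [mul_one] at h3
    rw [← h3]
    exact y3
  set z := s.Q.co (Fin.last M) with hz
  set O := oth s.Q (Fin.last M) with hO
  have c1 : h (chgL S.tr e he (O.dg 1)) (chgL S.tr e he (O.dg e)) ≤ M * (1 - e) / e := by
    rw [h_chg_tr]
    apply div_le_div_of_nonneg_right _ he.le
    rw [hO, oth_pfx, oth_pfx]
    exact VV.h_dg_dg _ h1
  have c2 : h (chgL S.tr e he (z.dg (e * b))) (chgL S.tr e he (z.dg (e * a)) ⊔ chgL S.tr e he (O.dg 1)) ≤
      (1 - ρ) * (b - a) + ε / e := by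
    rw [← chgL_sup, h_chg_tr]
    have h3 := hT (e * a) (e * b) (mul_nonneg he.le ha) (mul_le_mul_of_nonneg_left hab he.le)
      (mul_le_mul_of_nonneg_left hb he.le)
    rw [div_le_iff₀ he]
    refine h3.trans (le_of_eq ?_)
    field_simp
  have c3 := topx_slk2 (chgL S.tr e he (z.dg (e * b))) (chgL S.tr e he (z.dg (e * a))) (chgL S.tr e he (O.dg e))
    (chgL S.tr e he (O.dg 1)) (chgL S.tr e he (z.dg (e * b))) (chgL S.tr e he (z.dg (e * a))) (tnL e he l) y1'
    (chgL_mono _ _ _ (z.dg_mono (mul_le_mul_of_nonneg_left hab he.le))) (chgL_mono _ _ _ (O.dg_mono h1)) c1 y2 y3'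
    (le_sup_left.trans le_sup_left) le_sup_left c2
  have c4 : M * (1 - e) / e - (volP s R (e * c) (Nat.le_succ M) / e - (M - wsm w M * c)) ≤ 0 := by
    have h3 : (M - wsm w M * (e * c)) / e ≤ volP s R (e * c) (Nat.le_succ M) / e :=
      div_le_div_of_nonneg_right hv he.le
    have h4 : (M - wsm w M * (e * c)) / e = M / e - wsm w M * c := by field_simp
    have h5 : (M : ℝ) * (1 - e) / e = M / e - M := by field_simp
    linarith
  linarith

end

end Pool.Agent.Helper71.VIS
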