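import Pool.Agent.Helper71.VIS.Rdn
import Pool.Agent.Helper71.VIS.Ttd
import Pool.Agent.Helper71.VIS.Ind2
import Pool.Agent.Helper48.ROK.Numl
import Pool.Agent.Helper84.SEL.Numx

/-! (V1) FOR THE MEMBERS OF `LL`: the present cells of the truncations of a member have the numbers of the member, if the
numbers of the present cells are rigid. -/

set_option autoImplicit false

namespace Pool.Agent.Helper71.VIS

open Finset Filter Topology Matrix MvPolynomial Pool.Agent.Helper69.RK Pool.Agent.Helper31.EC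
open Pool.Agent.Helper31.EC.Sp
open Pool.Agent.Helper40.EL Pool.Agent.Helper89.LX Pool.Agent.Helper3.LF Pool.Agent.Helper84.MT
open Pool.Agent.Helper49.MD Pool.Agent.Helper36.AM
open Pool.Agent.Helper89.RAK (rnd)
open Pool.Agent.Helper89.RND (vis_rd klb_rd cls_rnd volKO_rd)
open Pool.Agent.Helper77.TPX (oth)
open Pool.Agent.Helper48.ROK (NumS frames_num wof_ge wsm_wof ll_num ll_numS)
open Pool.Agent.Helper52.MW (AllE_im AllE_self)
open Pool.Agent.Helper29.MX
open Pool.Agent.Helper94.SEL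

noncomputable section

variable {S T : Sp} {M : ℕ}

theorem Par.l_le_d (P : Par) : P.l ≤ P.d := by
  have h1 := P.La1
  have h2 := P.l0
  unfold Par.d
  nlinarith

theorem Par.d_pos (P : Par) : 0 < P.d := P.l0.trans_le (Par.l_le_d P)

theorem Par.d_le_one (P : Par) : P.d ≤ 1 := by
  have h1 := P.La1
  have h3 := P.lLa
  have h4 : 0 ≤ P.d := (Par.d_pos P).le
  unfold Par.d at h4 ⊢
  nlinarith

/-- TOP of the truncation up to the exponent of the last coordinate, one law -/
theorem top_one {ι : Type} [Finite ι] {g : ℕ} {s : MSys S (M + 1) (lin g) ι} {R : Rsl S}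
    (hst : ∀ m, m < M + 1 → STu m) (hP : Pt s R) {w : Fin (M + 1) → ℝ} (hw : ∀ i, 1 ≤ w i) {l0 : ℝ}
    (hn : ∀ c : ℝ, 0 ≤ c → c < l0 → NumS c w s R)
    (hnX : ∀ c : ℝ, 0 ≤ c → c < l0 → AllE (fun _ t R' => NumS c w t R') S s R) {e : ℝ} (he : 0 < e) (h1 : e ≤ 1)
    (hel : e ≤ l0) {c : ℝ} (hc : 0 < c) (hwc : ∀ i, w i * c < 1) {ρ : ℝ}
    (hT : ∀ x y : ℝ, 0 ≤ x → x ≤ y → y ≤ e → h ((s.Q.co (Fin.last M)).dg y)
      ((s.Q.co (Fin.last M)).dg x ⊔ (oth s.Q (Fin.last M)).dg 1) ≤ (1 - ρ) * (y - x) + 0) (x y : ℝ) (hx : 0 ≤ x)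
    (hxy : x ≤ y) (hy : y ≤ w (Fin.last M) * c) : h ((((s.Q.chg S.tr e he)).co (Fin.last M)).dg y)
      (((s.Q.chg S.tr e he).co (Fin.last M)).dg x ⊔ (oth (s.Q.chg S.tr e he) (Fin.last M)).dg 1) ≤
        (1 - ρ) * (y - x) + 0 := by
  have hc1 : c < 1 := by
    have h2 := hwc 0
    have h3 := hw 0
    nlinarith
  have hec : e * c < e := by nlinarith
  have hwe : ∀ i, w i * (e * c) < 1 := fun i => by
    have h4 : w i * (e * c) = e * (w i * c) := by ring
    rw [h4]
    have h5 : 0 ≤ w i * c := mul_nonneg (zero_le_one.trans (hw i)) hc.le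
    nlinarith [hwc i]
  obtain ⟨Z, f, -, z2, -⟩ := frames_num hst hP hw (mul_pos he hc) hwe (hec.trans_le h1)
    (fun c' a b => hn c' a.le (b.trans_lt (hec.trans_le hel)))
    (fun c' a b => hnX c' a.le (b.trans_lt (hec.trans_le hel)))
  have h2 := top_law2 hst hP he h1 hw hc hwc z2 f (ρ := ρ) (ε := 0)
    (hn (e * c) (mul_pos he hc).le (hec.trans_le hel) M (Nat.le_succ M)).ge
    (fun x y hx hxy hy => hT x y hx hxy (hy.trans (by
      have h3 := hwc (Fin.last M)
      nlinarith))) x y hx hxy hy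
  rw [zero_div] at h2
  exact h2

/-- the numbers of the truncation give TOP up to the exponent of the last coordinate -/
theorem top_ll (hst : ∀ m, m < M + 1 → STu m) {C : MCl (M + 1)} {v g r e0 : ℕ} {P : Par} {W : ℝ} {a : ℕ → ℝ}
    (hS : Spd M a W) {s : MSys S (M + 1) (lin g) (Fin r)} {R : Rsl S} (hLL : LL C v g r e0 P a S s R) {e : ℝ}
    (he : 0 < e) (h1 : e ≤ 1) (hel : e ≤ P.l) {c : ℝ} (hc : 0 < c) (hwc : ∀ i, wof M a i * c < 1) :
    Top P.ρ (wof M a (Fin.last M) * c) 0 (s.trn e he h1).Q := by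
  intro T q B hB x y hx hxy hy
  have hP' : Pt (S := Sp.im (Pool.Agent.Helper42.NS.ptu q) B) (s.im (Pool.Agent.Helper42.NS.ptu q) B hB) R :=
    pt_im hLL.ke.bk.cl.2.1 (Pool.Agent.Helper42.NS.ptu q) B hB
  have hall : ∀ c' : ℝ, 0 ≤ c' → c' < P.l → AllE (fun _ t R' => NumS c' (wof M a) t R') S s R := fun c' h0 h2 T q B hB =>
    ll_numS hS hLL q B hB h0 h2
  exact top_one (s := s.im (Pool.Agent.Helper42.NS.ptu q) B hB) hst hP' (wof_ge hS)
    (fun c' h0 h2 => ll_numS hS hLL (Pool.Agent.Helper42.NS.ptu q) B hB h0 h2)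
    (fun c' h0 h2 => AllE_im (hall c' h0 h2) (Pool.Agent.Helper42.NS.ptu q) B hB) he h1 hel hc hwc
    (fun x y hx hxy hy => hLL.ke.top _ (Pool.Agent.Helper42.NS.ptu q) B hB x y hx hxy
      (hy.trans (hel.trans (Par.l_le_d P)))) x y hx hxy hy

/-- **(V1) FOR THE MEMBERS OF `LL`** with rigid numbers of the present cells -/
theorem v1_row (hTZ : TOPZ M) {A : MCl (M + 1)} {C : ℕ → MCl (M + 1)} {v : ℕ} (hc : Ctx M A C v) {m g r e0 : ℕ}
    {P : Par} {W : ℝ} {a : ℕ → ℝ} (hW : W ≤ P.La) (hS : Spd M a W) (hMn : MnC (C m) v r e0 P W)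
    {s : MSys S (M + 1) (lin g) (Fin r)} {R : Rsl S} (hLL : LL (C m) v g r e0 P a S s R) {e : ℝ} (he : 0 < e)
    (h1 : e ≤ 1) (hel : e ≤ P.l)
    (hrig : ∀ (T : Sp) (q : Pj T S) (B : ∀ k, (T.F k).Ω → Prop) (hB : 0 < ul (T.pr B)) (c : ℝ) (j : ℕ)
      (hj : j ≤ M + 1), 0 ≤ c → c ≤ 1 → num (rd ((s.im q B hB).trn e he h1)) (vis (rd ((s.im q B hB).trn e he h1)).Q) hj c =
        num (rd (s.trn e he h1)) (vis (rd (s.trn e he h1)).Q) hj c) :
    AllE (fun _ t R' => Num (wof M a) t R') (S.chg S.tr e he) (s.trn e he h1) (vis (s.trn e he h1).Q) := by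
  have hst := hc.st
  have hN : NUMX M := Pool.Agent.Helper84.SEL.numx M
  obtain ⟨w, hw⟩ : ∃ w, w = wof M a := ⟨_, rfl⟩
  have hw1 : ∀ i, 1 ≤ w i := by
    rw [hw]
    exact wof_ge hS
  have hw0 : ∀ i, 0 < w i := fun i => zero_lt_one.trans_le (hw1 i)
  obtain ⟨i0, hi0⟩ := Finite.exists_max w
  obtain ⟨L, hL⟩ : ∃ L, L = (w i0)⁻¹ := ⟨_, rfl⟩
  have hL0 : 0 < L := by
    rw [hL]
    exact inv_pos.2 (hw0 _)
  have hL1 : L ≤ 1 := by
    rw [hL]
    exact inv_le_one_of_one_le₀ (hw1 _)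
  have hwL : ∀ c, 0 ≤ c → c < L → ∀ i, w i * c < 1 := by
    intro c h0 h2 i
    have h3 : w i * c ≤ w i0 * c := mul_le_mul_of_nonneg_right (hi0 i) h0
    have h4 : w i0 * c < w i0 * L := mul_lt_mul_of_pos_left h2 (hw0 _)
    rw [hL, mul_inv_cancel₀ (hw0 _).ne'] at h4
    exact h3.trans_lt h4
  have hLw : ∀ c, (∀ i, w i * c < 1) → c < L := by
    intro c h2
    rw [hL, ← one_div, lt_div_iff₀ (hw0 _)]
    linarith [h2 i0]
  have hsum : ∑ i, w i = W := by
    have h2 := wsm_wof hS.zero (M + 1) le_rfl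
    rw [hS.tot] at h2
    rw [← h2, hw]
    exact (Finset.sum_congr rfl fun i _ => (if_pos i.2).symm)
  -- the visible pair
  have hnum := ll_num hst hS hLL he h1 hel
  have hnum0 := AllE_self hnum
  have hBx := (bk_trn hN hc.ok hLL.ke.bk he h1 (b1 := 0) zero_le_one
    (fun b h0 hb => absurd (h0.trans_lt hb) (lt_irrefl _))).1
  have hPx : Pt (S := S.chg S.tr e he) (s.trn e he h1) R := hBx.cl.2.1
  obtain ⟨V, hV⟩ : ∃ V : Rsl (S.chg S.tr e he), V = vis (s.trn e he h1).Q := ⟨_, rfl⟩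
  have hrig' : ∀ (T : Sp) (q : Pj T (S.chg S.tr e he)) (B : ∀ k, (T.F k).Ω → Prop) (hB : 0 < ul (T.pr B)) (c : ℝ),
      0 ≤ c → c < L → ∀ (j : ℕ) (hj : j ≤ M + 1), num (rd ((s.trn e he h1).im q B hB)) V hj c =
        num (rd (s.trn e he h1)) V hj c := by
    intro T q B hB c h0 h2 j hj
    have h3 := hrig _ (Pool.Agent.Helper42.NS.ptu q) B hB c j hj h0 (h2.le.trans hL1)
    rw [vis_rd, vis_rd] at h3
    rw [hV]
    exact h3
  have hBK := bk_vis hc.ok hV hBx hrig'
  have hcso : Cso (S.chg S.tr e he) R V := by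
    rw [hV]
    exact cso_vis hPx
  have hnR : ∀ c, 0 ≤ c → c < L → NumS c w (rd (s.trn e he h1)) R := by
    intro c h0 h2 j hj
    rw [volP_rd]
    have h3 := hnum0 c h0 (by
      rw [← hw]
      exact hwL c h0 h2) j hj
    rw [← hw] at h3
    exact h3
  have key := v1t (s := rd (s.trn e he h1)) (R := R) (R' := V) hst hcso hBK.cl.2.1 hw0 hL0 hL1 hnR (by
    refine Eventually.of_forall fun c hc0 hcL hinc d hd => ?_
    rw [hsum]
    rcases le_or_gt d P.La with hdL | hdL
    swap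
    · exact hW.trans hdL.le
    have hc1 : c < 1 := hcL.trans_le hL1
    have hwc := hwL c hc0.le hcL
    -- the top exponent
    have hTG : ∃ e' : ℝ, 0 < e' ∧ TopG (rd (s.trn e he h1)) V c e' := by
      obtain ⟨Z, f, -, z2, -⟩ := frames_num (S := S.chg S.tr e he) (s := s.trn e he h1) hst hPx hw1 hc0 hwc hc1
        (fun c' a b => by
          intro j hj
          have h3 := hnum0 c' a.le (by
            rw [← hw]
            exact hwL c' a.le (b.trans_lt hcL)) j hj
          rw [← hw] at h3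
          exact h3)
        (fun c' a b => by
          intro T q B hB j hj
          have h3 := hnum T q B hB c' a.le (by
            rw [← hw]
            exact hwL c' a.le (b.trans_lt hcL)) j hj
          rw [← hw] at h3
          exact h3)
      obtain ⟨d', hd'⟩ : ∃ d' : ℕ, d' = ⌈∑ i, w i⌉₊ := ⟨_, rfl⟩
      refine ⟨1 - w i0 * c, by linarith [hwc i0], topG_cso hcso (klb_rd.mpr z2) (frm_near (cls_rnd _) f)
        (fun i => mul_nonneg (hw0 i).le hc0.le) (fun i => (hwc i).le) (d := d') (fun k ω j => ?_) ?_ (fun i => ?_)⟩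
      · rw [hd']
        exact f.deg hc0 hw1 (fun i => Finset.single_le_sum (f := w) (fun i _ => (hw0 i).le) (Finset.mem_univ i)) k ω j
      · have h3 := hnR c hc0.le hcL (M + 1) le_rfl
        rw [volP_top] at h3
        rw [h3, ← Finset.sum_mul]
        apply le_of_eq
        congr 2
        exact (Finset.sum_congr rfl fun i _ => (if_pos i.2).symm)
      · have h3 := mul_le_mul_of_nonneg_right (hi0 i) hc0.le
        linarith
    -- the total
    have htot : Pool.Agent.Helper94.SEL.tot (rd (s.trn e he h1)) V c ≤ P.La * c := by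
      have h3 := hnR c hc0.le hcL (M + 1) le_rfl
      rw [volP_top] at h3
      have h4 := hcso.volKO (s := rd (s.trn e he h1)) c
      have h5 : (∑ i : Fin (M + 1), if i.val < M + 1 then w i else 0) = W := by
        rw [← hsum]
        exact (Finset.sum_congr rfl fun i _ => (if_pos i.2))
      rw [h5] at h3
      unfold Pool.Agent.Helper94.SEL.tot
      have h6 : W * c ≤ P.La * c := mul_le_mul_of_nonneg_right hW hc0.le
      linarith
    -- TOP
    have hlast := hinc M (Nat.lt_succ_self M)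
    obtain ⟨y, hy⟩ : ∃ y, y = Ap (rd (s.trn e he h1)) V (M + 1) c - Ap (rd (s.trn e he h1)) V M c := ⟨_, rfl⟩
    rw [← hy] at hlast
    have hwz : 0 < w (Fin.last M) := hw0 _
    have hyL : y / w (Fin.last M) < L := by
      rw [div_lt_iff₀ hwz, mul_comm]
      exact hlast
    obtain ⟨c2, hc2⟩ : ∃ c2, c2 = (max 0 (y / w (Fin.last M)) + L) / 2 := ⟨_, rfl⟩
    have hm0 : 0 ≤ max 0 (y / w (Fin.last M)) := le_max_left _ _
    have hm1 : max 0 (y / w (Fin.last M)) < L := max_lt hL0 hyL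
    have hc20 : 0 < c2 := by linarith
    have hc2L : c2 < L := by linarith
    have hyc : y < w (Fin.last M) * c2 := by
      have h3 : y / w (Fin.last M) < c2 := by
        have := le_max_right 0 (y / w (Fin.last M))
        linarith
      rw [div_lt_iff₀ hwz] at h3
      linarith
    have hTop : Top P.ρ (w (Fin.last M) * c2) 0 (rd (s.trn e he h1)).Q := by
      apply top_rnd (hwL c2 hc20.le hc2L _).le
      rw [hw]
      exact top_ll hst hS hLL he h1 hel hc20 (by
        rw [← hw]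
        exact hwL c2 hc20.le hc2L)
    have hder : HasDerivAt (fun c => Pool.Agent.Helper94.SEL.tot (rd (s.trn e he h1)) V c) d c := hd
    have hTZ' := hTZ A C v hc m g r e0 L (S.chg S.tr e he) (rd (s.trn e he h1)) V hBK P.ρ (w (Fin.last M) * c2) P.d P.La
      (Par.d_pos P) (Par.d_le_one P) (zero_le_one.trans P.La1) P.lLa hTop c hc0 hcL hc1 (by
        have h3 : lmd (rd (s.trn e he h1)) V c (Fin.last M) = y := by
          rw [hy, Ap_of _ _ (le_refl (M + 1)), Ap_of _ _ (Nat.le_succ M)]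
          rfl
        rw [h3]
        exact hyc) d hdL hder
    exact hMn g L (S.chg S.tr e he) (rd (s.trn e he h1)) V hBK c d hc0 hcL hc1 hTG htot hTZ' hder hdL)
  intro T q B hB c h0 hwc j hj
  rw [← hw] at hwc ⊢
  have h2 := hLw c hwc
  have h3 := key c h0 h2 j hj
  have h4 := hrig' T q B hB c h0 h2 j hj
  have h5 : volP (rd ((s.trn e he h1).im q B hB)) V c hj = volP (rd (s.trn e he h1)) V c hj := by
    have h6 : (j : ℝ) - volP (rd ((s.trn e he h1).im q B hB)) V c hj = j - volP (rd (s.trn e he h1)) V c hj := h4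
    linarith
  rw [← volP_rd, ← hV, h5]
  exact h3

end

end Pool.Agent.Helper71.VIS
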