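import Pool.Agent.Helper25.MXD.Cnt
import Pool.Agent.Helper29.MX.St
import Pool.Agent.Helper52.SL.Ext
import Pool.Agent.Helper48.ROK.Numj
import Pool.Agent.Helper26.OUT.Gu

/-! DIGITS OVER A FRAME: over the label of a frame with the exponents `La`, the digits of level at most `La j` of the
coordinate `j` are known to the digits of the coordinates before `j`, and the entropy of the first `m` coordinates is at
most the sum of `1 - La i`, `i < m`. -/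

set_option autoImplicit false

namespace Pool.Agent.Helper71.VIS

open Finset Filter Topology Matrix MvPolynomial Pool.Agent.Helper69.RK Pool.Agent.Helper31.EC
open Pool.Agent.Helper31.EC.Sp
open Pool.Agent.Helper40.EL Pool.Agent.Helper89.LX Pool.Agent.Helper3.LF Pool.Agent.Helper84.MT
open Pool.Agent.Helper36.AM
open Pool.Agent.Helper52.SL (cv cv_dg)
open Pool.Agent.Helper25.MXD (tri_row tri_U)
open Pool.Agent.Helper26.OUT (ovr_dl ovr_Sub ovr_Z)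
open Pool.Agent.Helper29.MX

noncomputable section

variable {S : Sp} {M : ℕ}

section frm

variable {Q : S.VV M} {l : Lab S} {La : Fin M → ℝ} (f : Frm Q l La)

/-- THE DIGITS OF A COORDINATE up to the exponent of the frame are known to the coordinates before it -/
theorem frm_co (h0 : ∀ i, 0 ≤ La i) {κ : ℕ} (hκ : ∀ k ω j, (f.P k ω j).totalDegree ≤ κ) {j : ℕ} (hj : j < M) {b : ℝ}
    (hb : b ≤ La ⟨j, hj⟩) (hb1 : b ≤ 1) : up1 l ((Q.co ⟨j, hj⟩).dg b) ≤ up1 l ((pfx Q hj.le).dg b) := by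
  rw [← cv_dg, ← cv_dg]
  obtain ⟨Kc, hKc, hc⟩ := f.bd
  obtain ⟨Kp, hKp, hp⟩ := f.pt
  obtain ⟨Kx, hKx', hx⟩ := f.X.bd
  have hKx : S.Sub Kx := (sp_Sub l).mp hKx'
  obtain ⟨L, hL⟩ : ∃ L : ℕ → ℝ, L = fun k => ((κ : ℝ) + 1) ^ M * Kc k * (κ * (Kx k + 1) ^ κ) := ⟨_, rfl⟩
  have hLS : S.Sub L := by rw [hL]; exact Sub_L hKc hKx M κ
  have hKS : S.Sub (fun k => L k * ((1 + L k) ^ j * (3 * (1 + Kp k))) + 2 * Kx k + 2 * Kp k) :=
    ((hLS.mul ((Sub_pow' ((S.Sub_const zero_le_one).add hLS) j).mul ((S.Sub_const (by norm_num)).mul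
      ((S.Sub_const zero_le_one).add hKp)))).add ((S.Sub_const (by norm_num)).mul hKx)).add
        ((S.Sub_const (by norm_num)).mul hKp)
  apply VV.dg_le_dg (S := l.ovr 1 one_pos) _ _ _ _ (fun _ _ => True) Typ_true _ ((ovr_Sub l 1 one_pos).mp hKS)
  filter_upwards [hc, hp, hx, hKc.1, hKp.1, hKx.1, f.fn, hLS.1] with k c1 c2 c3 c4 c5 c6 c7 c8
  intro (ω : (l k).T.Ω) (ω' : (l k).T.Ω) hω hω' _ _ z r _
  obtain ⟨hV, hZ⟩ := ovr_Z l 1 one_pos k ω ω' z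
  rw [ovr_dl, one_mul]
  have hP : f.P k ω = f.P k ω' := c7 ω ω' hω hω' hZ hV
  have hdi : ∀ i, S.dl (La i) k ≤ 1 := fun i => by
    rw [← S.dl_zero k]
    exact S.dl_anti (h0 i) k
  have hUB : ∀ ω : (l k).T.Ω, (l k).T.μ ω ≠ 0 → ∀ i, |S.dl (La i) k * f.X.v k ω i| ≤ Kx k := by
    intro ω hω i
    rw [abs_mul, abs_of_pos (S.dl_pos _ _)]
    exact (mul_le_mul (hdi i) (c3 ω hω i) (abs_nonneg _) zero_le_one).trans (one_mul _).le
  have hdr := S.dl_pos b k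
  have h1r : S.dl 1 k ≤ S.dl b k := S.dl_anti hb1 k
  have hε : 0 ≤ (1 + Kp k) * S.dl b k := by positivity
  have herr : ∀ x : ℝ, x ≤ Kp k * S.dl 1 k → x ≤ (1 + Kp k) * S.dl b k := by
    intro x h
    have h2 := mul_le_mul_of_nonneg_left h1r c5
    rw [add_mul, one_mul]
    linarith
  have hr : ∀ i : Fin M, (i : ℕ) < j → |Q.v k ((l k).p.π ω) i - Q.v k ((l k).p.π ω') i| ≤ S.dl b k := by
    intro i hi
    have h3 : |Q.v k ((l k).p.π ω) (Fin.castLE hj.le ⟨i, hi⟩) - Q.v k ((l k).p.π ω') (Fin.castLE hj.le ⟨i, hi⟩)| ≤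
      (l.ovr 1 one_pos).dl b k := r ⟨i, hi⟩
    rw [ovr_dl, one_mul] at h3
    exact h3
  have h1 := fun i hi => tri_U (f.tri k ω) (fun j => hκ k ω j) c4 (fun j a => c1 ω hω j a) c6 (L := L k) (by rw [hL])
    (U := fun i => S.dl (La i) k * f.X.v k ω i) (U' := fun i => S.dl (La i) k * f.X.v k ω' i)
    (hUB ω hω) (hUB ω' hω') hε (x := Q.v k ((l k).p.π ω)) (x' := Q.v k ((l k).p.π ω'))
    (fun j => herr _ (c2 ω hω j)) (fun j => by
      rw [hP]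
      exact herr _ (c2 ω' hω' j)) j (fun i hi => by
      refine (hr i hi).trans ?_
      rw [add_mul, one_mul]
      have := mul_nonneg c5 hdr.le
      linarith) i hi
  have h2 := tri_row (f.tri k ω) (fun j => hκ k ω j) c4 (fun j a => c1 ω hω j a) c6 (L := L k) (by rw [hL])
    (U := fun i => S.dl (La i) k * f.X.v k ω i) (U' := fun i => S.dl (La i) k * f.X.v k ω' i)
    (hUB ω hω) (hUB ω' hω') (δ := (1 + L k) ^ j * (3 * ((1 + Kp k) * S.dl b k))) (by positivity) ⟨j, hj⟩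
    (fun i hi => h1 i hi)
  have h3 := c2 ω hω ⟨j, hj⟩
  have h4 := c2 ω' hω' ⟨j, hj⟩
  rw [← hP] at h4
  have h5 := c3 ω hω ⟨j, hj⟩
  have h6 := c3 ω' hω' ⟨j, hj⟩
  have h7 : |S.dl (La ⟨j, hj⟩) k * f.X.v k ω ⟨j, hj⟩| ≤ Kx k * S.dl b k := by
    rw [abs_mul, abs_of_pos (S.dl_pos _ _), mul_comm]
    exact mul_le_mul h5 (S.dl_anti hb k) (S.dl_pos _ _).le c6
  have h8 : |S.dl (La ⟨j, hj⟩) k * f.X.v k ω' ⟨j, hj⟩| ≤ Kx k * S.dl b k := by
    rw [abs_mul, abs_of_pos (S.dl_pos _ _), mul_comm]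
    exact mul_le_mul h6 (S.dl_anti hb k) (S.dl_pos _ _).le c6
  have h9 : Kp k * S.dl 1 k ≤ Kp k * S.dl b k := mul_le_mul_of_nonneg_left h1r c5
  show |Q.v k ((l k).p.π ω) ⟨j, hj⟩ - Q.v k ((l k).p.π ω') ⟨j, hj⟩| ≤
    (L k * ((1 + L k) ^ j * (3 * (1 + Kp k))) + 2 * Kx k + 2 * Kp k) * S.dl b k
  have h3' : |Q.v k ((l k).p.π ω) ⟨j, hj⟩ - (eval (fun i => S.dl (La i) k * f.X.v k ω i) (f.P k ω ⟨j, hj⟩) +
    S.dl (La ⟨j, hj⟩) k * f.X.v k ω ⟨j, hj⟩)| ≤ Kp k * S.dl 1 k := h3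
  have h4' : |Q.v k ((l k).p.π ω') ⟨j, hj⟩ - (eval (fun i => S.dl (La i) k * f.X.v k ω' i) (f.P k ω ⟨j, hj⟩) +
    S.dl (La ⟨j, hj⟩) k * f.X.v k ω' ⟨j, hj⟩)| ≤ Kp k * S.dl 1 k := h4
  rw [abs_le] at h2 h3' h4' h7 h8 ⊢
  have e1 : (L k * ((1 + L k) ^ j * (3 * (1 + Kp k))) + 2 * Kx k + 2 * Kp k) * S.dl b k =
      L k * ((1 + L k) ^ j * (3 * ((1 + Kp k) * S.dl b k))) + 2 * (Kx k * S.dl b k) + 2 * (Kp k * S.dl b k) := by ring
  rw [e1]
  constructor <;> linarith [h2.1, h2.2, h3'.1, h3'.2, h4'.1, h4'.2, h7.1, h7.2, h8.1, h8.2]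

/-- one more coordinate -/
theorem pfx_succ_le (Q : S.VV M) {j : ℕ} (hj : j < M) (r : ℝ) :
    (pfx Q (Nat.succ_le_of_lt hj)).dg r ≤ (pfx Q hj.le).dg r ⊔ (Q.co ⟨j, hj⟩).dg r := by
  apply VV.dg_le_dg2 _ _ _ _ _ _ (fun _ _ => True) Typ_true (fun _ => 1) (S.Sub_const zero_le_one)
  refine Eventually.of_forall fun k ω ω' _ _ _ _ _ a b i => ?_
  rw [one_mul]
  rcases Nat.lt_succ_iff_lt_or_eq.mp i.2 with h | h
  · exact a ⟨i.val, h⟩
  · have h1 : Fin.castLE (Nat.succ_le_of_lt hj) i = ⟨j, hj⟩ := Fin.ext h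
    show |Q.v k ω (Fin.castLE (Nat.succ_le_of_lt hj) i) - Q.v k ω' (Fin.castLE (Nat.succ_le_of_lt hj) i)| ≤ S.dl r k
    rw [h1]
    exact b 0

/-- THE ENTROPY OF THE PREFIXES over the label of a frame -/
theorem frm_H (h0 : ∀ i, 0 ≤ La i) (h1 : ∀ i, La i ≤ 1) {κ : ℕ} (hκ : ∀ k ω j, (f.P k ω j).totalDegree ≤ κ) (m : ℕ)
    (hm : m ≤ M) : H (up1 l ((pfx Q hm).dg 1)) ≤ ∑ i : Fin M, if i.val < m then 1 - La i else 0 := by
  induction m with
  | zero =>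
    rw [← cv_dg]
    refine ((cv l (pfx Q hm)).H_dg_le zero_le_one).trans ?_
    rw [Nat.cast_zero, zero_mul]
    exact (Finset.sum_eq_zero fun i _ => if_neg (Nat.not_lt_zero _)).ge
  | succ m ih =>
    have hm' : m < M := hm
    have h2 := ih hm'.le
    have h3 : H (up1 l ((pfx Q hm).dg 1)) ≤ H (up1 l ((pfx Q hm'.le).dg 1)) +
        h (up1 l ((Q.co ⟨m, hm'⟩).dg 1)) (up1 l ((pfx Q hm'.le).dg 1)) := by
      have h4 := H_mono (up1_mono l (pfx_succ_le Q hm' 1))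
      refine h4.trans (le_of_eq ?_)
      rw [up1_sup]
      unfold h
      rw [sup_comm (up1 l ((Q.co ⟨m, hm'⟩).dg 1))]
      ring
    have h5 : h (up1 l ((Q.co ⟨m, hm'⟩).dg 1)) (up1 l ((pfx Q hm'.le).dg 1)) ≤ 1 - La ⟨m, hm'⟩ := by
      have h6 : up1 l ((Q.co ⟨m, hm'⟩).dg (La ⟨m, hm'⟩)) ≤ up1 l ((pfx Q hm'.le).dg 1) :=
        (frm_co f h0 hκ hm' le_rfl (h1 _)).trans (up1_mono l ((pfx Q hm'.le).dg_mono (h1 _)))
      refine (h_anti h6).trans ?_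
      rw [← cv_dg, ← cv_dg]
      have h7 := (cv l (Q.co ⟨m, hm'⟩)).h_dg_dg (h1 ⟨m, hm'⟩)
      rwa [Nat.cast_one, one_mul] at h7
    have e2 : (∑ i : Fin M, if i.val < m + 1 then 1 - La i else 0) =
        (∑ i : Fin M, if i.val < m then 1 - La i else 0) + (1 - La ⟨m, hm'⟩) := by
      have e3 : ∀ i : Fin M, (if i.val < m + 1 then 1 - La i else 0) = (if i.val < m then 1 - La i else 0) +
          if i = ⟨m, hm'⟩ then 1 - La i else 0 := by
        intro i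
        have h5 : i = ⟨m, hm'⟩ ↔ i.val = m := Fin.ext_iff
        by_cases h6 : i.val < m
        · rw [if_pos h6, if_pos (by omega), if_neg (fun h => by rw [h5] at h; omega), add_zero]
        · by_cases h7 : i.val = m
          · rw [if_neg h6, if_pos (by omega), if_pos (h5.2 h7), zero_add]
          · rw [if_neg h6, if_neg (by omega), if_neg (fun h => h7 (h5.1 h)), add_zero]
      rw [Finset.sum_congr rfl fun i _ => e3 i, Finset.sum_add_distrib]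
      congr 1
      rw [Finset.sum_ite_eq' Finset.univ (⟨m, hm'⟩ : Fin M) fun i => 1 - La i, if_pos (Finset.mem_univ _)]
    rw [e2]
    linarith

end frm

end

end Pool.Agent.Helper71.VIS
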