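import Pool.Agent.Helper26.CLD.Box
import Pool.Agent.Helper7.RD.Kv
import Pool.Agent.Helper84.KR.Ajo
import Pool.Agent.Helper26.BXD.Der
import Pool.Agent.Helper94.SEL.St
import Pool.Agent.Helper71.VIS.Cso

/-! THE TOP EXPONENT FROM FRAMES: if a label of the class carries a frame with the exponents `La` and the volume of the
class is `M - Σ La`, then all forms of the class have typically exponents at most `max La`. Any class of labels, any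
conditions. -/

set_option autoImplicit false

namespace Pool.Agent.Helper71.VIS

open Finset Filter Topology Matrix Pool.Agent.Helper69.RK Pool.Agent.Helper31.EC Pool.Agent.Helper31.EC.Sp
open Pool.Agent.Helper40.EL Pool.Agent.Helper89.LX Pool.Agent.Helper3.LF Pool.Agent.Helper84.MT Pool.Agent.Helper36.AM
open Pool.Agent.Helper95.LF Pool.Agent.Helper7.GZ Pool.Agent.Helper26.OUT Pool.Agent.Helper81.DC
open Pool.Agent.Helper14.MC (gx vx vol_eq vx_UB)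
open Pool.Agent.Helper69.DGR (upx upm upx_Adf Jq_upm upm_ge)
open Pool.Agent.Helper26.CLD
open Pool.Agent.Helper7.RD (volC volC_eq volC_le_of optK_dom)

noncomputable section

variable {S : Sp} {M : ℕ}

section box

variable {Q : S.VV M} {l : Lab S} {La : Fin M → ℝ} (f : Frm Q l La) {κ : Type} [Finite κ] {A : κ → Part S} {C : LC S}

/-- the rows with values at the point -/
theorem frow_dP (k : ℕ) (ω : (l k).T.Ω) (x v : Fin M → ℝ) :
    dP (fun i => MvPolynomial.C (S.dl (La i) k)⁻¹ * inv (f.P k ω) i) x v ⬝ᵥ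
      dP (fun i => MvPolynomial.C (S.dl (La i) k)⁻¹ * inv (f.P k ω) i) x v =
      ∑ i, (MvPolynomial.eval x (dir v (f.row k ω i))) ^ 2 := by
  unfold dotProduct
  exact Finset.sum_congr rfl fun i _ => (pow_two _).symm

/-- THE COMMON LABEL of an optimal form and of the rows: the optimal form is above the form of the rows -/
theorem kbox_dom (hl : l.DMf A) (hC : C.ev l) (h0 : ∀ i, 0 ≤ La i) (h1 : ∀ i, La i ≤ 1) {d : ℕ}
    (hκ : ∀ k ω j, (f.P k ω j).totalDegree ≤ d) {D : ℕ} (hD : (d + 1) ^ M ≤ D) {z : ∀ k, FD (S.F k) (Mon M D)}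
    (hz : (gaq Q D).OptfK C A z) (e : ℝ) (he : 0 < e) :
    Tendsto (fun k => ((z k).l.am (l k)).sp.pb (fun w => ¬ ∀ v : Fin M → ℝ,
      dP (fun i => MvPolynomial.C (S.dl (La i) k)⁻¹ * inv (f.P k (((z k).l.am (l k)).p2.π w)) i)
        (Q.v k ((z k).l.p.π (((z k).l.am (l k)).p1.π w))) v ⬝ᵥ
      dP (fun i => MvPolynomial.C (S.dl (La i) k)⁻¹ * inv (f.P k (((z k).l.am (l k)).p2.π w)) i)
        (Q.v k ((z k).l.p.π (((z k).l.am (l k)).p1.π w))) v ≤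
      2 ^ (e * (S.F k).n) * (v ⬝ᵥ ((1 + Jq (S.dl 1 k) ((z k).g (((z k).l.am (l k)).p1.π w))
        (Q.v k ((z k).l.p.π (((z k).l.am (l k)).p1.π w)))) *ᵥ v)))) UF (𝓝 0) := by
  have hrd : ∀ k ω i, (f.row k ω i).totalDegree ≤ D := fun k ω i => (f.row_deg hκ k ω i).trans hD
  obtain ⟨K, hK, hb⟩ := f.row_bd h0 h1 hκ D
  have hAd := rwx_Adf (A := A) hl Q f.row hrd f.row_ms hK (by
    refine typ_mono (S := l.sp) (Typ_true (S := l.sp)) ?_
    filter_upwards [hb] with n hn ω hω _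
    exact (hn ω hω).1)
  obtain ⟨K', hK', hgood⟩ := rwx_good l Q f.row hrd f.row_ms hK
  have h2 := optK_dom hz (C := C) ⟨hAd, hC⟩ e he
  refine squeeze_zero' (Eventually.of_forall fun k => FSp.pb_nonneg _ _) ?_ h2
  filter_upwards [hb, hgood, hz.1.1 1 one_pos] with k a1 a2 a3
  apply FSp.pb_mono
  intro w hw h3 h4
  apply h3
  intro v
  obtain ⟨y, hy⟩ : ∃ y, y = rwx l D (gaq Q D).cp f.row := ⟨_, rfl⟩
  have e1 : (z k).l.p.π (((z k).l.am (l k)).p1.π w) = (l k).p.π (((z k).l.am (l k)).p2.π w) :=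
    (z k).jj_supp (rwx l D (gaq Q D).cp f.row k) w hw
  have hω1 := ((z k).l.am (l k)).p1.supp w hw
  have hω2 := ((z k).l.am (l k)).p2.supp w hw
  have hg := ((a2 _ hω2).2 (a1 _ hω2).1).1
  rw [frow_dP f]
  have h5 := rwm_Jq (D := D) (f.row k (((z k).l.am (l k)).p2.π w)) (fun i => hrd k _ i) (S.dl 1 k)
    (Q.v k ((z k).l.p.π (((z k).l.am (l k)).p1.π w))) v
  refine h5.trans ?_
  have hC := (a3.2.1 _ hω1).1
  have h6 : v ⬝ᵥ (Jq (S.dl 1 k) (rwm D (f.row k (((z k).l.am (l k)).p2.π w)))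
      (Q.v k ((z k).l.p.π (((z k).l.am (l k)).p1.π w))) *ᵥ v) ≤ 2 ^ (e * (S.F k).n) *
      (v ⬝ᵥ (Jq (S.dl 1 k) ((z k).g (((z k).l.am (l k)).p1.π w))
        (Q.v k ((z k).l.p.π (((z k).l.am (l k)).p1.π w))) *ᵥ v)) := by
    rw [Jq_qf, Jq_qf, Finset.mul_sum]
    refine Finset.sum_le_sum fun j _ => ?_
    rw [← hg]
    exact h4 _
  refine h6.trans (mul_le_mul_of_nonneg_left ?_ (by positivity))
  rw [dv_add, Matrix.one_mulVec]
  have := self_nonneg' v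
  linarith

/-- typical LOWER bound of the exponents of an optimal form -/
theorem kbox_low (hl : l.DMf A) (hC : C.ev l) (h0 : ∀ i, 0 ≤ La i) (h1 : ∀ i, La i ≤ 1) {d : ℕ}
    (hκ : ∀ k ω j, (f.P k ω j).totalDegree ≤ d) {D : ℕ} (hD : (d + 1) ^ M ≤ D) {z : ∀ k, FD (S.F k) (Mon M D)}
    (hz : (gaq Q D).OptfK C A z) (e : ℝ) (he : 0 < e) :
    Tendsto (fun k => (z k).l.T.pb (fun ω => ¬ ∑ i, La i - e ≤ gx Q k ((z k).l.p.π ω) ((z k).g ω))) UF (𝓝 0) := by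
  have he' : 0 < 2 * e / (M + 1) := by positivity
  have h2 := kbox_dom f hl hC h0 h1 hκ hD hz (2 * e / (M + 1)) he'
  refine squeeze_zero' (Eventually.of_forall fun k => FSp.pb_nonneg _ _) ?_ h2
  filter_upwards [hz.1.1 1 one_pos] with k a3
  rw [← pb_push ((z k).l.am (l k)).p1 (fun ω => ¬ ∑ i, La i - e ≤ gx Q k ((z k).l.p.π ω) ((z k).g ω))]
  apply FSp.pb_mono
  intro w hw h3 h4
  apply h3
  have hω1 := ((z k).l.am (l k)).p1.supp w hw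
  have hC := (a3.2.1 _ hω1).1
  have hn := (S.F k).pos
  have hPd : PdM (1 + Jq (S.dl 1 k) ((z k).g (((z k).l.am (l k)).p1.π w))
        (Q.v k ((z k).l.p.π (((z k).l.am (l k)).p1.π w)))) := one_Jq_pd _ hC.1 hC.psd.2 _
  have h5 := rows_det (f.tri k (((z k).l.am (l k)).p2.π w)) _ (fun i => S.dl (La i) k) (fun i => S.dl_pos _ _) hPd
    (show (0 : ℝ) < 2 ^ (2 * e / (M + 1) * (S.F k).n) by positivity) h4
  have h6 : (∏ i, (S.dl (La i) k)⁻¹) ^ 2 = 2 ^ (2 * (∑ i, La i) * (S.F k).n) := by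
    rw [prod_dl, ← Real.rpow_natCast, ← Real.rpow_mul (by norm_num)]
    congr 1
    push_cast
    ring
  rw [h6, ← Real.rpow_natCast, ← Real.rpow_mul (by norm_num)] at h5
  have hdp := hPd.det_pos
  have h7 := Real.logb_le_logb_of_le (b := 2) (by norm_num) (by positivity) h5
  rw [Real.logb_rpow (by norm_num) (by norm_num), Real.logb_mul (by positivity) hdp.ne',
    Real.logb_rpow (by norm_num) (by norm_num)] at h7
  show _ ≤ Real.logb 2 (GQ (S.dl 1 k) ((z k).g (((z k).l.am (l k)).p1.π w))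
    (Q.v k ((z k).l.p.π (((z k).l.am (l k)).p1.π w)))) / (2 * (S.F k).n)
  have h8 : Real.logb 2 (GQ (S.dl 1 k) ((z k).g (((z k).l.am (l k)).p1.π w))
    (Q.v k ((z k).l.p.π (((z k).l.am (l k)).p1.π w)))) =
    Real.logb 2 (1 + Jq (S.dl 1 k) ((z k).g (((z k).l.am (l k)).p1.π w))
        (Q.v k ((z k).l.p.π (((z k).l.am (l k)).p1.π w)))).det := rfl
  rw [h8, le_div_iff₀ (by positivity)]
  have h9 : 2 * e / (M + 1) * (S.F k).n * M ≤ 2 * e * (S.F k).n := by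
    have h10 : 2 * e / (M + 1) * (S.F k).n * M = (2 * e * (S.F k).n) * (M / (M + 1)) := by
      field_simp
    rw [h10]
    apply mul_le_of_le_one_right (by positivity)
    rw [div_le_one (by positivity)]
    linarith
  nlinarith

/-- typical UPPER bound of the exponents of an optimal form, if the volume of the class is the volume of the box -/
theorem kbox_up (hl : l.DMf A) (hC : C.ev l) (h0 : ∀ i, 0 ≤ La i) (h1 : ∀ i, La i ≤ 1) {d : ℕ}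
    (hκ : ∀ k ω j, (f.P k ω j).totalDegree ≤ d) {D : ℕ} (hv : (M : ℝ) - ∑ i, La i ≤ volC C A Q D)
    (hD : (d + 1) ^ M ≤ D) {z : ∀ k, FD (S.F k) (Mon M D)} (hz : (gaq Q D).OptfK C A z) (e : ℝ) (he : 0 < e) :
    Tendsto (fun k => (z k).l.T.pb (fun ω => ¬ gx Q k ((z k).l.p.π ω) ((z k).g ω) ≤ ∑ i, La i + e)) UF (𝓝 0) := by
  obtain ⟨B, hB0, hB⟩ := Pool.Agent.Helper84.MT.gx_bd hz.1.1
  have hm : ul (vx Q z) ≤ ∑ i, La i := by
    rw [volC_eq hz, vol_eq] at hv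
    linarith
  exact typ_of_mean (fun k => (z k).l.T) (fun k ω => gx Q k ((z k).l.p.π ω) ((z k).g ω)) (hB.mono fun k hk ω hω =>
    (hk ω hω).1) (vx_UB hz.1.1) hm (kbox_low f hl hC h0 h1 hκ hD hz) e he

end box

/-- forms above the rows of a chart, of small determinant -/
theorem qf_rows {P : Fin M → MvPolynomial (Fin M) ℝ} (tri : ∀ j, ∀ i ∈ (P j).vars, i < j) (x d : Fin M → ℝ)
    (hd : ∀ i, 0 < d i) {L : ℝ} (hL0 : 0 ≤ L)
    (hL : ∀ i j, |MvPolynomial.eval (fun i => MvPolynomial.eval x (inv P i)) (MvPolynomial.pderiv i (P j))| ≤ L)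
    {G : Matrix (Fin M) (Fin M) ℝ} (hG : G.IsSymm) {κ β : ℝ} (hκ : 0 < κ) (hβ : 0 ≤ β)
    (h : ∀ v, dP (fun i => MvPolynomial.C (d i)⁻¹ * inv P i) x v ⬝ᵥ dP (fun i => MvPolynomial.C (d i)⁻¹ * inv P i) x v ≤
      κ * (v ⬝ᵥ (G *ᵥ v))) (hdet : G.det ≤ β * (∏ i, (d i)⁻¹) ^ 2) {δ : ℝ} (hδ : 0 < δ) (hσd : ∀ i, δ ≤ d i)
    (v : Fin M → ℝ) :
    v ⬝ᵥ (G *ᵥ v) ≤ (β * κ ^ M * κ⁻¹) * (M * ((1 + M * L) ^ M) ^ 2 * (δ⁻¹) ^ 2) * (v ⬝ᵥ v) := by
  obtain ⟨J, hJ⟩ : ∃ J, J = jac (fun i => MvPolynomial.C (d i)⁻¹ * inv P i) x := ⟨_, rfl⟩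
  have hJd : J.det = ∏ i, (d i)⁻¹ := by rw [hJ]; exact jac_inv tri (fun i => (d i)⁻¹) x
  have hJ0 : J.det ≠ 0 := by
    rw [hJd]
    exact Finset.prod_ne_zero_iff.2 fun i _ => inv_ne_zero (hd i).ne'
  have hu : IsUnit J.det := isUnit_iff_ne_zero.2 hJ0
  have hJv : ∀ v, J *ᵥ v = dP (fun i => MvPolynomial.C (d i)⁻¹ * inv P i) x v := fun v => by rw [hJ]; exact jac_mul _ _ _
  have h1 := qf_le_of_det hG hu hκ (fun v => by rw [hJv]; exact h v) (by rw [hJd]; exact hdet) v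
  have hc0 : 0 ≤ β * κ ^ M * κ⁻¹ := by positivity
  refine h1.trans ?_
  rw [mul_assoc (β * κ ^ M * κ⁻¹) _ (v ⬝ᵥ v)]
  apply mul_le_mul_of_nonneg_left _ hc0
  have hvv : 0 ≤ v ⬝ᵥ v := self_nonneg' v
  have h4 : ∀ i ∈ (Finset.univ : Finset (Fin M)), (J *ᵥ v) i * (J *ᵥ v) i ≤
      ((1 + M * L) ^ M) ^ 2 * (δ⁻¹) ^ 2 * (v ⬝ᵥ v) := by
    intro i _
    have h6 : (J *ᵥ v) i = (d i)⁻¹ * MvPolynomial.eval x (dir v (inv P i)) := by
      rw [hJv]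
      unfold dP
      rw [eval_dir2, eval_dir2, Finset.mul_sum]
      refine Finset.sum_congr rfl fun a _ => ?_
      rw [MvPolynomial.pderiv_C_mul, map_mul, MvPolynomial.eval_C]
      ring
    have h7 := inv_grad tri x v hL0 hL (V := Real.sqrt (v ⬝ᵥ v)) (fun i => by
      apply Real.abs_le_sqrt
      have h8 := Finset.single_le_sum (f := fun i => v i * v i) (fun i _ => mul_self_nonneg _) (Finset.mem_univ i)
      rw [pow_two]
      exact h8) M i i.2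
    have h8 : (d i)⁻¹ ≤ δ⁻¹ := inv_anti₀ hδ (hσd i)
    have h9 : 0 < (d i)⁻¹ := inv_pos.2 (hd _)
    rw [← pow_two, h6, ← sq_abs, abs_mul, abs_of_pos h9]
    calc ((d i)⁻¹ * |MvPolynomial.eval x (dir v (inv P i))|) ^ 2
        ≤ (δ⁻¹ * ((1 + M * L) ^ M * Real.sqrt (v ⬝ᵥ v))) ^ 2 := by
          apply pow_le_pow_left₀ (mul_nonneg h9.le (abs_nonneg _))
          exact mul_le_mul h8 h7 (abs_nonneg _) (inv_pos.2 hδ).le
      _ = ((1 + M * L) ^ M) ^ 2 * (δ⁻¹) ^ 2 * (Real.sqrt (v ⬝ᵥ v)) ^ 2 := by ring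
      _ = _ := by rw [Real.sq_sqrt hvv]
  have h5 := Finset.sum_le_card_nsmul _ _ _ h4
  rw [Finset.card_univ, Fintype.card_fin, nsmul_eq_mul] at h5
  refine le_trans (le_of_eq rfl) (h5.trans (le_of_eq ?_))
  ring

/-- a form of exponents at most `θ`, typically -/
def Tpx (Q : S.VV M) {D : ℕ} (x : ∀ k, FD (S.F k) (Mon M D)) (θ : ℝ) : Prop := ∀ e : ℝ, 0 < e →
  Sp.Typ (S := (lb x).sp) (fun k (ω : (x k).l.T.Ω) => ∀ v : Fin M → ℝ,
    v ⬝ᵥ ((1 + Jq (S.dl 1 k) ((x k).g ω) (Q.v k ((x k).l.p.π ω))) *ᵥ v) ≤ 2 ^ (2 * (θ + e) * (S.F k).n) * (v ⬝ᵥ v))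

theorem Tpx.mono {Q : S.VV M} {D : ℕ} {x : ∀ k, FD (S.F k) (Mon M D)} {θ θ' : ℝ} (h : Tpx Q x θ) (hθ : θ ≤ θ') :
    Tpx Q x θ' := fun e he => by
  refine typ_mono (h e he) (Eventually.of_forall fun k ω _ h1 v => (h1 v).trans ?_)
  apply mul_le_mul_of_nonneg_right _ (self_nonneg' v)
  apply Real.rpow_le_rpow_of_exponent_le (by norm_num)
  have := (S.F k).pos
  nlinarith

section top

variable {Q : S.VV M} {l : Lab S} {La : Fin M → ℝ} (f : Frm Q l La) {κ : Type} [Finite κ] {A : κ → Part S} {C : LC S}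

/-- THE TOP EXPONENT OF OPTIMAL FORMS of large degree -/
theorem tpx_opt (hl : l.DMf A) (hC : C.ev l) (h0 : ∀ i, 0 ≤ La i) (h1 : ∀ i, La i ≤ 1) {d : ℕ}
    (hκ : ∀ k ω j, (f.P k ω j).totalDegree ≤ d) {D : ℕ} (hv : (M : ℝ) - ∑ i, La i ≤ volC C A Q D)
    (hD : (d + 1) ^ M ≤ D) {z : ∀ k, FD (S.F k) (Mon M D)} (hz : (gaq Q D).OptfK C A z) {θ : ℝ}
    (hθ : ∀ i, La i ≤ θ) : Tpx Q z θ := by
  intro e he
  obtain ⟨K, hK, hb⟩ := f.row_bd h0 h1 hκ D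
  have he' : 0 < e / (2 * (M + 1)) := by positivity
  have h2 := kbox_dom f hl hC h0 h1 hκ hD hz (e / (2 * (M + 1))) he'
  have h3 := kbox_up f hl hC h0 h1 hκ hv hD hz (e / 4) (by linarith)
  have h4 := h2.add h3
  rw [add_zero] at h4
  have hSub : S.Sub (fun k => M * ((1 + M * K k) ^ M) ^ 2) :=
    (S.Sub_const (Nat.cast_nonneg _)).mul (Sub_pow' (Sub_pow' ((S.Sub_const zero_le_one).add
      ((S.Sub_const (Nat.cast_nonneg _)).mul hK)) M) 2)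
  show Tendsto (fun k => (z k).l.T.pb (fun ω => ¬ ∀ v : Fin M → ℝ,
    v ⬝ᵥ ((1 + Jq (S.dl 1 k) ((z k).g ω) (Q.v k ((z k).l.p.π ω))) *ᵥ v) ≤ 2 ^ (2 * (θ + e) * (S.F k).n) * (v ⬝ᵥ v)))
      UF (𝓝 0)
  refine squeeze_zero' (Eventually.of_forall fun k => FSp.pb_nonneg _ _) ?_ h4
  filter_upwards [hz.1.1 1 one_pos, hb, hSub.eventually_le he, hK.1] with k a3 a1 a4 hK0
  rw [← pb_push ((z k).l.am (l k)).p1 (fun ω => ¬ ∀ v : Fin M → ℝ,
    v ⬝ᵥ ((1 + Jq (S.dl 1 k) ((z k).g ω) (Q.v k ((z k).l.p.π ω))) *ᵥ v) ≤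
      2 ^ (2 * (θ + e) * (S.F k).n) * (v ⬝ᵥ v)), ← pb_push ((z k).l.am (l k)).p1 (fun ω => ¬ gx Q k ((z k).l.p.π ω)
    ((z k).g ω) ≤ ∑ i, La i + e / 4)]
  refine le_trans (FSp.pb_mono _ ?_) (pb_or _ _ _)
  intro w hw h6
  by_contra hc
  rw [not_or, not_not, not_not] at hc
  obtain ⟨c1, c2⟩ := hc
  apply h6
  intro v
  have hω1 := ((z k).l.am (l k)).p1.supp w hw
  have hω2 := ((z k).l.am (l k)).p2.supp w hw
  have e1 : (z k).l.p.π (((z k).l.am (l k)).p1.π w) = (l k).p.π (((z k).l.am (l k)).p2.π w) :=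
    (z k).jj_supp (rwx l D (gaq Q D).cp f.row k) w hw
  have hC := (a3.2.1 _ hω1).1
  have hn := (S.F k).pos
  have hPd : PdM (1 + Jq (S.dl 1 k) ((z k).g (((z k).l.am (l k)).p1.π w))
        (Q.v k ((z k).l.p.π (((z k).l.am (l k)).p1.π w)))) := one_Jq_pd _ hC.1 hC.psd.2 _
  have hdet : (1 + Jq (S.dl 1 k) ((z k).g (((z k).l.am (l k)).p1.π w))
        (Q.v k ((z k).l.p.π (((z k).l.am (l k)).p1.π w)))).det ≤
        2 ^ (e / 2 * (S.F k).n) * (∏ i, (S.dl (La i) k)⁻¹) ^ 2 := by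
    have c2' : Real.logb 2 (1 + Jq (S.dl 1 k) ((z k).g (((z k).l.am (l k)).p1.π w))
        (Q.v k ((z k).l.p.π (((z k).l.am (l k)).p1.π w)))).det / (2 * (S.F k).n) ≤ ∑ i, La i + e / 4 := c2
    rw [div_le_iff₀ (by positivity), Real.logb_le_iff_le_rpow (by norm_num) hPd.det_pos] at c2'
    refine c2'.trans (le_of_eq ?_)
    rw [prod_dl, ← Real.rpow_natCast, ← Real.rpow_mul (by norm_num), ← Real.rpow_add (by norm_num)]
    congr 1
    push_cast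
    ring
  have hL := (a1 _ hω2).2
  rw [← e1] at hL
  have key := qf_rows (f.tri k (((z k).l.am (l k)).p2.π w)) (Q.v k ((z k).l.p.π (((z k).l.am (l k)).p1.π w)))
    (fun i => S.dl (La i) k) (fun i => S.dl_pos _ _) hK0 hL hPd.1
    (show (0 : ℝ) < 2 ^ (e / (2 * (M + 1)) * (S.F k).n) by positivity)
    (show (0 : ℝ) ≤ 2 ^ (e / 2 * (S.F k).n) by positivity) c1 hdet (S.dl_pos θ k) (fun i => S.dl_anti (hθ i) k) v
  refine key.trans (mul_le_mul_of_nonneg_right ?_ (self_nonneg' v))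
  have t1 : ((2 : ℝ) ^ (e / (2 * (M + 1)) * (S.F k).n)) ^ M ≤ 2 ^ (e / 2 * (S.F k).n) := by
    rw [← Real.rpow_natCast, ← Real.rpow_mul (by norm_num)]
    apply Real.rpow_le_rpow_of_exponent_le (by norm_num)
    have h10 : e / (2 * (M + 1)) * (S.F k).n * M = (e / 2 * (S.F k).n) * (M / (M + 1)) := by
      field_simp
    rw [h10]
    apply mul_le_of_le_one_right (by positivity)
    rw [div_le_one (by positivity)]
    linarith
  have t2 : ((2 : ℝ) ^ (e / (2 * (M + 1)) * (S.F k).n))⁻¹ ≤ 1 := by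
    apply inv_le_one_of_one_le₀
    exact Real.one_le_rpow (by norm_num) (by positivity)
  have t3 : (S.dl θ k)⁻¹ ^ 2 = 2 ^ (2 * θ * (S.F k).n) := by
    rw [dl_inv_eq, ← Real.rpow_natCast, ← Real.rpow_mul (by norm_num)]
    congr 1
    push_cast
    ring
  have t4 : (M : ℝ) * ((1 + M * K k) ^ M) ^ 2 ≤ 2 ^ (e * (S.F k).n) := by linarith
  have t5 : (0 : ℝ) ≤ M * ((1 + M * K k) ^ M) ^ 2 := by positivity
  calc 2 ^ (e / 2 * (S.F k).n) * (2 ^ (e / (2 * (M + 1)) * (S.F k).n)) ^ M *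
        (2 ^ (e / (2 * (M + 1)) * (S.F k).n))⁻¹ * (M * ((1 + M * K k) ^ M) ^ 2 * (S.dl θ k)⁻¹ ^ 2)
      ≤ 2 ^ (e / 2 * (S.F k).n) * 2 ^ (e / 2 * (S.F k).n) * 1 *
        (2 ^ (e * (S.F k).n) * 2 ^ (2 * θ * (S.F k).n)) := by
        rw [t3]
        apply mul_le_mul _ (mul_le_mul_of_nonneg_right t4 (by positivity)) (by positivity) (by positivity)
        apply mul_le_mul _ t2 (by positivity) (by positivity)
        exact mul_le_mul_of_nonneg_left t1 (by positivity)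
    _ = 2 ^ (2 * (θ + e) * (S.F k).n) := by
        rw [mul_one, ← Real.rpow_add (by norm_num), ← Real.rpow_add (by norm_num), ← Real.rpow_add (by norm_num)]
        congr 1
        ring

/-- forms below forms -/
theorem Tpx.low {Q : S.VV M} {D : ℕ} {z y : ∀ k, FD (S.F k) (Mon M D)} {θ : ℝ}
    (hd : Pool.Agent.Helper89.RAK.DomJ z y) (hT : Tpx Q z θ) : Tpx Q y θ := by
  intro e he
  have h1 := hd (e / 2) (half_pos he)
  have h2 : Tendsto (fun k => (z k).l.T.pb (fun ω => ¬ ∀ v : Fin M → ℝ,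
    v ⬝ᵥ ((1 + Jq (S.dl 1 k) ((z k).g ω) (Q.v k ((z k).l.p.π ω))) *ᵥ v) ≤
      2 ^ (2 * (θ + e / 2) * (S.F k).n) * (v ⬝ᵥ v))) UF (𝓝 0) := hT (e / 2) (half_pos he)
  have h3 := h1.add h2
  rw [add_zero] at h3
  show Tendsto (fun k => (y k).l.T.pb (fun ω => ¬ ∀ v : Fin M → ℝ,
    v ⬝ᵥ ((1 + Jq (S.dl 1 k) ((y k).g ω) (Q.v k ((y k).l.p.π ω))) *ᵥ v) ≤
      2 ^ (2 * (θ + e) * (S.F k).n) * (v ⬝ᵥ v))) UF (𝓝 0)
  refine squeeze_zero' (Eventually.of_forall fun k => FSp.pb_nonneg _ _) (Eventually.of_forall fun k => ?_) h3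
  rw [← pb_push ((z k).l.am (y k).l).p2 (fun ω => ¬ ∀ v : Fin M → ℝ,
    v ⬝ᵥ ((1 + Jq (S.dl 1 k) ((y k).g ω) (Q.v k ((y k).l.p.π ω))) *ᵥ v) ≤
      2 ^ (2 * (θ + e) * (S.F k).n) * (v ⬝ᵥ v)), ← pb_push ((z k).l.am (y k).l).p1 (fun ω => ¬ ∀ v : Fin M → ℝ,
    v ⬝ᵥ ((1 + Jq (S.dl 1 k) ((z k).g ω) (Q.v k ((z k).l.p.π ω))) *ᵥ v) ≤
      2 ^ (2 * (θ + e / 2) * (S.F k).n) * (v ⬝ᵥ v))]
  refine le_trans (FSp.pb_mono _ ?_) (pb_or _ _ _)
  intro w hw h6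
  by_contra hc
  rw [not_or, not_not, not_not] at hc
  obtain ⟨c1, c2⟩ := hc
  apply h6
  intro v
  have e1 := (z k).jj_supp (y k) w hw
  have hn := (S.F k).pos
  have c3 := c2 v
  rw [← e1, dv_add, Matrix.one_mulVec]
  rw [dv_add, Matrix.one_mulVec] at c3
  have h7 : v ⬝ᵥ (Jq (S.dl 1 k) ((y k).g (((z k).l.am (y k).l).p2.π w))
      (Q.v k ((z k).l.p.π (((z k).l.am (y k).l).p1.π w))) *ᵥ v) ≤ 2 ^ (e / 2 * (S.F k).n) *
      (v ⬝ᵥ (Jq (S.dl 1 k) ((z k).g (((z k).l.am (y k).l).p1.π w))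
        (Q.v k ((z k).l.p.π (((z k).l.am (y k).l).p1.π w))) *ᵥ v)) := by
    rw [Jq_qf, Jq_qf, Finset.mul_sum]
    exact Finset.sum_le_sum fun j _ => c1 _
  have h8 : (1 : ℝ) ≤ 2 ^ (e / 2 * (S.F k).n) := Real.one_le_rpow (by norm_num) (by positivity)
  have h9 : 0 ≤ v ⬝ᵥ v := self_nonneg' v
  calc v ⬝ᵥ v + v ⬝ᵥ (Jq (S.dl 1 k) ((y k).g (((z k).l.am (y k).l).p2.π w))
      (Q.v k ((z k).l.p.π (((z k).l.am (y k).l).p1.π w))) *ᵥ v)
      ≤ 2 ^ (e / 2 * (S.F k).n) * (v ⬝ᵥ v) + 2 ^ (e / 2 * (S.F k).n) *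
      (v ⬝ᵥ (Jq (S.dl 1 k) ((z k).g (((z k).l.am (y k).l).p1.π w))
        (Q.v k ((z k).l.p.π (((z k).l.am (y k).l).p1.π w))) *ᵥ v)) := add_le_add (le_mul_of_one_le_left h9 h8) h7
    _ ≤ 2 ^ (e / 2 * (S.F k).n) * (2 ^ (2 * (θ + e / 2) * (S.F k).n) * (v ⬝ᵥ v)) := by
        rw [← mul_add]
        exact mul_le_mul_of_nonneg_left c3 (by positivity)
    _ ≤ 2 ^ (2 * (θ + e) * (S.F k).n) * (v ⬝ᵥ v) := by
        rw [← mul_assoc, ← Real.rpow_add (by norm_num)]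
        apply mul_le_mul_of_nonneg_right _ h9
        apply Real.rpow_le_rpow_of_exponent_le (by norm_num)
        nlinarith

/-- forms of smaller degree -/
theorem Tpx.down {Q : S.VV M} {κ' : Type} {A' : κ' → Part S} {D D' : ℕ} (hDD : D ≤ D')
    {x : ∀ k, FD (S.F k) (Mon M D)} (hx : (gaq Q D).Adf A' x) {θ : ℝ}
    (hT : Tpx Q (fun k => upx hDD (x k)) θ) : Tpx Q x θ := by
  intro e he
  have hc1 := nn_one M D
  have hc2 := Cm_one M D'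
  have hSub : S.Sub (fun _ => 1 + nn M D * Cm M D' ^ 2) := S.Sub_const (by positivity)
  have h3 : Tendsto (fun k => (x k).l.T.pb (fun ω => ¬ ∀ v : Fin M → ℝ,
    v ⬝ᵥ ((1 + Jq (S.dl 1 k) (upm hDD ((x k).g ω)) (Q.v k ((x k).l.p.π ω))) *ᵥ v) ≤
      2 ^ (2 * (θ + e / 2) * (S.F k).n) * (v ⬝ᵥ v))) UF (𝓝 0) := hT (e / 2) (half_pos he)
  show Tendsto (fun k => (x k).l.T.pb (fun ω => ¬ ∀ v : Fin M → ℝ,
    v ⬝ᵥ ((1 + Jq (S.dl 1 k) ((x k).g ω) (Q.v k ((x k).l.p.π ω))) *ᵥ v) ≤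
      2 ^ (2 * (θ + e) * (S.F k).n) * (v ⬝ᵥ v))) UF (𝓝 0)
  refine squeeze_zero' (Eventually.of_forall fun k => FSp.pb_nonneg _ _) ?_ h3
  filter_upwards [hx 1 one_pos, hSub.eventually_le he] with k a1 a2
  apply FSp.pb_mono
  intro ω hω h4 h5
  apply h4
  intro v
  have hC := (a1.2.1 ω hω).1
  have h6 := Jq_upm hDD _ hC.pdM _ (S.dl_pos 1 k) (Q.v k ((x k).l.p.π ω)) v
  have h7 := h5 v
  rw [dv_add, Matrix.one_mulVec] at h7
  rw [dv_add, Matrix.one_mulVec]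
  have h8 : 0 ≤ v ⬝ᵥ v := self_nonneg' v
  have h9 : 0 ≤ v ⬝ᵥ (Jq (S.dl 1 k) ((x k).g ω) (Q.v k ((x k).l.p.π ω)) *ᵥ v) := by
    rw [Jq_qf]
    exact Finset.sum_nonneg fun j _ => hC.psd.2 _
  have hcp : 0 < nn M D * Cm M D' ^ 2 := by positivity
  have h10 : 0 ≤ v ⬝ᵥ (Jq (S.dl 1 k) (upm hDD ((x k).g ω)) (Q.v k ((x k).l.p.π ω)) *ᵥ v) := by
    by_contra h
    push Not at h
    nlinarith
  calc v ⬝ᵥ v + v ⬝ᵥ (Jq (S.dl 1 k) ((x k).g ω) (Q.v k ((x k).l.p.π ω)) *ᵥ v)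
      ≤ (1 + nn M D * Cm M D' ^ 2) * (v ⬝ᵥ v + v ⬝ᵥ (Jq (S.dl 1 k) (upm hDD ((x k).g ω))
        (Q.v k ((x k).l.p.π ω)) *ᵥ v)) := by nlinarith
    _ ≤ 2 ^ (e * (S.F k).n) * (2 ^ (2 * (θ + e / 2) * (S.F k).n) * (v ⬝ᵥ v)) :=
        mul_le_mul (by linarith) h7 (add_nonneg h8 h10) (by positivity)
    _ = 2 ^ (2 * (θ + e) * (S.F k).n) * (v ⬝ᵥ v) := by
        rw [← mul_assoc, ← Real.rpow_add (by norm_num)]
        congr 2
        ring

/-- THE TOP EXPONENT OF ALL FORMS OF THE CLASS, all degrees -/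
theorem tpx_adf (hl : l.DMf A) (hC : C.ev l) (h0 : ∀ i, 0 ≤ La i) (h1 : ∀ i, La i ≤ 1) {d : ℕ}
    (hκ : ∀ k ω j, (f.P k ω j).totalDegree ≤ d)
    (hv : (M : ℝ) - ∑ i, La i ≤ Pool.Agent.Helper7.RD.volCO C A Q) {D : ℕ}
    {x : ∀ k, FD (S.F k) (Mon M D)} (hx : (gaq Q D).AdfK C A x) {θ : ℝ} (hθ : ∀ i, La i ≤ θ) : Tpx Q x θ := by
  obtain ⟨D', hDD, hD'⟩ : ∃ D', D ≤ D' ∧ (d + 1) ^ M ≤ D' := ⟨max D ((d + 1) ^ M), le_max_left _ _, le_max_right _ _⟩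
  obtain ⟨z, hz⟩ := (gaq Q D').exists_optfK C A
  have h2 := tpx_opt f hl hC h0 h1 hκ (hv.trans (Pool.Agent.Helper7.RD.volCO_le D')) hD' hz hθ
  have h3 : (gaq Q D').AdfK C A (fun k => upx hDD (x k)) := ⟨upx_Adf hDD hx.1, hx.2⟩
  exact (h2.low (optK_dom hz h3)).down hDD hx.1

/-- exponents at most `θ`, typically: the bound with a subexponential constant -/
theorem grB_of_tpx {κ' : Type} {A' : κ' → Part S} {D : ℕ} {x : ∀ k, FD (S.F k) (Mon M D)}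
    (hx : (gaq Q D).Adf A' x) {θ : ℝ} (hT : Tpx Q x θ) : GrB Q x (1 - θ) := by
  obtain ⟨K, hK, hKT⟩ := typ_sub_le (S := (lb x).sp) (fun k (ω : (x k).l.T.Ω) =>
    (1 + Jq (S.dl 1 k) ((x k).g ω) (Q.v k ((x k).l.p.π ω))).trace / 2 ^ (2 * θ * (S.F k).n)) (by
    intro e he
    have hSub : S.Sub (fun _ => (M : ℝ)) := S.Sub_const (Nat.cast_nonneg _)
    refine typ_mono (hT (e / 4) (by linarith)) ?_
    filter_upwards [hSub.eventually_le (half_pos he)] with k a2 ω _ h1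
    have e1 : ((lb x).sp.F k).n = (S.F k).n := (x k).l.hn
    rw [e1]
    show (1 + Jq (S.dl 1 k) ((x k).g ω) (Q.v k ((x k).l.p.π ω))).trace / 2 ^ (2 * θ * (S.F k).n) ≤
      2 ^ (e * (S.F k).n)
    rw [div_le_iff₀ (by positivity)]
    have h2 : (1 + Jq (S.dl 1 k) ((x k).g ω) (Q.v k ((x k).l.p.π ω))).trace ≤
        M * 2 ^ (2 * (θ + e / 4) * (S.F k).n) := by
      unfold Matrix.trace
      have h3 : ∀ i ∈ (Finset.univ : Finset (Fin M)), (1 + Jq (S.dl 1 k) ((x k).g ω)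
          (Q.v k ((x k).l.p.π ω))).diag i ≤ 2 ^ (2 * (θ + e / 4) * (S.F k).n) := by
        intro i _
        have h4 := h1 (Pi.single i 1)
        rw [Matrix.mulVec_single_one, single_one_dotProduct, single_one_dotProduct, Pi.single_eq_same, mul_one] at h4
        exact h4
      have h5 := Finset.sum_le_card_nsmul _ _ _ h3
      rw [Finset.card_univ, Fintype.card_fin, nsmul_eq_mul] at h5
      exact h5
    refine h2.trans ?_
    calc (M : ℝ) * 2 ^ (2 * (θ + e / 4) * (S.F k).n) ≤ 2 ^ (e / 2 * (S.F k).n) * 2 ^ (2 * (θ + e / 4) * (S.F k).n) :=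
          mul_le_mul_of_nonneg_right (by linarith) (by positivity)
      _ = 2 ^ (e * (S.F k).n) * 2 ^ (2 * θ * (S.F k).n) := by
          rw [← Real.rpow_add (by norm_num), ← Real.rpow_add (by norm_num)]
          congr 1
          ring)
  refine ⟨K, (sp_Sub _).mp hK, ?_⟩
  refine typ_mono hKT ?_
  filter_upwards [hx 1 one_pos] with k a3 ω hω h1 v
  have hC := (a3.2.1 ω hω).1
  have hPd : PdM (1 + Jq (S.dl 1 k) ((x k).g ω) (Q.v k ((x k).l.p.π ω))) := one_Jq_pd _ hC.1 hC.psd.2 _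
  refine (Pool.Agent.Helper26.BXD.qf_le_trace hPd.1 (fun v => hPd.nonneg v) v).trans ?_
  apply mul_le_mul_of_nonneg_right _ (self_nonneg' v)
  rw [div_le_iff₀ (by positivity)] at h1
  refine h1.trans (le_of_eq ?_)
  congr 1
  unfold Sp.dl
  rw [← Real.rpow_sub (by norm_num), ← Real.rpow_natCast, ← Real.rpow_mul (by norm_num)]
  congr 1
  push_cast
  ring

end top

/-! ### in the vocabulary of MX -/

open Pool.Agent.Helper29.MX Pool.Agent.Helper94.SEL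
open Pool.Agent.Helper87.NSL (cndR)

variable {E : ℕ → ℕ} {ι : Type}

/-- K-forms of a window with a framed label of full loss have at most the exponents of the frame -/
theorem grB_kad [Finite ι] {s : MSys S M E ι} {R : Rsl S} {c : ℝ} {l : Lab S} (hl : KLb s R c l) {La : Fin M → ℝ}
    (f : Frm s.Q l La) (h0 : ∀ i, 0 ≤ La i) (h1 : ∀ i, La i ≤ 1) {d : ℕ}
    (hd : ∀ k ω j, (f.P k ω j).totalDegree ≤ d) (hv : (M : ℝ) - ∑ i, La i ≤ volKO s R c) {e : ℝ}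
    (he : ∀ i, La i + e ≤ 1) {D : ℕ} {x : ∀ k, FD (S.F k) (Mon M D)} (hx : KAd s R D c x) : GrB s.Q x e := by
  rw [volKO_eq] at hv
  have h2 := tpx_adf (C := KZ R) (A := cndR s R c) f hl.1 hl.2 h0 h1 hd hv hx (θ := 1 - e)
    (fun i => by linarith [he i])
  have h3 := grB_of_tpx hx.1 h2
  rw [sub_sub_cancel] at h3
  exact h3

/-- **[TGF] THE TOP EXPONENT FROM FRAMES** -/
theorem topG_frm [Finite ι] {s : MSys S M E ι} {R : Rsl S} {c : ℝ} {l : Lab S} (hl : KLb s R c l) {La : Fin M → ℝ}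
    (f : Frm s.Q l La) (h0 : ∀ i, 0 ≤ La i) (h1 : ∀ i, La i ≤ 1) {d : ℕ}
    (hd : ∀ k ω j, (f.P k ω j).totalDegree ≤ d) (hv : (M : ℝ) - ∑ i, La i ≤ volKO s R c) {e : ℝ}
    (he : ∀ i, La i + e ≤ 1) : TopG s R c e :=
  fun _ _ hx => grB_kad hl f h0 h1 hd hv he hx.1

/-- the same for a coarser resolution -/
theorem topG_cso [Finite ι] {s : MSys S M E ι} {R R' : Rsl S} (h : Cso S R R') {c : ℝ} {l : Lab S}
    (hl : KLb s R c l) {La : Fin M → ℝ} (f : Frm s.Q l La) (h0 : ∀ i, 0 ≤ La i) (h1 : ∀ i, La i ≤ 1) {d : ℕ}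
    (hd : ∀ k ω j, (f.P k ω j).totalDegree ≤ d) (hv : (M : ℝ) - ∑ i, La i ≤ volKO s R c) {e : ℝ}
    (he : ∀ i, La i + e ≤ 1) : TopG s R' c e :=
  fun _ _ hx => grB_kad hl f h0 h1 hd hv he (h.kad hx.1)

end

end Pool.Agent.Helper71.VIS
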