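import Pool.Agent.Helper71.VIS.Trx
import Pool.Agent.Helper71.VIS.Tgf
import Pool.Agent.Helper3.ENT.Mem
import Pool.Agent.Helper89.RND.Gd
import Pool.Agent.Helper48.ROK.Numj

/-! ROUNDED POINTS: numbers, frames, TOP; the visible pair of a rigid stable pair. -/

set_option autoImplicit false

namespace Pool.Agent.Helper71.VIS

open Finset Filter Topology Matrix MvPolynomial Pool.Agent.Helper69.RK Pool.Agent.Helper31.EC
open Pool.Agent.Helper31.EC.Sp
open Pool.Agent.Helper40.EL Pool.Agent.Helper89.LX Pool.Agent.Helper3.LF Pool.Agent.Helper84.MT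
open Pool.Agent.Helper49.MD Pool.Agent.Helper36.AM
open Pool.Agent.Helper87.NSL (cndR KnS)
open Pool.Agent.Helper7.RD (volC volCO volC_eq)
open Pool.Agent.Helper3.KL (Cls)
open Pool.Agent.Helper89.RAK (rnd rnd_close)
open Pool.Agent.Helper89.RND
open Pool.Agent.Helper77.TPX (oth)
open Pool.Agent.Helper29.MX
open Pool.Agent.Helper94.SEL

noncomputable section

variable {S T : Sp} {M N D : ℕ} {E : ℕ → ℕ} {κ ι : Type}

/-! ### volumes -/

theorem volC_near [Finite κ] {C : LC S} {A : κ → Part S} {Q Q' : S.VV M} (h : Cls Q Q') (D : ℕ) :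
    volC C A Q' D = volC C A Q D := by
  obtain ⟨x, hx⟩ := (gaq Q D).exists_optfK C A
  rw [volC_eq hx, volC_eq ((optfK_near h).mpr hx)]
  exact adf_vol h hx.1.1

theorem volCO_near [Finite κ] {C : LC S} {A : κ → Part S} {Q Q' : S.VV M} (h : Cls Q Q') :
    volCO C A Q' = volCO C A Q := by
  unfold volCO
  exact iInf_congr fun D => volC_near h D

theorem cls_pfx {Q Q' : S.VV M} (h : Cls Q Q') {j : ℕ} (hj : j ≤ M) : Cls (pfx Q hj) (pfx Q' hj) := by
  obtain ⟨K, hK, h1⟩ := h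
  refine ⟨K, hK, ?_⟩
  filter_upwards [h1] with k hk ω hω i
  exact hk ω hω (Fin.castLE hj i)

/-- the numbers of the rounded system -/
theorem volP_rd [Finite ι] (s : MSys S M E ι) (R : Rsl S) (c : ℝ) {j : ℕ} (hj : j ≤ M) :
    volP (rd s) R c hj = volP s R c hj := by
  unfold volP
  rw [cndR_rd]
  exact volCO_near (cls_pfx (cls_rnd s.Q) hj)

theorem num_rd [Finite ι] (s : MSys S M E ι) (R : Rsl S) {j : ℕ} (hj : j ≤ M) (c : ℝ) :
    num (rd s) R hj c = num s R hj c := by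
  unfold num
  rw [volP_rd]

theorem tot_rd [Finite ι] (s : MSys S M E ι) (R : Rsl S) (c : ℝ) :
    Pool.Agent.Helper94.SEL.tot (rd s) R c = Pool.Agent.Helper94.SEL.tot s R c := by
  unfold Pool.Agent.Helper94.SEL.tot
  rw [volKO_rd]

/-! ### frames -/

/-- frames of close points -/
def frm_near {Q Q' : S.VV M} (h : Cls Q Q') {l : Lab S} {La : Fin M → ℝ} (f : Frm Q l La) : Frm Q' l La where
  X := f.X
  P := f.P
  tri := f.tri
  red := f.red
  fn := f.fn
  bd := f.bd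
  pt := by
    obtain ⟨K, hK, h1⟩ := f.pt
    obtain ⟨K', hK', h2⟩ := h
    refine ⟨fun k => K k + K' k, hK.add hK', ?_⟩
    filter_upwards [h1, h2] with k a b ω hω j
    have h3 := a ω hω j
    have h4 : |Q'.v k ((l k).p.π ω) j - Q.v k ((l k).p.π ω) j| ≤ K' k * S.dl 1 k := b _ ((l k).p.supp ω hω) j
    show |Q'.v k ((l k).p.π ω) j - _| ≤ _
    have h5 : |Q.v k ((l k).p.π ω) j - (MvPolynomial.eval (fun i => S.dl (La i) k * f.X.v k ω i) (f.P k ω j) +
      S.dl (La j) k * f.X.v k ω j)| ≤ K k * S.dl 1 k := h3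
    rw [add_mul]
    rw [abs_le] at h4 h5 ⊢
    constructor <;> linarith [h4.1, h4.2, h5.1, h5.2]

/-! ### digits and TOP -/

theorem near_dg {m : ℕ} {y y' : S.VV m} (h : ∀ᶠ k in UF, ∀ ω, (S.F k).μ ω ≠ 0 → ∀ i,
    |y'.v k ω i - y.v k ω i| ≤ S.dl 1 k) {r : ℝ} (hr : r ≤ 1) : y'.dg r = y.dg r := by
  apply le_antisymm
  · apply VV.dg_le_dg _ _ _ _ (fun _ _ => True) Typ_true (fun _ => 3) (S.Sub_const (by norm_num))
    filter_upwards [h] with k hk ω ω' a b _ _ _ g i
    have h1 := hk ω a i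
    have h2 := hk ω' b i
    have h3 := g i
    have h4 := S.dl_anti hr k
    rw [abs_le] at h1 h2 h3 ⊢
    constructor <;> linarith [h1.1, h1.2, h2.1, h2.2, h3.1, h3.2]
  · apply VV.dg_le_dg _ _ _ _ (fun _ _ => True) Typ_true (fun _ => 3) (S.Sub_const (by norm_num))
    filter_upwards [h] with k hk ω ω' a b _ _ _ g i
    have h1 := hk ω a i
    have h2 := hk ω' b i
    have h3 := g i
    have h4 := S.dl_anti hr k
    rw [abs_le] at h1 h2 h3 ⊢
    constructor <;> linarith [h1.1, h1.2, h2.1, h2.2, h3.1, h3.2]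

theorem rnd_im (Q : S.VV M) (p : Pj T S) (A : ∀ k, (T.F k).Ω → Prop) : (rnd Q).im p A = rnd (Q.im p A) := rfl

theorem rd_im (s : MSys S M E ι) (p : Pj T S) (A : ∀ k, (T.F k).Ω → Prop) (hA : 0 < ul (T.pr A)) :
    (rd s).im p A hA = rd (s.im p A hA) := rfl

theorem rnd_co_dg (Q : S.VV M) (i : Fin M) {r : ℝ} (hr : r ≤ 1) : ((rnd Q).co i).dg r = (Q.co i).dg r :=
  near_dg (Eventually.of_forall fun k ω _ _ => rnd_close Q k ω i) hr

theorem rnd_oth_dg (Q : S.VV M) (z : Fin M) {r : ℝ} (hr : r ≤ 1) : (oth (rnd Q) z).dg r = (oth Q z).dg r := by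
  apply near_dg _ hr
  refine Eventually.of_forall fun k ω _ i => ?_
  show |(if i = z then 0 else (rnd Q).v k ω i) - (if i = z then 0 else Q.v k ω i)| ≤ S.dl 1 k
  by_cases h : i = z
  · rw [if_pos h, if_pos h, sub_zero, abs_zero]
    exact (S.dl_pos 1 k).le
  · rw [if_neg h, if_neg h]
    exact rnd_close Q k ω i

/-- TOP of the rounded point -/
theorem top_rnd {ρ l ε : ℝ} {Q : S.VV (M + 1)} (hl : l ≤ 1) (h : Top ρ l ε Q) : Top ρ l ε (rnd Q) := by
  intro T q A hA a b ha hab hb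
  have h1 := h T q A hA a b ha hab hb
  rw [rnd_im, rnd_co_dg _ _ (hb.trans hl), rnd_co_dg _ _ ((hab.trans hb).trans hl), rnd_oth_dg _ _ le_rfl]
  exact h1

/-! ### the visible pair -/

/-- THE VISIBLE PAIR of a rigid stable pair with rigid visible numbers -/
theorem bk_vis {A : MCl (M + 1)} {C : ℕ → MCl (M + 1)} (hok : Okc (M + 1) A C) {m v g r e0 : ℕ} {b0 b1 : ℝ}
    {s : MSys S (M + 1) (lin g) (Fin r)} {R V : Rsl S} (hV : V = vis s.Q) (h : BK (C m) v g r e0 b0 S s R)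
    (hrig : ∀ (T : Sp) (q : Pj T S) (B : ∀ k, (T.F k).Ω → Prop) (hB : 0 < ul (T.pr B)) (c : ℝ), 0 ≤ c → c < b1 →
      ∀ (j : ℕ) (hj : j ≤ M + 1), num (rd (s.im q B hB)) V hj c = num (rd s) V hj c) :
    BK (C m) v g r e0 b1 S (rd s) V where
  cl := by
    refine ⟨hok.pnt m S g r s (rd s) h.cl.1 (Pool.Agent.Helper3.ENT.nrq_rd s), ?_,
      Pool.Agent.Helper3.ENT.inv_rd h.cl.2.2⟩
    have h1 : Pt (rd s) (vis (rd s).Q) := Pool.Agent.Helper3.ENT.lt_rd s
    rw [vis_rd] at h1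
    rw [hV]
    exact h1
  dim := h.dim
  pol := fun i => h.pol i
  stb := by
    intro T q B hB
    have h1 := h.stb T q B hB
    have hc : Cso S R V := by
      rw [hV]
      exact cso_vis h.cl.2.1
    have h2 := (hc.im q B).volKO (s := s.im q B hB) 0
    rw [rd_im, volKO_rd]
    exact h1.trans h2
  rig := by
    intro T q B hB c h0 hc j hj
    rw [rd_im]
    exact hrig T q B hB c h0 hc j hj

end

end Pool.Agent.Helper71.VIS
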