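import Pool.Agent.Helper71.VIS.Ub
import Pool.Agent.Helper89.SPX.Spd

/-! TRUNCATION OF THE NUMBERS, part 2: exact volumes of truncations of rigid systems. -/

set_option autoImplicit false

namespace Pool.Agent.Helper71.VIS

open Finset Filter Topology Matrix MvPolynomial Pool.Agent.Helper69.RK Pool.Agent.Helper31.EC
open Pool.Agent.Helper31.EC.Sp
open Pool.Agent.Helper40.EL Pool.Agent.Helper89.LX Pool.Agent.Helper3.LF Pool.Agent.Helper84.MT
open Pool.Agent.Helper89.RAK (Lit KC Dmz Slf.dmz slf_K)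
open Pool.Agent.Helper89.RAD (cnA dp)
open Pool.Agent.Helper89.SPX (cnA_im ker_cell)
open Pool.Agent.Helper48.ROK (nrm nrm_lit nrm_fc kns_im adfK_res optfK_res volC_res volCO_res)
open Pool.Agent.Helper7.RD (volC volCO volC_eq volC_le_of volCO_le volCO_nonneg)
open Pool.Agent.Helper25.DX (Ub cs ct tnx tnx_adf tnx_vol)
open Pool.Agent.Helper87.NSL (cndR KnS)
open Pool.Agent.Helper29.MX

noncomputable section

variable {S T : Sp} {M N D : ℕ} {E : ℕ → ℕ} {κ ι : Type}

/-- THE VOLUMES OF TRUNCATIONS from above: `Q` known to the resolution, the volume on all events at least `v`,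
`N - v < e` -/
theorem volC_trn_le [Finite ι] (s : MSys S M E ι) (R : Rsl S) (Q : S.VV N) (hQ : KnS R Q.v) {e : ℝ} (he : 0 < e)
    (h1 : e ≤ 1) (b : ℝ) (D : ℕ) {v : ℝ} (hv : N - v < e)
    (hlow : ∀ (T : Sp) (p : Pj T S) (A : ∀ k, (T.F k).Ω → Prop) (hA : 0 < ul (T.pr A)),
      v ≤ volC (KZ (S := Sp.im p A) R) (cndR (S := Sp.im p A) (s.im p A hA) R (e * b)) (Q.im p A) D) :
    volC (LC.kz (S := S.chg S.tr e he) fun k => fc (F := (S.chg S.tr e he).F k) (R k)) (cndR (s.trn e he h1) R b)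
      (Q.chg S.tr e he) D ≤ N - (N - volC (KZ R) (cndR s R (e * b)) Q D) / e := by
  set R' : Rsl S := nrm R Q with hR'
  have h := nrm_fc (R := R) (Q := Q) hQ
  obtain ⟨x, hx⟩ := (gaq Q D).exists_optfK (KC R') (cnA s (dp R') (e * b))
  have e0 : volC (KZ R) (cndR s R (e * b)) Q D = vol Q D x := by
    rw [cndR_eq, ← volC_eq hx]
    exact (volC_res h Q D).symm
  -- the typical upper bound
  have hu : Ub Q x (N - v) := by
    refine ub_of_low (nrm_lit R Q) hx.1 fun T p A hA y hy => ?_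
    have h2 : ∀ᶠ k in UF, fc (F := (Sp.im p A).F k) (nrm R Q k) = fc (F := (Sp.im p A).F k) (R k) :=
      nrm_fc (S := Sp.im p A) (R := R) (Q := Q.im p A) (kns_im hQ p A)
    have h3 : (gaq (Q.im p A) D).AdfK (KC (S := Sp.im p A) R)
        (cnA (S := Sp.im p A) (s.im p A hA) (dp (S := Sp.im p A) R) (e * b)) y := by
      refine (adfK_res (S := Sp.im p A) (s := s.im p A hA) h2).mp ?_
      rw [cnA_im]
      exact hy
    have h4 := volC_le_of h3
    refine (hlow T p A hA).trans ?_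
    rw [cndR_eq]
    exact h4
  have hd : ∀ z, Dmz Q z x := (slf_K (gaq Q D) hx).dmz hx.1.1 fun k ω ω' r => ker_cell (nrm_lit R Q k r)
  have hc : cnA s (dp R') (e * b) = cs (cnw s R' (e * b)) := funext fun i => by cases i <;> rfl
  have hxa : (gaq Q D).Adf (cs (cnw s R' (e * b))) x := by
    rw [← hc]
    exact hx.1.1
  have hy := (tnx_adf hxa hd hv he h1 hu).1
  have hvol := tnx_vol hxa hd hv he h1 hu
  -- the form of the truncated point
  have hyk : (gaq (Q.chg S.tr e he) D).AdfK (KC (S := S.chg S.tr e he) R')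
      (cnA (S := S.chg S.tr e he) (s.trn e he h1) (dp (S := S.chg S.tr e he) R') b) (tnx e he Q x) := by
    refine ⟨?_, (tnL_kz (l := lb x)).2 hx.1.2⟩
    have e1 := cndR_trn s he h1 R' b
    rw [cndR_eq] at e1
    rw [e1]
    exact hy
  have hQ' : KnS (S := S.chg S.tr e he) R (Q.chg S.tr e he).v := by
    filter_upwards [hQ] with k hk ω ω' a b z r
    exact hk ω ω' a b z.2 r
  have h5 : ∀ᶠ k in UF, fc (F := (S.chg S.tr e he).F k) (R' k) = fc (F := (S.chg S.tr e he).F k) (R k) :=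
    nrm_fc (S := S.chg S.tr e he) (R := R) (Q := Q.chg S.tr e he) hQ'
  have hyr := (adfK_res (S := S.chg S.tr e he) (s := s.trn e he h1) h5).mp hyk
  have h6 := volC_le_of hyr
  rw [cndR_eq, e0]
  refine h6.trans (le_of_eq ?_)
  rw [← hvol]
  field_simp
  ring

/-- ALL DEGREES -/
theorem volCO_trn_le [Finite ι] (s : MSys S M E ι) (R : Rsl S) (Q : S.VV N) (hQ : KnS R Q.v) {e : ℝ} (he : 0 < e)
    (h1 : e ≤ 1) (b : ℝ) {v : ℝ} (hv : N - v < e)
    (hlow : ∀ (T : Sp) (p : Pj T S) (A : ∀ k, (T.F k).Ω → Prop) (hA : 0 < ul (T.pr A)),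
      v ≤ volCO (KZ (S := Sp.im p A) R) (cndR (S := Sp.im p A) (s.im p A hA) R (e * b)) (Q.im p A)) :
    volCO (LC.kz (S := S.chg S.tr e he) fun k => fc (F := (S.chg S.tr e he).F k) (R k)) (cndR (s.trn e he h1) R b)
      (Q.chg S.tr e he) ≤ N - (N - volCO (KZ R) (cndR s R (e * b)) Q) / e := by
  set a := volCO (LC.kz (S := S.chg S.tr e he) fun k => fc (F := (S.chg S.tr e he).F k) (R k))
    (cndR (s.trn e he h1) R b) (Q.chg S.tr e he) with ha
  have h2 : ∀ D, N - e * (N - a) ≤ volC (KZ R) (cndR s R (e * b)) Q D := fun D => by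
    have h3 := volC_trn_le s R Q hQ he h1 b D hv fun T p A hA => (hlow T p A hA).trans (volCO_le D)
    have h4 : a ≤ volC (LC.kz (S := S.chg S.tr e he) fun k => fc (F := (S.chg S.tr e he).F k) (R k))
      (cndR (s.trn e he h1) R b) (Q.chg S.tr e he) D := volCO_le D
    have h5 := h4.trans h3
    rw [le_sub_comm, div_le_iff₀ he] at h5
    linarith
  have h6 : N - e * (N - a) ≤ volCO (KZ R) (cndR s R (e * b)) Q := le_ciInf h2
  rw [le_sub_comm, div_le_iff₀ he]
  linarith

/-- **THE NUMBERS OF TRUNCATIONS** -/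
theorem volP_trn_eq [Finite ι] (s : MSys S M E ι) (R : Rsl S) (hP : Pt s R) {e : ℝ} (he : 0 < e) (h1 : e ≤ 1) (b : ℝ)
    {j : ℕ} (hj : j ≤ M) (hv : j - volP s R (e * b) hj < e)
    (hrig : ∀ (T : Sp) (p : Pj T S) (A : ∀ k, (T.F k).Ω → Prop) (hA : 0 < ul (T.pr A)),
      volP s R (e * b) hj ≤ volP (s.im p A hA) R (e * b) hj) :
    (j : ℝ) - volP (s.trn e he h1) R b hj = (j - volP s R (e * b) hj) / e := by
  have hQ : KnS R (pfx s.Q hj).v := by
    filter_upwards [hP] with k hk ω ω' a b z r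
    funext i
    exact congrFun (hk ω ω' a b z r) _
  have h2 := volCO_trn_le s R (pfx s.Q hj) hQ he h1 b hv hrig
  have h3 := volP_trn s he h1 R b hj
  have h4 : volP (s.trn e he h1) R b hj ≤ j - (j - volP s R (e * b) hj) / e := h2
  rw [eq_div_iff he.ne']
  rw [le_sub_comm, div_le_iff₀ he] at h4
  linarith

end

end Pool.Agent.Helper71.VIS
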