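import Pool.Agent.Helper26.BXD.Tht
import Pool.Agent.Helper38.NSL.Tc3
import Pool.Agent.Helper7.RD.Kv

/-! VOLUMES OF TRUNCATIONS, part 1: forms on larger cells from their derivatives at the point; means of typically
comparable functions. -/

set_option autoImplicit false

namespace Pool.Agent.Helper71.VIS

open Finset Filter Topology Matrix MvPolynomial Pool.Agent.Helper69.RK Pool.Agent.Helper31.EC
open Pool.Agent.Helper31.EC.Sp
open Pool.Agent.Helper40.EL Pool.Agent.Helper89.LX Pool.Agent.Helper3.LF Pool.Agent.Helper84.MT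
open Pool.Agent.Helper95.LF
open Pool.Agent.Helper26.BXD

noncomputable section

variable {M D : ℕ}

/-- a polynomial the scaled derivatives of which are small at one point is small on the cell -/
theorem val_of_sder : ∀ (D : ℕ) (q : MvPolynomial (Fin M) ℝ), q.totalDegree ≤ D → ∀ (x : Fin M → ℝ) (τ R : ℝ), 0 < R →
    (∀ L : List (Fin M), L.length ≤ D → R ^ L.length * |eval x (pdl L q)| ≤ τ) → ∀ y : Fin M → ℝ,
      (∀ i, |y i - x i| ≤ R) → |eval y q| ≤ τ * (1 + M) ^ D := by
  intro D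
  induction D with
  | zero =>
    intro q hq x τ R hR h y hy
    have h1 : q = C (q.coeff 0) := totalDegree_eq_zero_iff_eq_C.1 (Nat.le_zero.1 hq)
    have h2 := h [] (Nat.zero_le _)
    have h3 : eval x (pdl ([] : List (Fin M)) q) = eval x q := rfl
    rw [h3, List.length_nil, pow_zero, one_mul] at h2
    rw [pow_zero, mul_one]
    rw [h1, eval_C] at h2 ⊢
    exact h2
  | succ D ih =>
    intro q hq x τ R hR h y hy
    have h0 := h [] (Nat.zero_le _)
    have h3 : eval x (pdl ([] : List (Fin M)) q) = eval x q := rfl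
    rw [h3, List.length_nil, pow_zero, one_mul] at h0
    have hτ : 0 ≤ τ := (abs_nonneg _).trans h0
    have h2 : |eval y q - eval x q| ≤ M * (R * (τ / R * (1 + M) ^ D)) := mean_val q x y hR.le hy fun i z hz =>
      ih (pderiv i q) (tdeg_pderiv i q D hq) x (τ / R) R hR
        (fun L hL => by
          have h5 := h (i :: L) (by rw [List.length_cons]; omega)
          have e1 : eval x (pdl (i :: L) q) = eval x (pdl L (pderiv i q)) := rfl
          rw [e1, List.length_cons, pow_succ] at h5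
          rw [le_div_iff₀ hR]
          linarith) z hz
    have e2 : (M : ℝ) * (R * (τ / R * (1 + M) ^ D)) = M * (τ * (1 + M) ^ D) := by
      field_simp
    rw [e2] at h2
    have h4 := abs_sub_abs_le_abs_sub (eval y q) (eval x q)
    have h5 : (1 : ℝ) ≤ (1 + M) ^ D := one_le_pow₀ (by
      have : 0 ≤ (M : ℝ) := by positivity
      linarith)
    have h6 : τ ≤ τ * (1 + M) ^ D := le_mul_of_one_le_right hτ h5
    calc |eval y q| ≤ τ + M * (τ * (1 + M) ^ D) := by linarith
      _ ≤ τ * (1 + M) ^ D + M * (τ * (1 + M) ^ D) := by linarith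
      _ = τ * (1 + M) ^ (D + 1) := by ring

/-- the constant -/
def cG (M D : ℕ) : ℝ := nn M D * (Fintype.card (Mon M D) * ((1 + M : ℝ) ^ D) ^ 2)

theorem cG_nonneg (M D : ℕ) : 0 ≤ cG M D := by
  unfold cG
  have := nn_one M D
  positivity

/-- LARGE CELLS: the size of a form on a cell from the scaled derivatives at the corner -/
theorem phi_of_sder {A : Matrix (Mon M D) (Mon M D) ℝ} (hA : A.IsSymm) (h0 : ∀ v, 0 ≤ v ⬝ᵥ (A *ᵥ v)) (x : Fin M → ℝ)
    {τ r : ℝ} (hr : 0 < r) (hτ : 0 ≤ τ)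
    (h : ∀ L : List (Fin M), L.length ≤ D → (r ^ L.length) ^ 2 * (vv x ⬝ᵥ (dL L A *ᵥ vv x)) ≤ τ) :
    phi r A x ≤ cG M D * τ := by
  obtain ⟨C, rfl⟩ := exists_factor0 A hA h0
  rw [phi_rows]
  have h1 : ∀ k : Mon M D, ph D (pol (C k)) r x ≤ nn M D * (((1 + M : ℝ) ^ D) ^ 2 * τ) := by
    intro k
    have h2 : ∀ L : List (Fin M), L.length ≤ D → r ^ L.length * |eval x (pdl L (pol (C k)))| ≤ Real.sqrt τ := by
      intro L hL
      have h3 := h L hL
      rw [dL_rows] at h3
      have h4 : (eval x (pdl L (pol (C k)))) ^ 2 ≤ ∑ k, (eval x (pdl L (pol (C k)))) ^ 2 :=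
        Finset.single_le_sum (f := fun k => (eval x (pdl L (pol (C k)))) ^ 2) (fun _ _ => sq_nonneg _)
          (Finset.mem_univ k)
      have e1 : r ^ L.length * |eval x (pdl L (pol (C k)))| = |r ^ L.length * eval x (pdl L (pol (C k)))| := by
        rw [abs_mul, abs_of_pos (pow_pos hr _)]
      rw [e1]
      apply Real.abs_le_sqrt
      rw [mul_pow]
      exact (mul_le_mul_of_nonneg_left h4 (by positivity)).trans h3
    unfold ph
    have h5 : ∀ j ∈ (Finset.univ : Finset (Fin M → Fin (D + 1))), (eval (nodp D x r j) (pol (C k))) ^ 2 ≤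
        ((1 + M : ℝ) ^ D) ^ 2 * τ := by
      intro j _
      have h6 := val_of_sder D (pol (C k)) (Pool.Agent.Helper3.LF.pol_deg _) x (Real.sqrt τ) r hr h2 (nodp D x r j) fun i => by
        have := node_near x hr.le j i
        rwa [one_mul] at this
      have h7 : (eval (nodp D x r j) (pol (C k))) ^ 2 ≤ (Real.sqrt τ * (1 + M) ^ D) ^ 2 := by
        rw [← sq_abs]
        exact pow_le_pow_left₀ (abs_nonneg _) h6 2
      refine h7.trans (le_of_eq ?_)
      rw [mul_pow, Real.sq_sqrt hτ]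
      ring
    refine (Finset.sum_le_card_nsmul _ _ _ h5).trans (le_of_eq ?_)
    rw [nsmul_eq_mul, card_nodes]
  refine (Finset.sum_le_card_nsmul _ _ _ fun k _ => h1 k).trans (le_of_eq ?_)
  rw [nsmul_eq_mul, Finset.card_univ]
  unfold cG
  ring

/-- means of typically comparable functions -/
theorem mean_le {F : ℕ → FSp} (f g : ∀ k, (F k).Ω → ℝ) (C : ℝ)
    (hf : ∀ᶠ k in UF, ∀ ω, (F k).μ ω ≠ 0 → f k ω ≤ C) (hg : ∀ᶠ k in UF, ∀ ω, (F k).μ ω ≠ 0 → 0 ≤ g k ω)
    (h : ∀ e : ℝ, 0 < e → Tendsto (fun k => (F k).pb (fun ω => ¬ f k ω ≤ g k ω + e)) UF (𝓝 0)) (e : ℝ) (he : 0 < e) :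
    ∀ᶠ k in UF, ∑ ω, (F k).μ ω * f k ω ≤ ∑ ω, (F k).μ ω * g k ω + e := by
  classical
  have he2 : 0 < e / 2 := by linarith
  have h1 := (h (e / 2) he2).const_mul C
  rw [mul_zero] at h1
  filter_upwards [hf, hg, h1.eventually (gt_mem_nhds he2)] with k a b c
  have h2 : ∑ ω, (F k).μ ω * f k ω ≤ ∑ ω, ((F k).μ ω * g k ω + (F k).μ ω * (e / 2) +
      C * res (F k).μ (fun ω => ¬ f k ω ≤ g k ω + e / 2) ω) := by
    apply Finset.sum_le_sum
    intro ω _
    have hμ := (F k).nn ω
    by_cases h0 : (F k).μ ω = 0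
    · rw [h0, zero_mul, zero_mul, zero_mul]
      have h3 : res (F k).μ (fun ω => ¬ f k ω ≤ g k ω + e / 2) ω = 0 := by
        unfold res
        split_ifs
        · exact h0
        · rfl
      rw [h3]
      simp
    · by_cases hN : f k ω ≤ g k ω + e / 2
      · rw [res_neg (F k).μ (fun ω => ¬ f k ω ≤ g k ω + e / 2) ω (not_not.2 hN)]
        have := mul_le_mul_of_nonneg_left hN hμ
        rw [mul_zero, add_zero, ← mul_add]
        exact this
      · rw [res_pos (F k).μ (fun ω => ¬ f k ω ≤ g k ω + e / 2) ω hN]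
        have h3 := mul_le_mul_of_nonneg_left (a ω h0) hμ
        have h4 := mul_nonneg hμ (b ω h0)
        have h5 := mul_nonneg hμ he2.le
        linarith [mul_comm C ((F k).μ ω)]
  rw [Finset.sum_add_distrib, Finset.sum_add_distrib, ← Finset.sum_mul, ← Finset.mul_sum] at h2
  have h6 : ∑ ω, (F k).μ ω = 1 := (F k).ms
  rw [h6, one_mul] at h2
  have h7 : C * ∑ ω, res (F k).μ (fun ω => ¬ f k ω ≤ g k ω + e / 2) ω < e / 2 := c
  linarith

end

end Pool.Agent.Helper71.VIS
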