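import Pool.Agent.Helper71.VIS.Trf

/-! VOLUMES OF TRUNCATIONS, part 2: forms of the truncated point give forms of the point. -/

set_option autoImplicit false

namespace Pool.Agent.Helper71.VIS

open Finset Filter Topology Matrix MvPolynomial Pool.Agent.Helper69.RK Pool.Agent.Helper31.EC
open Pool.Agent.Helper31.EC.Sp
open Pool.Agent.Helper40.EL Pool.Agent.Helper89.LX Pool.Agent.Helper3.LF Pool.Agent.Helper84.MT
open Pool.Agent.Helper95.LF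
open Pool.Agent.Helper26.BXD
open Pool.Agent.Helper14.MC (gx vx vx_UB vol_eq)
open Pool.Agent.Helper52.SL (untF tnF untL tnL nul_trn cellv_chg untF_leak tnF_leak)
open Pool.Agent.Helper3.PR (cutm cutm_cpd cutFD)
open Pool.Agent.Helper38.NSL (cld cld_symm phi_cld Cpd_cld GQ_cld cT)

noncomputable section

variable {S : Sp} {M D : ℕ} {κ : Type}

/-- a family of partitions as conditions -/
abbrev fcs (S : Sp) {κ : Type} (B : κ → ∀ k, Setoid (S.F k).Ω) : κ → Part S := fun i k => fc (B i k)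

/-- labels of the truncated space with conditions given by partitions -/
theorem untL_DMf {r : ℝ} {h0 : 0 < r} {l : Lab (S.chg S.tr r h0)} {B : κ → ∀ k, Setoid (S.F k).Ω} :
    (untL l).DMf (fcs S B) ↔ l.DMf (fcs (S.chg S.tr r h0) B) :=
  ⟨fun h i => nul_trn.mpr (h i), fun h i => nul_trn.mp (h i)⟩

theorem tnL_DMf {r : ℝ} {h0 : 0 < r} {l : Lab S} {B : κ → ∀ k, Setoid (S.F k).Ω} :
    (tnL r h0 l).DMf (fcs (S.chg S.tr r h0) B) ↔ l.DMf (fcs S B) :=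
  ⟨fun h i => nul_trn.mp (h i), fun h i => nul_trn.mpr (h i)⟩

variable (Q : S.VV M) (r : ℝ) (h0 : 0 < r) (y : ∀ k, FD ((S.chg S.tr r h0).F k) (Mon M D))

/-- the matrices of the form -/
def uG (k : ℕ) (ω : ((untL (lb y)) k).T.Ω) : Matrix (Mon M D) (Mon M D) ℝ :=
  cld (S.dl r k) (cutm ((gaq (Q.chg S.tr r h0) D).cp k) ((y k).g ω))

theorem uG_ms (k : ℕ) (ω ω' : ((untL (lb y)) k).T.Ω) (a : ((untL (lb y)) k).T.μ ω ≠ 0)
    (b : ((untL (lb y)) k).T.μ ω' ≠ 0) (c : ((untL (lb y)) k).V ω ω') (d : ((untL (lb y)) k).T.Z ω ω') :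
    uG Q r h0 y k ω = uG Q r h0 y k ω' := by
  unfold uG
  rw [((y k).meas ω ω' a b c d).1]

/-- the form of the point -/
def untFD : ∀ k, FD (S.F k) (Mon M D) := cutFD (gaq Q D) (untL (lb y)) (uG Q r h0 y) (uG_ms Q r h0 y)

variable {Q r h0 y}

theorem dl_anti (S : Sp) {a b : ℝ} (h : a ≤ b) (k : ℕ) : S.dl b k ≤ S.dl a k := by
  unfold Sp.dl
  apply Real.rpow_le_rpow_of_exponent_le (by norm_num)
  have := mul_le_mul_of_nonneg_right h (S.F k).pos.le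
  linarith

theorem uG_one (h0' : 0 ≤ r) (k : ℕ) (ω : ((untL (lb y)) k).T.Ω) : (uG Q r h0 y k ω).IsSymm ∧
    ∀ x, x ⬝ᵥ x ≤ qf (uG Q r h0 y k ω) x := by
  have h1 := Cpd_cld (cutm_cpd ((gaq (Q.chg S.tr r h0) D).one_le_cp k) ((y k).g ω)) (S.dl_pos r k).le
    (by
      have := dl_anti S h0' k
      have e : S.dl 0 k = 1 := by unfold Sp.dl; simp
      rwa [e] at this)
  exact ⟨h1.1, h1.2.1⟩

/-- typically the form is small -/
theorem uG_typ (h1 : r ≤ 1) {A : κ → Part (S.chg S.tr r h0)} (hy : (gaq (Q.chg S.tr r h0) D).Adf A y) (η : ℝ)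
    (hη : 0 < η) : Tendsto (fun k => ((untL (lb y)) k).T.pb (fun ω =>
      ¬ (gaq Q D).φ k (((untL (lb y)) k).p.π ω) (uG Q r h0 y k ω) ≤ 2 ^ (η * (S.F k).n))) UF (𝓝 0) := by
  have hcT : (0 : ℝ) ≤ cT M D := by
    unfold cT
    have := nn_one M D
    positivity
  rw [Metric.tendsto_nhds]
  intro ε hε
  set δ : ℝ := min (ε / 2) (η / 2) with hδ
  have hδ0 : 0 < δ := lt_min (by linarith) (by linarith)
  filter_upwards [hy δ hδ0, (S.Sub_const hcT).eventually_le (by linarith : 0 < η / 2)] with k hk hc'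
  rw [Real.dist_eq, sub_zero, abs_of_nonneg (((untL (lb y)) k).T.pb_nonneg _)]
  have hn := (S.F k).pos
  have hc : cT M D ≤ 2 ^ (η / 2 * (S.F k).n) := by linarith
  obtain ⟨-, hcap, hp, -⟩ := hk
  have h2 : ((untL (lb y)) k).T.pb (fun ω => ¬ (gaq Q D).φ k (((untL (lb y)) k).p.π ω) (uG Q r h0 y k ω) ≤
      2 ^ (η * (S.F k).n)) ≤ (y k).l.T.pb (fun ω => ¬ (gaq (Q.chg S.tr r h0) D).φ k ((y k).l.p.π ω) ((y k).g ω) ≤
        2 ^ (δ * ((S.chg S.tr r h0).F k).n)) := by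
    refine FSp.pb_mono (y k).l.T ?_
    intro ω hω h3 h4
    apply h3
    have hcp := (hcap ω hω).1
    show phi (S.dl 1 k) (cld (S.dl r k) (cutm _ ((y k).g ω))) (Q.v k ((y k).l.p.π ω)) ≤ _
    rw [cutm_pos hcp]
    have h5 := phi_cld hcp.pdM (S.dl_pos r k) (S.dl_pos 1 k).le (dl_anti S h1 k) (Q.v k ((y k).l.p.π ω))
    refine h5.trans ?_
    have h6 : phi (S.dl r k) ((y k).g ω) (Q.v k ((y k).l.p.π ω)) ≤ 2 ^ (δ * (r * (S.F k).n)) := by
      have e1 : (S.chg S.tr r h0).dl 1 k = S.dl r k := by rw [chg_dl, mul_one]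
      have h7 : phi ((S.chg S.tr r h0).dl 1 k) ((y k).g ω) (Q.v k ((y k).l.p.π ω)) ≤ 2 ^ (δ * (r * (S.F k).n)) := h4
      rwa [e1] at h7
    have h8 : (2 : ℝ) ^ (δ * (r * (S.F k).n)) ≤ 2 ^ (η / 2 * (S.F k).n) := by
      apply Real.rpow_le_rpow_of_exponent_le (by norm_num)
      have h9 : r * (S.F k).n ≤ 1 * (S.F k).n := mul_le_mul_of_nonneg_right h1 hn.le
      have h10 : δ ≤ η / 2 := min_le_right _ _
      have h11 : 0 ≤ r * (S.F k).n := mul_nonneg h0.le hn.le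
      calc δ * (r * (S.F k).n) ≤ η / 2 * (r * (S.F k).n) := mul_le_mul_of_nonneg_right h10 h11
        _ ≤ η / 2 * (1 * (S.F k).n) := mul_le_mul_of_nonneg_left h9 (by linarith)
        _ = η / 2 * (S.F k).n := by rw [one_mul]
    calc cT M D * phi (S.dl r k) ((y k).g ω) (Q.v k ((y k).l.p.π ω)) ≤ 2 ^ (η / 2 * (S.F k).n) *
          2 ^ (η / 2 * (S.F k).n) := mul_le_mul hc (h6.trans h8) (phi_nonneg _ hcp.psd.2 _) (by positivity)
      _ = 2 ^ (η * (S.F k).n) := by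
        rw [← Real.rpow_add (by norm_num)]
        congr 1
        ring
  calc _ ≤ _ := h2
    _ ≤ δ := hp
    _ ≤ ε / 2 := min_le_left _ _
    _ < ε := by linarith

/-- typically nothing is cut off -/
theorem uG_cpd (h1 : r ≤ 1) {A : κ → Part (S.chg S.tr r h0)} (hy : (gaq (Q.chg S.tr r h0) D).Adf A y) :
    Tendsto (fun k => ((untL (lb y)) k).T.pb (fun ω => ¬ Cpd ((gaq Q D).cp k) (uG Q r h0 y k ω))) UF (𝓝 0) :=
  cut_typ_eta (Φ := gaq Q D) (untL (lb y)) (uG Q r h0 y) (Eventually.of_forall fun k ω _ => uG_one h0.le k ω)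
    (uG_typ h1 hy)

/-- THE FORM OF THE POINT -/
theorem untFD_adf [Finite κ] (h1 : r ≤ 1) {B : κ → ∀ k, Setoid (S.F k).Ω}
    (hy : (gaq (Q.chg S.tr r h0) D).Adf (fcs (S.chg S.tr r h0) B) y) :
    (gaq Q D).Adf (fcs S B) (untFD Q r h0 y) :=
  cut_adf_eta (Φ := gaq Q D) (untL (lb y)) (untL_DMf.2 hy.dm) (uG Q r h0 y) (uG_ms Q r h0 y)
    (Eventually.of_forall fun k ω _ => uG_one h0.le k ω) (uG_typ h1 hy)

theorem gexq_gx {x : ∀ k, FD (S.F k) (Mon M D)} (k : ℕ) (ω : (x k).l.T.Ω) :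
    Pool.Agent.Helper14.MC.gexq (Pool.Agent.Helper14.MC.oQ (lb x) Q) (fun k (ω : (x k).l.T.Ω) => (x k).g ω) k ω =
      gx Q k ((x k).l.p.π ω) ((x k).g ω) := by
  unfold Pool.Agent.Helper14.MC.gexq gx
  rw [Pool.Agent.Helper42.NS.osp_dl, Pool.Agent.Helper14.MC.osp_n]
  rfl

/-- pointwise bounds of the exponents of admissible forms -/
theorem gx_bd {A : κ → Part S} {x : ∀ k, FD (S.F k) (Mon M D)} (hx : (gaq Q D).Adf A x) :
    ∀ᶠ k in UF, ∀ ω, (x k).l.T.μ ω ≠ 0 → gx Q k ((x k).l.p.π ω) ((x k).g ω) ≤ ((gaq Q D).C + 1 + 3) * M := by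
  filter_upwards [Pool.Agent.Helper14.MC.gexq_bd (Pool.Agent.Helper14.MC.oQ (lb x) Q) _ ((gaq Q D).C + 1)
    (by linarith [(gaq Q D).C0]) (Pool.Agent.Helper14.MC.adf_cap hx)] with k hk ω hω
  have := hk ω hω
  rwa [gexq_gx (x := x)] at this

theorem gx_nn {A : κ → Part S} {x : ∀ k, FD (S.F k) (Mon M D)} (hx : (gaq Q D).Adf A x) :
    ∀ᶠ k in UF, ∀ ω, (x k).l.T.μ ω ≠ 0 → 0 ≤ gx Q k ((x k).l.p.π ω) ((x k).g ω) := by
  filter_upwards [Pool.Agent.Helper14.MC.gexq_nonneg (Pool.Agent.Helper14.MC.oQ (lb x) Q) _ _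
    (Pool.Agent.Helper14.MC.adf_cap hx)] with k hk ω hω
  have := hk ω hω
  rwa [gexq_gx (x := x)] at this

/-- exponents of the truncated point -/
theorem r_gx (k : ℕ) (ω : (S.F k).Ω) (A : Matrix (Mon M D) (Mon M D) ℝ) :
    r * gx (Q.chg S.tr r h0) k ω A = Real.logb 2 (GQ (S.dl r k) A (Q.v k ω)) / (2 * (S.F k).n) := by
  have e1 : gx (Q.chg S.tr r h0) k ω A = Real.logb 2 (GQ ((S.chg S.tr r h0).dl 1 k) A (Q.v k ω)) /
    (2 * (r * (S.F k).n)) := rfl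
  have hn := (S.F k).pos
  rw [e1, chg_dl, mul_one]
  field_simp

theorem r_gx_cld (k : ℕ) (ω : (S.F k).Ω) {A : Matrix (Mon M D) (Mon M D) ℝ} {c : ℝ} (hA : Cpd c A) :
    r * gx (Q.chg S.tr r h0) k ω A ≤ gx Q k ω (cld (S.dl r k) A) := by
  rw [r_gx]
  have h5 := GQ_cld hA.psd (S.dl r k) (S.dl 1 k) (Q.v k ω)
  have h6 := one_le_GQ (S.dl r k) hA.1 hA.psd.2 (Q.v k ω)
  have h7 := Real.logb_le_logb_of_le (b := 2) (by norm_num) (by linarith) h5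
  unfold gx
  have hn := (S.F k).pos
  exact div_le_div_of_nonneg_right h7 (by positivity : (0 : ℝ) ≤ 2 * (S.F k).n)

theorem vol_aux1 (h1 : r ≤ 1) {A : κ → Part (S.chg S.tr r h0)} (hy : (gaq (Q.chg S.tr r h0) D).Adf A y) (e : ℝ)
    (he : 0 < e) : Tendsto (fun k => ((untL (lb y)) k).T.pb (fun ω =>
      ¬ r * gx (Q.chg S.tr r h0) k ((y k).l.p.π ω) ((y k).g ω) ≤
        gx Q k ((y k).l.p.π ω) ((untFD Q r h0 y k).g ω) + e)) UF (𝓝 0) := by
  refine squeeze_zero' (Eventually.of_forall fun k => FSp.pb_nonneg _ _) ?_ (uG_cpd h1 hy)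
  filter_upwards [hy 1 one_pos] with k hk
  refine FSp.pb_mono ((untL (lb y)) k).T ?_
  intro ω hω h3 h4
  apply h3
  have hcp := (hk.2.1 ω hω).1
  have e3 : (untFD Q r h0 y k).g ω = cld (S.dl r k) ((y k).g ω) := by
    have e4 : (untFD Q r h0 y k).g ω = cutm ((gaq Q D).cp k) (uG Q r h0 y k ω) := rfl
    rw [e4, cutm_pos h4]
    unfold uG
    rw [cutm_pos hcp]
  rw [e3]
  have := r_gx_cld (Q := Q) (r := r) (h0 := h0) k ((y k).l.p.π ω) hcp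
  linarith

theorem vol_aux2 (h1 : r ≤ 1) {A : κ → Part (S.chg S.tr r h0)} (hy : (gaq (Q.chg S.tr r h0) D).Adf A y) :
    ∀ᶠ k in UF, ∀ ω, ((untL (lb y)) k).T.μ ω ≠ 0 → r * gx (Q.chg S.tr r h0) k ((y k).l.p.π ω) ((y k).g ω) ≤
      ((gaq (Q.chg S.tr r h0) D).C + 1 + 3) * M := by
  filter_upwards [gx_bd hy, gx_nn hy] with k a b ω hω
  have h3 := a ω hω
  have h4 := b ω hω
  have h5 : r * gx (Q.chg S.tr r h0) k ((y k).l.p.π ω) ((y k).g ω) ≤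
    1 * gx (Q.chg S.tr r h0) k ((y k).l.p.π ω) ((y k).g ω) := mul_le_mul_of_nonneg_right h1 h4
  rw [one_mul] at h5
  exact h5.trans h3

theorem vol_aux3 (k : ℕ) : ∑ ω, ((untL (lb y)) k).T.μ ω *
    (r * gx (Q.chg S.tr r h0) k ((y k).l.p.π ω) ((y k).g ω)) = r * vx (Q.chg S.tr r h0) y k := by
  unfold vx
  rw [Finset.mul_sum]
  exact Finset.sum_congr rfl fun ω _ => mul_left_comm _ _ _

theorem vol_aux4 (h1 : r ≤ 1) [Finite κ] {B : κ → ∀ k, Setoid (S.F k).Ω}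
    (hy : (gaq (Q.chg S.tr r h0) D).Adf (fcs (S.chg S.tr r h0) B) y) :
    ∀ᶠ k in UF, ∀ ω, ((untL (lb y)) k).T.μ ω ≠ 0 → 0 ≤ gx Q k ((y k).l.p.π ω) ((untFD Q r h0 y k).g ω) := by
  have hx := untFD_adf h1 hy
  have := gx_nn hx
  exact this

theorem vol_aux5 (h1 : r ≤ 1) [Finite κ] {B : κ → ∀ k, Setoid (S.F k).Ω}
    (hy : (gaq (Q.chg S.tr r h0) D).Adf (fcs (S.chg S.tr r h0) B) y) (e : ℝ) (he : 0 < e) :
    ∀ᶠ k in UF, ∑ ω, ((untL (lb y)) k).T.μ ω * (r * gx (Q.chg S.tr r h0) k ((y k).l.p.π ω) ((y k).g ω)) ≤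
      ∑ ω, ((untL (lb y)) k).T.μ ω * gx Q k ((y k).l.p.π ω) ((untFD Q r h0 y k).g ω) + e := by
  exact mean_le (F := fun k => ((untL (lb y)) k).T)
    (fun k ω => r * gx (Q.chg S.tr r h0) k ((y k).l.p.π ω) ((y k).g ω))
    (fun k ω => gx Q k ((y k).l.p.π ω) ((untFD Q r h0 y k).g ω))
    (((gaq (Q.chg S.tr r h0) D).C + 1 + 3) * M) (vol_aux2 h1 hy) (vol_aux4 h1 hy) (vol_aux1 h1 hy) e he

theorem vol_aux6 (h1 : r ≤ 1) [Finite κ] {B : κ → ∀ k, Setoid (S.F k).Ω}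
    (hy : (gaq (Q.chg S.tr r h0) D).Adf (fcs (S.chg S.tr r h0) B) y) :
    r * ul (vx (Q.chg S.tr r h0) y) ≤ ul (vx Q (untFD Q r h0 y)) := by
  have hUx := vx_UB (untFD_adf h1 hy)
  have hUy := vx_UB hy
  rw [← ul_const_mul r hUy]
  apply le_of_forall_pos_le_add
  intro e he
  have h3 : ∀ᶠ k in UF, r * vx (Q.chg S.tr r h0) y k ≤ vx Q (untFD Q r h0 y) k + e := by
    filter_upwards [vol_aux5 h1 hy e he] with k hk
    rw [← vol_aux3]
    exact hk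
  have h4 := ul_mono (hUy.const_mul r) (hUx.add (UB_const e)) h3
  rw [ul_add hUx (UB_const e), ul_const] at h4
  exact h4

/-- volumes -/
theorem vol_untFD (h1 : r ≤ 1) [Finite κ] {B : κ → ∀ k, Setoid (S.F k).Ω}
    (hy : (gaq (Q.chg S.tr r h0) D).Adf (fcs (S.chg S.tr r h0) B) y) :
    r * (M - vol (Q.chg S.tr r h0) D y) ≤ M - vol Q D (untFD Q r h0 y) := by
  have h := vol_aux6 h1 hy
  have e1 : vol (Q.chg S.tr r h0) D y = M - ul (vx (Q.chg S.tr r h0) y) := vol_eq _ _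
  have e2 : vol Q D (untFD Q r h0 y) = M - ul (vx Q (untFD Q r h0 y)) := vol_eq _ _
  rw [e1, e2, sub_sub_cancel, sub_sub_cancel]
  exact h

end

end Pool.Agent.Helper71.VIS
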